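import Mathlib

open Set Module

namespace Pool.Agent.Lib.MP_103b79_co

/-- A face of a convex set `P`: a nonempty convex extreme subset. For a polytope these are exactly
its nonempty faces, `P` itself included. -/
def IsFace {E : Type*} [NormedAddCommGroup E] [NormedSpace ℝ E] (P F : Set E) : Prop :=
  F.Nonempty ∧ Convex ℝ F ∧ IsExtreme ℝ P F

/-- The dimension of a set, that is of its affine hull. -/
noncomputable def dimOf {E : Type*} [NormedAddCommGroup E] [NormedSpace ℝ E] (F : Set E) : ℕ :=
  finrank ℝ (vectorSpan ℝ F)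

/-- The symmetry group of `P` (the isometries `g` of the space with `g(P) = P`) is transitive on
the faces of `P` of dimension `j`. -/
def FaceTransitive {E : Type*} [NormedAddCommGroup E] [NormedSpace ℝ E] (j : ℕ) (P : Set E) :
    Prop :=
  ∀ F F' : Set E, IsFace P F → dimOf F = j → IsFace P F' → dimOf F' = j →
    ∃ g : E ≃ᵢ E, g '' P = P ∧ g '' F = F'

/-- A convex `d`-polytope in `ℝ^d`: the convex hull of finitely many points, with affine hull
the whole space. -/
def IsPolytope {d : ℕ} (P : Set (EuclideanSpace ℝ (Fin d))) : Prop :=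
  (∃ V : Finset (EuclideanSpace ℝ (Fin d)),
    P = convexHull ℝ (V : Set (EuclideanSpace ℝ (Fin d)))) ∧ affineSpan ℝ P = ⊤

end Pool.Agent.Lib.MP_103b79_co
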