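import Mathlib
import Pool.Agent.Lib.MP_103b79_co.Defs

open Set Module

namespace Pool.Agent.Lib.MP_103b79_co

section Faces

variable {E : Type*} [NormedAddCommGroup E] [NormedSpace ℝ E]

lemma IsFace.trans {P Q F : Set E} (h1 : IsFace P Q) (h2 : IsFace Q F) : IsFace P F :=
  ⟨h2.1, h2.2.1, h1.2.2.trans h2.2.2⟩

lemma vectorSpan_hull (V : Set E) : vectorSpan ℝ (convexHull ℝ V) = vectorSpan ℝ V := by
  rw [← direction_affineSpan, affineSpan_convexHull, direction_affineSpan]

/-- An extreme convex subset of a convex hull is the convex hull of the generators in it. -/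
lemma extreme_eq_hull (V Q : Set E) (hQ : Convex ℝ Q) (he : IsExtreme ℝ (convexHull ℝ V) Q) :
    Q = convexHull ℝ (V ∩ Q) := by
  apply Subset.antisymm
  · have hconv : Convex ℝ ((convexHull ℝ V \ Q) ∪ convexHull ℝ (V ∩ Q)) := by
      rw [convex_iff_openSegment_subset]
      intro y hy z hz x hx
      have hsub : convexHull ℝ (V ∩ Q) ⊆ convexHull ℝ V := convexHull_mono inter_subset_left
      have hyP : y ∈ convexHull ℝ V := by
        rcases hy with hy | hy
        · exact hy.1
        · exact hsub hy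
      have hzP : z ∈ convexHull ℝ V := by
        rcases hz with hz | hz
        · exact hz.1
        · exact hsub hz
      have hxP : x ∈ convexHull ℝ V :=
        (convex_convexHull ℝ V).openSegment_subset hyP hzP hx
      by_cases hxQ : x ∈ Q
      · have hyQ := he.left_mem_of_mem_openSegment hyP hzP hxQ hx
        have hzQ := he.right_mem_of_mem_openSegment hyP hzP hxQ hx
        right
        have hy' : y ∈ convexHull ℝ (V ∩ Q) := by
          rcases hy with hy | hy
          · exact absurd hyQ hy.2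
          · exact hy
        have hz' : z ∈ convexHull ℝ (V ∩ Q) := by
          rcases hz with hz | hz
          · exact absurd hzQ hz.2
          · exact hz
        exact (convex_convexHull ℝ _).openSegment_subset hy' hz' hx
      · left
        exact ⟨hxP, hxQ⟩
    have hV : V ⊆ (convexHull ℝ V \ Q) ∪ convexHull ℝ (V ∩ Q) := by
      intro v hv
      by_cases hvQ : v ∈ Q
      · right
        exact subset_convexHull ℝ _ ⟨hv, hvQ⟩
      · left
        exact ⟨subset_convexHull ℝ _ hv, hvQ⟩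
    have hmin := convexHull_min hV hconv
    intro x hx
    rcases hmin (he.subset hx) with h | h
    · exact absurd hx h.2
    · exact h
  · exact convexHull_min inter_subset_right hQ

/-- The set where a linear functional bounded by `c` on `V` equals `c` is a face. -/
lemma exposed_face (V : Set E) (l : E →ₗ[ℝ] ℝ) (c : ℝ) (hl : ∀ w ∈ V, l w ≤ c)
    (hne : ∃ w ∈ V, l w = c) :
    IsFace (convexHull ℝ V) (convexHull ℝ {w ∈ V | l w = c}) := by
  have hle : ∀ x ∈ convexHull ℝ V, l x ≤ c := by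
    have hc : Convex ℝ {x : E | l x ≤ c} := convex_halfSpace_le l.isLinear c
    intro x hx
    exact convexHull_min (s := V) (t := {x : E | l x ≤ c}) hl hc hx
  have hQconv : Convex ℝ {x ∈ convexHull ℝ V | l x = c} :=
    (convex_convexHull ℝ V).inter (convex_hyperplane l.isLinear c)
  have hext : IsExtreme ℝ (convexHull ℝ V) {x ∈ convexHull ℝ V | l x = c} := by
    refine ⟨fun x hx => hx.1, ?_⟩
    intro y hy z hz x hx hseg
    obtain ⟨a, b, ha, hb, hab, rfl⟩ := hseg
    refine ⟨hy, ?_⟩
    have h1 := hle y hy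
    have h2 := hle z hz
    have h3 : a * l y + b * l z = c := by
      have := hx.2
      simpa using this
    have hb' : b = 1 - a := by linarith
    by_contra hne'
    have h4 : l y < c := lt_of_le_of_ne h1 hne'
    have h5 := mul_pos ha (sub_pos.2 h4)
    have h6 := mul_nonneg hb.le (sub_nonneg.2 h2)
    have h7 : (a + b) * c = c := by rw [hab, one_mul]
    linarith [mul_sub a c (l y), mul_sub b c (l z), add_mul a b c]
  have heq := extreme_eq_hull V _ hQconv hext
  have hset : V ∩ {x ∈ convexHull ℝ V | l x = c} = {w ∈ V | l w = c} := by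
    ext w
    constructor
    · rintro ⟨h1, h2⟩
      exact ⟨h1, h2.2⟩
    · rintro ⟨h1, h2⟩
      exact ⟨h1, subset_convexHull ℝ _ h1, h2⟩
  rw [hset] at heq
  rw [← heq]
  obtain ⟨w, hw, hwc⟩ := hne
  exact ⟨⟨w, subset_convexHull ℝ _ hw, hwc⟩, hQconv, hext⟩

variable [FiniteDimensional ℝ E]

lemma finrank_inf_ker (D : Submodule ℝ E) (l : E →ₗ[ℝ] ℝ) :
    finrank ℝ D ≤ finrank ℝ (D ⊓ LinearMap.ker l : Submodule ℝ E) + 1 := by
  have h1 := Submodule.finrank_sup_add_finrank_inf_eq D (LinearMap.ker l)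
  have h2 := LinearMap.finrank_range_add_finrank_ker l
  have h3 : finrank ℝ (LinearMap.range l) ≤ 1 := by
    have := Submodule.finrank_le (LinearMap.range l)
    simpa using this
  have h4 := Submodule.finrank_le (D ⊔ LinearMap.ker l)
  omega


omit [FiniteDimensional ℝ E] in
lemma span_ker {V : Set E} {l : E →ₗ[ℝ] ℝ} {c : ℝ} :
    vectorSpan ℝ {w ∈ V | l w = c} ≤ LinearMap.ker l := by
  rw [vectorSpan_def, Submodule.span_le]
  rintro _ ⟨x, hx, y, hy, rfl⟩
  simp only [SetLike.mem_coe, LinearMap.mem_ker]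
  rw [vsub_eq_sub, map_sub, hx.2, hy.2, sub_self]

/-- Rotating a supporting functional, keeping a point `b` off the supporting hyperplane. -/
lemma rotate (V : Set E) (hV : V.Finite) (l : E →ₗ[ℝ] ℝ) (c : ℝ) (hl : ∀ w ∈ V, l w ≤ c)
    (hne : ∃ a ∈ V, l a = c) (b : E) (hb : b ∈ V) (hbc : l b < c)
    (hdim : finrank ℝ (vectorSpan ℝ {w ∈ V | l w = c}) + 2 ≤ finrank ℝ (vectorSpan ℝ V)) :
    ∃ (l' : E →ₗ[ℝ] ℝ) (c' : ℝ), (∀ w ∈ V, l' w ≤ c') ∧ (∀ w ∈ V, l w = c → l' w = c') ∧
      l' b < c' ∧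
      finrank ℝ (vectorSpan ℝ {w ∈ V | l w = c}) <
        finrank ℝ (vectorSpan ℝ {w ∈ V | l' w = c'}) := by
  classical
  obtain ⟨a, ha, hac⟩ := hne
  obtain ⟨u, huD, huA⟩ : ∃ u ∈ vectorSpan ℝ V,
      u ∉ vectorSpan ℝ {w ∈ V | l w = c} ⊔ Submodule.span ℝ {b - a} := by
    by_contra hcon
    push Not at hcon
    have hle : vectorSpan ℝ V ≤ vectorSpan ℝ {w ∈ V | l w = c} ⊔ Submodule.span ℝ {b - a} :=
      fun u hu => hcon u hu
    have h1 := Submodule.finrank_mono hle
    have h2 := Submodule.finrank_add_le_finrank_add_finrank (vectorSpan ℝ {w ∈ V | l w = c})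
      (Submodule.span ℝ {b - a})
    have h3 : finrank ℝ (Submodule.span ℝ {b - a}) ≤ 1 := by
      have := finrank_span_le_card (R := ℝ) ({b - a} : Set E)
      simpa using this
    omega
  obtain ⟨m, hmu, hmA⟩ := Submodule.exists_dual_map_eq_bot_of_notMem huA inferInstance
  have hmA0 : ∀ x ∈ vectorSpan ℝ {w ∈ V | l w = c} ⊔ Submodule.span ℝ {b - a}, m x = 0 := by
    intro x hx
    have : m x ∈ (vectorSpan ℝ {w ∈ V | l w = c} ⊔ Submodule.span ℝ {b - a}).map m :=
      Submodule.mem_map_of_mem hx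
    rw [hmA] at this
    simpa using this
  have hmA' : ∀ x ∈ vectorSpan ℝ {w ∈ V | l w = c}, m x = 0 := fun x hx =>
    hmA0 x (Submodule.mem_sup_left hx)
  have hmb : m b = m a := by
    have h := hmA0 (b - a) (Submodule.mem_sup_right (Submodule.mem_span_singleton_self _))
    rw [map_sub] at h
    linarith
  -- a functional that is constant on V kills the vector span of V
  have hconst : ∀ f : E →ₗ[ℝ] ℝ, (∀ w ∈ V, f w = f a) → ∀ x ∈ vectorSpan ℝ V, f x = 0 := by
    intro f hf x hx
    have hle : vectorSpan ℝ V ≤ LinearMap.ker f := by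
      rw [vectorSpan_def, Submodule.span_le]
      rintro _ ⟨y, hy, z, hz, rfl⟩
      simp only [SetLike.mem_coe, LinearMap.mem_ker]
      rw [vsub_eq_sub, map_sub, hf y hy, hf z hz, sub_self]
    exact hle hx
  -- choose the sign of m
  obtain ⟨m, hmA', hmb, w0, hw0, hw0m⟩ : ∃ m : E →ₗ[ℝ] ℝ,
      (∀ x ∈ vectorSpan ℝ {w ∈ V | l w = c}, m x = 0) ∧ m b = m a ∧ ∃ w ∈ V, m a < m w := by
    by_cases h : ∃ w ∈ V, m a < m w
    · exact ⟨m, hmA', hmb, h⟩
    · push Not at h
      refine ⟨-m, fun x hx => by simp [hmA' x hx], by simp [hmb], ?_⟩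
      by_contra h2
      push Not at h2
      apply hmu
      apply hconst m _ u huD
      intro w hw
      have h3 := h w hw
      have h4 := h2 w hw
      simp only [LinearMap.neg_apply] at h4
      linarith
  have hmconst : ∀ w ∈ V, l w = c → m w = m a := by
    intro w hw hwc
    have : m (w - a) = 0 := by
      apply hmA'
      have := vsub_mem_vectorSpan ℝ (s := {w ∈ V | l w = c}) (p₁ := w) (p₂ := a) ⟨hw, hwc⟩ ⟨ha, hac⟩
      simpa using this
    rw [map_sub] at this
    linarith
  -- the rotation parameter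
  have hWfin : {w ∈ V | m a < m w}.Finite := hV.subset (fun w hw => hw.1)
  obtain ⟨w1, hw1, hmin⟩ := exists_min_image {w ∈ V | m a < m w}
    (fun w => (c - l w) / (m w - m a)) hWfin ⟨w0, hw0, hw0m⟩
  set t := (c - l w1) / (m w1 - m a) with ht
  have hden : 0 < m w1 - m a := by
    have := hw1.2
    linarith
  have hw1c : l w1 < c := by
    refine lt_of_le_of_ne (hl w1 hw1.1) ?_
    intro h
    have := hmconst w1 hw1.1 h
    linarith
  have htpos : 0 < t := div_pos (by linarith) hden
  have htw1 : t * (m w1 - m a) = c - l w1 := by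
    rw [ht]
    field_simp
  refine ⟨l + t • m, c + t * m a, ?_, ?_, ?_, ?_⟩
  · intro w hw
    simp only [LinearMap.add_apply, LinearMap.smul_apply, smul_eq_mul]
    by_cases hmw : m a < m w
    · have h1 := hmin w ⟨hw, hmw⟩
      have h2 : 0 < m w - m a := by linarith
      have h3 : t * (m w - m a) ≤ c - l w := by
        have h4 := (le_div_iff₀ h2).1 h1
        exact h4
      nlinarith
    · push Not at hmw
      have := hl w hw
      nlinarith
  · intro w hw hwc
    simp only [LinearMap.add_apply, LinearMap.smul_apply, smul_eq_mul]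
    rw [hwc, hmconst w hw hwc]
  · simp only [LinearMap.add_apply, LinearMap.smul_apply, smul_eq_mul]
    rw [hmb]
    linarith
  · have hsub : {w ∈ V | l w = c} ⊆ {w ∈ V | (l + t • m) w = c + t * m a} := by
      rintro w ⟨hw, hwc⟩
      refine ⟨hw, ?_⟩
      simp only [LinearMap.add_apply, LinearMap.smul_apply, smul_eq_mul]
      rw [hwc, hmconst w hw hwc]
    have hlt : vectorSpan ℝ {w ∈ V | l w = c} <
        vectorSpan ℝ {w ∈ V | (l + t • m) w = c + t * m a} := by
      refine lt_of_le_of_ne (vectorSpan_mono ℝ hsub) ?_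
      intro heq
      have hmem : w1 - a ∈ vectorSpan ℝ {w ∈ V | (l + t • m) w = c + t * m a} := by
        have h1 : w1 ∈ {w ∈ V | (l + t • m) w = c + t * m a} := by
          refine ⟨hw1.1, ?_⟩
          simp only [LinearMap.add_apply, LinearMap.smul_apply, smul_eq_mul]
          nlinarith
        have := vsub_mem_vectorSpan ℝ h1 (hsub ⟨ha, hac⟩)
        simpa using this
      rw [← heq] at hmem
      have := span_ker hmem
      rw [LinearMap.mem_ker, map_sub] at this
      linarith
    exact Submodule.finrank_lt_finrank_of_lt hlt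

lemma finrank_lt_of_exposed {V : Set E} {l : E →ₗ[ℝ] ℝ} {c : ℝ} (hne : ∃ a ∈ V, l a = c)
    {b : E} (hb : b ∈ V) (hbc : l b < c) :
    finrank ℝ (vectorSpan ℝ {w ∈ V | l w = c}) < finrank ℝ (vectorSpan ℝ V) := by
  obtain ⟨a, ha, hac⟩ := hne
  have hle : vectorSpan ℝ {w ∈ V | l w = c} ≤ vectorSpan ℝ V :=
    vectorSpan_mono ℝ (fun w hw => hw.1)
  have hlt' : vectorSpan ℝ {w ∈ V | l w = c} < vectorSpan ℝ V := by
    refine lt_of_le_of_ne hle ?_
    intro heq
    have hmem : b - a ∈ vectorSpan ℝ V := by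
      have := vsub_mem_vectorSpan ℝ hb ha
      simpa using this
    rw [← heq] at hmem
    have := span_ker hmem
    rw [LinearMap.mem_ker, map_sub] at this
    linarith
  exact Submodule.finrank_lt_finrank_of_lt hlt'

/-- Every proper exposed face lies in a facet that avoids a given generator off the face. -/
lemma exists_facet (V : Set E) (hV : V.Finite) (b : E) (hb : b ∈ V) (n : ℕ) :
    ∀ (l : E →ₗ[ℝ] ℝ) (c : ℝ), (∀ w ∈ V, l w ≤ c) → (∃ a ∈ V, l a = c) → l b < c →
    finrank ℝ (vectorSpan ℝ V) ≤ finrank ℝ (vectorSpan ℝ {w ∈ V | l w = c}) + n →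
    ∃ (l' : E →ₗ[ℝ] ℝ) (c' : ℝ), (∀ w ∈ V, l' w ≤ c') ∧ (∀ w ∈ V, l w = c → l' w = c') ∧
      l' b < c' ∧
      finrank ℝ (vectorSpan ℝ {w ∈ V | l' w = c'}) + 1 = finrank ℝ (vectorSpan ℝ V) := by
  induction n with
  | zero =>
    intro l c hl hne hlt hn
    have := finrank_lt_of_exposed hne hb hlt
    omega
  | succ n ih =>
    intro l c hl hne hlt hn
    by_cases hdim : finrank ℝ (vectorSpan ℝ {w ∈ V | l w = c}) + 2 ≤ finrank ℝ (vectorSpan ℝ V)
    · obtain ⟨l1, c1, h1, h2, h3, h4⟩ := rotate V hV l c hl hne b hb hlt hdim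
      obtain ⟨a, ha, hac⟩ := hne
      obtain ⟨l2, c2, g1, g2, g3, g4⟩ := ih l1 c1 h1 ⟨a, ha, h2 a ha hac⟩ h3 (by omega)
      exact ⟨l2, c2, g1, fun w hw hwc => g2 w hw (h2 w hw hwc), g3, g4⟩
    · refine ⟨l, c, hl, fun w _ h => h, hlt, ?_⟩
      have := finrank_lt_of_exposed hne hb hlt
      omega

/-- A point of a convex set that is in its relative interior. -/
lemma exists_relint {G : Set E} (hG : Convex ℝ G) (hne : G.Nonempty) :
    ∃ x0 ∈ G, ∀ u ∈ vectorSpan ℝ G, ∃ ε : ℝ, 0 < ε ∧ x0 + ε • u ∈ G := by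
  obtain ⟨x0, hx0⟩ := hne.intrinsicInterior hG
  refine ⟨x0, intrinsicInterior_subset hx0, ?_⟩
  intro u hu
  rw [mem_intrinsicInterior] at hx0
  obtain ⟨y, hy, rfl⟩ := hx0
  have hmem : ∀ t : ℝ, (y : E) + t • u ∈ affineSpan ℝ G := by
    intro t
    have h1 : t • u ∈ (affineSpan ℝ G).direction := by
      rw [direction_affineSpan]
      exact Submodule.smul_mem _ _ hu
    have h2 := AffineSubspace.vadd_mem_of_mem_direction h1 y.2
    rw [vadd_eq_add, add_comm] at h2
    exact h2
  let f : ℝ → affineSpan ℝ G := fun t => ⟨(y : E) + t • u, hmem t⟩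
  have hf : Continuous f := by
    apply Continuous.subtype_mk
    fun_prop
  have hf0 : f 0 = y := by
    apply Subtype.ext
    simp [f]
  have hnhds : (((↑) ⁻¹' G : Set (affineSpan ℝ G))) ∈ nhds (f 0) := by
    rw [hf0]
    exact mem_interior_iff_mem_nhds.1 hy
  have hev := hf.continuousAt.preimage_mem_nhds hnhds
  rw [Metric.mem_nhds_iff] at hev
  obtain ⟨ε, hε, hball⟩ := hev
  refine ⟨ε / 2, by positivity, ?_⟩
  have : (ε / 2) ∈ Metric.ball (0 : ℝ) ε := by
    rw [Metric.mem_ball, dist_zero_right, Real.norm_eq_abs, abs_of_pos (by positivity)]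
    linarith
  exact hball this

/-- Every face of a polytope is exposed. -/
lemma face_exposed (V : Set E) (hV : V.Finite) {G : Set E} (hG : IsFace (convexHull ℝ V) G) :
    ∃ (l : E →ₗ[ℝ] ℝ) (c : ℝ), (∀ x ∈ G, l x = c) ∧ ∀ w ∈ V, w ∉ G → l w < c := by
  obtain ⟨hne, hconv, hext⟩ := hG
  obtain ⟨x0, hx0, hrel⟩ := exists_relint hconv hne
  have hdisj : Disjoint (convexHull ℝ (V \ G)) (affineSpan ℝ G : Set E) := by
    rw [Set.disjoint_left]
    intro y hy hyG
    have hyP : y ∈ convexHull ℝ V := convexHull_mono sdiff_subset hy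
    have hyG' : y ∈ G := by
      have hu : x0 - y ∈ vectorSpan ℝ G := by
        have h1 := AffineSubspace.vsub_mem_direction (mem_affineSpan ℝ hx0) hyG
        rw [direction_affineSpan] at h1
        exact h1
      obtain ⟨ε, hε, hεG⟩ := hrel _ hu
      refine hext.left_mem_of_mem_openSegment hyP (hext.subset hεG) hx0 ?_
      refine ⟨ε / (1 + ε), 1 / (1 + ε), by positivity, by positivity, by field_simp; ring, ?_⟩
      have h1 : (1 + ε) ≠ 0 := by positivity
      have h2 : (1 + ε) • ((ε / (1 + ε)) • y + (1 / (1 + ε)) • (x0 + ε • (x0 - y))) =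
          (1 + ε) • x0 := by
        rw [smul_add, smul_smul, smul_smul, mul_div_cancel₀ _ h1, mul_div_cancel₀ _ h1, one_smul,
          smul_sub, add_smul, one_smul]
        abel
      exact smul_right_injective E h1 h2
    -- y is a combination of generators off G
    have hconv2 : Convex ℝ (convexHull ℝ V \ G) := hext.convex_sdiff (convex_convexHull ℝ V)
    have hsub : convexHull ℝ (V \ G) ⊆ convexHull ℝ V \ G :=
      convexHull_min (fun w hw => ⟨subset_convexHull ℝ _ hw.1, hw.2⟩) hconv2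
    exact (hsub hy).2 hyG'
  have hfin : (V \ G).Finite := hV.subset sdiff_subset
  obtain ⟨f, s, t, h1, h2, h3⟩ := geometric_hahn_banach_compact_closed
    (convex_convexHull ℝ (V \ G)) (hfin.isCompact_convexHull ℝ) (affineSpan ℝ G).convex
    (affineSpan ℝ G).closed_of_finiteDimensional hdisj
  have hconst : ∀ x ∈ G, f x = f x0 := by
    intro x hx
    have hdir : ∀ r : ℝ, t < f x0 + r * (f x - f x0) := by
      intro r
      have h4 : x0 + r • (x - x0) ∈ affineSpan ℝ G := by
        have h5 : r • (x - x0) ∈ (affineSpan ℝ G).direction := by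
          apply Submodule.smul_mem
          exact AffineSubspace.vsub_mem_direction (mem_affineSpan ℝ hx) (mem_affineSpan ℝ hx0)
        have h6 := AffineSubspace.vadd_mem_of_mem_direction h5 (mem_affineSpan ℝ hx0)
        rw [vadd_eq_add, add_comm] at h6
        exact h6
      have h7 := h3 _ h4
      simpa using h7
    by_contra hne'
    have hd : f x - f x0 ≠ 0 := sub_ne_zero.2 hne'
    have h8 := hdir ((t - f x0) / (f x - f x0))
    rw [div_mul_cancel₀ _ hd] at h8
    linarith
  refine ⟨(f : E →ₗ[ℝ] ℝ), f x0, fun x hx => hconst x hx, ?_⟩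
  intro w hw hwG
  have h4 := h1 w (subset_convexHull ℝ _ ⟨hw, hwG⟩)
  have h5 := h3 x0 (mem_affineSpan ℝ hx0)
  change f w < f x0
  linarith

/-- A face of a polytope lies in a facet that avoids a given generator off the face. -/
lemma facet_avoid (V : Set E) (hV : V.Finite) {G : Set E} (hG : IsFace (convexHull ℝ V) G)
    {v : E} (hv : v ∈ V) (hvG : v ∉ G) :
    ∃ R, IsFace (convexHull ℝ V) R ∧ G ⊆ R ∧ v ∉ R ∧ dimOf R + 1 = dimOf (convexHull ℝ V) := by
  obtain ⟨l, c, h1, h2⟩ := face_exposed V hV hG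
  have hGV := extreme_eq_hull V G hG.2.1 hG.2.2
  have hne : (V ∩ G).Nonempty := by
    have h := hG.1
    rw [hGV] at h
    exact convexHull_nonempty_iff.1 h
  have hle : ∀ w ∈ V, l w ≤ c := by
    intro w hw
    by_cases hwG : w ∈ G
    · exact (h1 w hwG).le
    · exact (h2 w hw hwG).le
  obtain ⟨a, haV, haG⟩ := hne
  obtain ⟨l', c', g1, g2, g3, g4⟩ := exists_facet V hV v hv (finrank ℝ (vectorSpan ℝ V)) l c hle
    ⟨a, haV, h1 a haG⟩ (h2 v hv hvG) (by omega)
  refine ⟨_, exposed_face V l' c' g1 ⟨a, haV, g2 a haV (h1 a haG)⟩, ?_, ?_, ?_⟩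
  · conv_lhs => rw [hGV]
    apply convexHull_mono
    rintro w ⟨hw, hwG⟩
    exact ⟨hw, g2 w hw (h1 w hwG)⟩
  · intro hvR
    have hsub : convexHull ℝ {w ∈ V | l' w = c'} ⊆ {x | l' x = c'} :=
      convexHull_min (fun w hw => hw.2) (convex_hyperplane l'.isLinear c')
    have h := hsub hvR
    simp only [mem_ofPred_eq] at h
    linarith
  · rw [dimOf, dimOf, vectorSpan_hull, vectorSpan_hull]
    exact g4

/-- The convex hull of a finite set. -/
def IsHull (P : Set E) : Prop := ∃ V : Set E, V.Finite ∧ P = convexHull ℝ V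

omit [FiniteDimensional ℝ E] in
lemma IsFace.of_subset {P G R : Set E} (hG : IsFace P G) (hR : IsFace P R) (h : G ⊆ R) :
    IsFace R G := ⟨hG.1, hG.2.1, hG.2.2.mono hR.2.2.subset h⟩

omit [FiniteDimensional ℝ E] in
lemma IsFace.subset {P G : Set E} (hG : IsFace P G) : G ⊆ P := hG.2.2.subset

omit [FiniteDimensional ℝ E] in
lemma IsFace.inter {P G R : Set E} (hG : IsFace P G) (hR : IsFace P R) (h : (G ∩ R).Nonempty) :
    IsFace P (G ∩ R) := ⟨h, hG.2.1.inter hR.2.1, hG.2.2.inter hR.2.2⟩

omit [FiniteDimensional ℝ E] in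
lemma IsHull.self_face {P : Set E} (hP : IsHull P) (hne : P.Nonempty) : IsFace P P := by
  obtain ⟨V, hV, rfl⟩ := hP
  exact ⟨hne, convex_convexHull ℝ V, IsExtreme.rfl⟩

omit [FiniteDimensional ℝ E] in
lemma IsHull.face {P F : Set E} (hP : IsHull P) (hF : IsFace P F) : IsHull F := by
  obtain ⟨V, hV, rfl⟩ := hP
  exact ⟨V ∩ F, hV.subset inter_subset_left, extreme_eq_hull V F hF.2.1 hF.2.2⟩

lemma dim_mono {F G : Set E} (h : F ⊆ G) : dimOf F ≤ dimOf G :=
  Submodule.finrank_mono (vectorSpan_mono ℝ h)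

/-- If the face `K` is not inside the face `G`, some facet contains `G` but not `K`. -/
lemma IsHull.facet {P G K : Set E} (hP : IsHull P) (hG : IsFace P G) (hK : IsFace P K)
    (h : ¬ K ⊆ G) : ∃ R, IsFace P R ∧ G ⊆ R ∧ ¬ K ⊆ R ∧ dimOf R + 1 = dimOf P := by
  obtain ⟨V, hV, rfl⟩ := hP
  have hKV := extreme_eq_hull V K hK.2.1 hK.2.2
  obtain ⟨v, hv, hvK, hvG⟩ : ∃ v ∈ V, v ∈ K ∧ v ∉ G := by
    by_contra hcon
    push Not at hcon
    apply h
    rw [hKV]
    exact convexHull_min (fun w hw => hcon w hw.1 hw.2) hG.2.1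
  obtain ⟨R, h1, h2, h3, h4⟩ := facet_avoid V hV hG hv hvG
  exact ⟨R, h1, h2, fun h5 => h3 (h5 hvK), h4⟩

lemma IsHull.dim_lt {P G : Set E} (hP : IsHull P) (hG : IsFace P G) (h : G ≠ P) :
    dimOf G < dimOf P := by
  have hPf : IsFace P P := hP.self_face (hG.1.mono hG.subset)
  obtain ⟨R, h1, h2, h3, h4⟩ := hP.facet hG hPf (fun h5 => h (hG.subset.antisymm h5))
  have := dim_mono h2
  omega

lemma IsHull.face_eq {P G K : Set E} (hP : IsHull P) (hG : IsFace P G) (hK : IsFace P K)
    (h : G ⊆ K) (hd : dimOf K ≤ dimOf G) : G = K := by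
  by_contra hne
  have := (hP.face hK).dim_lt (hG.of_subset hK h) hne
  omega

/-- Faces of all dimensions between a face and the polytope. -/
lemma IsHull.exists_between (j n : ℕ) : ∀ {P G : Set E}, IsHull P → IsFace P G →
    dimOf G ≤ j → j ≤ dimOf P → dimOf P ≤ j + n →
    ∃ H, IsFace P H ∧ G ⊆ H ∧ dimOf H = j := by
  induction n with
  | zero =>
    intro P G hP hG h1 h2 h3
    exact ⟨P, hP.self_face (hG.1.mono hG.subset), hG.subset, by omega⟩
  | succ n ih =>
    intro P G hP hG h1 h2 h3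
    by_cases h4 : dimOf P ≤ j + n
    · exact ih hP hG h1 h2 h4
    have hne : ¬ P ⊆ G := by
      intro h5
      have := dim_mono h5
      omega
    have hPf : IsFace P P := hP.self_face (hG.1.mono hG.subset)
    obtain ⟨R, g1, g2, g3, g4⟩ := hP.facet hG hPf hne
    obtain ⟨H, k1, k2, k3⟩ := ih (hP.face g1) (hG.of_subset g1 g2) h1 (by omega) (by omega)
    exact ⟨H, g1.trans k1, k2, k3⟩

/-- A face one dimension up from `G` that is not inside the proper face `K`. -/
lemma IsHull.exists_up (n : ℕ) : ∀ {P G K : Set E}, IsHull P → IsFace P G → IsFace P K →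
    G ⊆ K → K ≠ P → dimOf P ≤ dimOf G + n →
    ∃ H, IsFace P H ∧ G ⊆ H ∧ ¬ H ⊆ K ∧ dimOf H = dimOf G + 1 := by
  induction n with
  | zero =>
    intro P G K hP hG hK hGK hKP h1
    have := hP.dim_lt hK hKP
    have := dim_mono hGK
    omega
  | succ n ih =>
    intro P G K hP hG hK hGK hKP h1
    have hPf : IsFace P P := hP.self_face (hG.1.mono hG.subset)
    by_cases h2 : dimOf P ≤ dimOf G + n
    · exact ih hP hG hK hGK hKP h2
    by_cases h3 : n = 0
    · refine ⟨P, hPf, hG.subset, fun h => hKP (hK.subset.antisymm h), by omega⟩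
    -- a facet R1 containing K
    obtain ⟨R1, a1, a2, a3, a4⟩ := hP.facet hK hPf (fun h => hKP (hK.subset.antisymm h))
    have hR1G : ¬ R1 ⊆ G := by
      intro h
      have := dim_mono h
      omega
    -- a facet R2 containing G, not containing R1
    obtain ⟨R2, b1, b2, b3, b4⟩ := hP.facet hG a1 hR1G
    have hR2K : ¬ R2 ⊆ K := by
      intro h
      have h4 : R2 ⊆ R1 := h.trans a2
      have h5 := hP.face_eq b1 a1 h4 (by omega)
      exact b3 h5.symm.subset
    have hne : (K ∩ R2).Nonempty := hG.1.mono (subset_inter hGK b2)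
    have hKR : IsFace R2 (K ∩ R2) := (hK.inter b1 hne).of_subset b1 inter_subset_right
    obtain ⟨H, c1, c2, c3, c4⟩ := ih (hP.face b1) (hG.of_subset b1 b2) hKR
      (subset_inter hGK b2) (fun h => hR2K (inter_eq_right.1 h)) (by omega)
    refine ⟨H, b1.trans c1, c2, fun h => c3 (subset_inter h c1.subset), c4⟩

/-- Every face of a polytope is the set where a bounded linear functional is largest. -/
lemma IsHull.exposed {P G : Set E} (hP : IsHull P) (hG : IsFace P G) :
    ∃ (l : E →ₗ[ℝ] ℝ) (c : ℝ), (∀ x ∈ P, l x ≤ c) ∧ ∀ x ∈ P, (l x = c ↔ x ∈ G) := by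
  obtain ⟨V, hV, rfl⟩ := hP
  obtain ⟨l, c, h1, h2⟩ := face_exposed V hV hG
  have hle : ∀ w ∈ V, l w ≤ c := by
    intro w hw
    by_cases hwG : w ∈ G
    · exact (h1 w hwG).le
    · exact (h2 w hw hwG).le
  have hleP : ∀ x ∈ convexHull ℝ V, l x ≤ c := by
    intro x hx
    exact convexHull_min (s := V) (t := {x : E | l x ≤ c}) hle
      (convex_halfSpace_le l.isLinear c) hx
  refine ⟨l, c, hleP, fun x hx => ⟨fun hxc => ?_, fun hxG => h1 x hxG⟩⟩
  have hconv : Convex ℝ ({y ∈ convexHull ℝ V | l y < c} ∪ G) := by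
    rw [convex_iff_openSegment_subset]
    intro y hy z hz w hw
    have hyP : y ∈ convexHull ℝ V := by
      rcases hy with hy | hy
      · exact hy.1
      · exact hG.2.2.subset hy
    have hzP : z ∈ convexHull ℝ V := by
      rcases hz with hz | hz
      · exact hz.1
      · exact hG.2.2.subset hz
    have hwP : w ∈ convexHull ℝ V :=
      (convex_convexHull ℝ V).openSegment_subset hyP hzP hw
    rcases hy with hy | hy
    · left
      refine ⟨hwP, ?_⟩
      obtain ⟨a, b, ha, hb, hab, rfl⟩ := hw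
      have h3 := hleP z hzP
      have h4 := hy.2
      simp only [map_add, map_smul, smul_eq_mul]
      have h5 := mul_pos ha (sub_pos.2 h4)
      have h6 := mul_nonneg hb.le (sub_nonneg.2 h3)
      have h7 : (a + b) * c = c := by rw [hab, one_mul]
      linarith [mul_sub a c (l y), mul_sub b c (l z), add_mul a b c]
    · rcases hz with hz | hz
      · left
        refine ⟨hwP, ?_⟩
        obtain ⟨a, b, ha, hb, hab, rfl⟩ := hw
        have h3 := hleP y hyP
        have h4 := hz.2
        simp only [map_add, map_smul, smul_eq_mul]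
        have h5 := mul_nonneg ha.le (sub_nonneg.2 h3)
        have h6 := mul_pos hb (sub_pos.2 h4)
        have h7 : (a + b) * c = c := by rw [hab, one_mul]
        linarith [mul_sub a c (l y), mul_sub b c (l z), add_mul a b c]
      · right
        exact hG.2.1.openSegment_subset hy hz hw
  have hsub : V ⊆ {y ∈ convexHull ℝ V | l y < c} ∪ G := by
    intro w hw
    by_cases hwG : w ∈ G
    · exact Or.inr hwG
    · exact Or.inl ⟨subset_convexHull ℝ _ hw, h2 w hw hwG⟩
  rcases convexHull_min hsub hconv hx with h | h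
  · exact absurd hxc h.2.ne
  · exact h

omit [FiniteDimensional ℝ E] in
lemma IsHull.finite_faces {P : Set E} (hP : IsHull P) : {F | IsFace P F}.Finite := by
  obtain ⟨V, hV, rfl⟩ := hP
  have h : {F | IsFace (convexHull ℝ V) F} ⊆ (fun S => convexHull ℝ S) '' (𝒫 V) := by
    intro F hF
    exact ⟨V ∩ F, inter_subset_left, (extreme_eq_hull V F hF.2.1 hF.2.2).symm⟩
  exact (hV.finite_subsets.image _).subset h

omit [FiniteDimensional ℝ E] in
lemma IsHull.finite_ext {P : Set E} (hP : IsHull P) : (P.extremePoints ℝ).Finite := by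
  obtain ⟨V, hV, rfl⟩ := hP
  exact hV.subset extremePoints_convexHull_subset

omit [FiniteDimensional ℝ E] in
lemma IsHull.hull_ext {P : Set E} (hP : IsHull P) : P = convexHull ℝ (P.extremePoints ℝ) := by
  have hfin := hP.finite_ext
  obtain ⟨V, hV, rfl⟩ := hP
  have h := closure_convexHull_extremePoints (hV.isCompact_convexHull ℝ) (convex_convexHull ℝ V)
  rw [(hfin.isCompact_convexHull ℝ).isClosed.closure_eq] at h
  exact h.symm

omit [FiniteDimensional ℝ E] in
lemma vertex_face {P : Set E} {v : E} (hv : v ∈ P.extremePoints ℝ) : IsFace P {v} :=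
  ⟨singleton_nonempty v, convex_singleton v, isExtreme_singleton.2 hv⟩

omit [FiniteDimensional ℝ E] in
lemma dim_singleton (v : E) : dimOf ({v} : Set E) = 0 := by
  rw [dimOf, vectorSpan_singleton]
  simp

/-- A face of dimension zero is a vertex. -/
lemma zero_face {P F : Set E} (hF : IsFace P F) (h0 : dimOf F = 0) :
    ∃ t ∈ P.extremePoints ℝ, F = {t} := by
  obtain ⟨t, ht⟩ := hF.1
  have hbot : vectorSpan ℝ F = ⊥ := Submodule.finrank_eq_zero.1 h0
  have hFt : F = {t} := by
    apply Subset.antisymm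
    · intro x hx
      have h1 := vsub_mem_vectorSpan ℝ hx ht
      rw [hbot, Submodule.mem_bot, vsub_eq_sub, sub_eq_zero] at h1
      exact h1
    · exact singleton_subset_iff.2 ht
  refine ⟨t, ?_, hFt⟩
  have h2 := hF.2.2
  rw [hFt] at h2
  exact h2.mem_extremePoints

end Faces

section Symmetry

variable {E : Type*} [NormedAddCommGroup E] [NormedSpace ℝ E]

/-- Some symmetry of `P` carries the set `F` to the set `F'`. -/
def SameOrbit (P F F' : Set E) : Prop := ∃ g : E ≃ᵢ E, g '' P = P ∧ g '' F = F'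

omit [NormedSpace ℝ E] in
lemma SameOrbit.refl (P F : Set E) : SameOrbit P F F :=
  ⟨IsometryEquiv.refl _, image_id P, image_id F⟩

omit [NormedSpace ℝ E] in
lemma symm_image {P Q : Set E} {g : E ≃ᵢ E} (hg : g '' P = Q) : g.symm '' Q = P := by
  rw [← hg, ← image_comp]
  have : (g.symm ∘ g : E → E) = id := by
    funext x
    simp
  rw [this, image_id]

omit [NormedSpace ℝ E] in
lemma SameOrbit.symm {P F F' : Set E} (h : SameOrbit P F F') : SameOrbit P F' F := by
  obtain ⟨g, hg, hF⟩ := h
  exact ⟨g.symm, symm_image hg, symm_image hF⟩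

omit [NormedSpace ℝ E] in
lemma SameOrbit.trans {P F F' F'' : Set E} (h : SameOrbit P F F') (h' : SameOrbit P F' F'') :
    SameOrbit P F F'' := by
  obtain ⟨g, hg, rfl⟩ := h
  obtain ⟨g', hg', rfl⟩ := h'
  have h : (g.trans g' : E → E) = g' ∘ g := rfl
  exact ⟨g.trans g', by rw [h, image_comp, hg, hg'], by rw [h, image_comp]⟩

lemma image_seg (g : E ≃ᵢ E) (y z : E) :
    g '' openSegment ℝ y z = openSegment ℝ (g y) (g z) := by
  have h := image_openSegment ℝ (g.toRealAffineIsometryEquiv.toAffineEquiv.toAffineMap) y z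
  simpa [IsometryEquiv.coeFn_toRealAffineIsometryEquiv] using h

lemma IsFace.map {P F : Set E} {g : E ≃ᵢ E} (hg : g '' P = P) (hF : IsFace P F) :
    IsFace P (g '' F) := by
  refine ⟨hF.1.image g, ?_, ?_, ?_⟩
  · have h := hF.2.1.affine_image (g.toRealAffineIsometryEquiv.toAffineEquiv.toAffineMap)
    simpa [IsometryEquiv.coeFn_toRealAffineIsometryEquiv] using h
  · rw [← hg]
    exact image_mono hF.subset
  · intro y hy z hz x hx hseg
    rw [← hg] at hy hz
    obtain ⟨y', hy', rfl⟩ := hy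
    obtain ⟨z', hz', rfl⟩ := hz
    obtain ⟨x', hx', rfl⟩ := hx
    rw [← image_seg] at hseg
    obtain ⟨x'', hx'', h⟩ := hseg
    have := g.injective h
    subst this
    exact mem_image_of_mem g (hF.2.2.left_mem_of_mem_openSegment hy' hz' hx' hx'')

lemma dim_map (g : E ≃ᵢ E) (F : Set E) : dimOf (g '' F) = dimOf F := by
  have h := AffineMap.map_vectorSpan (k := ℝ)
    (g.toRealAffineIsometryEquiv.toAffineEquiv.toAffineMap) (s := F)
  have h2 : (g.toRealAffineIsometryEquiv.toAffineEquiv.toAffineMap) '' F = g '' F := by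
    simp [IsometryEquiv.coeFn_toRealAffineIsometryEquiv]
  rw [h2] at h
  rw [dimOf, dimOf, ← h]
  exact LinearEquiv.finrank_map_eq (g.toRealAffineIsometryEquiv.toAffineEquiv.linear) _

end Symmetry

end Pool.Agent.Lib.MP_103b79_co
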