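import Mathlib
import Pool.Agent.Lib.MP_103b79_co.Faces

open Set Module

namespace Pool.Agent.Lib.MP_103b79_co

variable {E : Type*} [NormedAddCommGroup E] [NormedSpace ℝ E] [FiniteDimensional ℝ E]

/-- The induction behind `IsHull.improve`. -/
theorem IsHull.improve_aux (n : ℕ) : ∀ {P G0 : Set E}, IsHull P → IsFace P G0 → dimOf P ≤ n →
    ∀ (c : E →ₗ[ℝ] ℝ) (γ : ℝ), (∀ x ∈ G0, c x = γ) → (∃ x ∈ P, γ < c x) →
    ∃ R, IsFace P R ∧ G0 ⊆ R ∧ dimOf R = dimOf G0 + 1 ∧ ∃ x ∈ R, γ < c x := by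
  induction n with
  | zero =>
    intro P G0 hP hG hn c γ hc h
    obtain ⟨x, hx, hxc⟩ := h
    have hne : G0 ≠ P := by
      rintro rfl
      exact absurd (hc x hx) hxc.ne'
    have := hP.dim_lt hG hne
    omega
  | succ n ih =>
    intro P G0 hP hG hn c γ hc h
    have hP' := hP
    obtain ⟨l, l0, hl1, hl2⟩ := hP.exposed hG
    obtain ⟨V, hV, hPV⟩ := hP
    have hVP : V ⊆ P := by
      rw [hPV]
      exact subset_convexHull ℝ V
    -- a generator where `c` is larger than `γ`
    obtain ⟨v0, hv0, hv0c⟩ : ∃ v ∈ V, γ < c v := by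
      by_contra hcon
      push Not at hcon
      obtain ⟨x, hx, hxc⟩ := h
      rw [hPV] at hx
      have h1 : x ∈ {y : E | c y ≤ γ} :=
        convexHull_min (s := V) (t := {y : E | c y ≤ γ}) hcon (convex_halfSpace_le c.isLinear γ) hx
      exact absurd h1 (not_le.2 hxc)
    have hoff : ∀ v ∈ V, v ∉ G0 → 0 < l0 - l v := by
      intro v hv hvG
      have h1 := hl1 v (hVP hv)
      have h2 : l v ≠ l0 := fun h3 => hvG ((hl2 v (hVP hv)).1 h3)
      have h3 := lt_of_le_of_ne h1 h2
      linarith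
    have hv0G : v0 ∉ G0 := fun h1 => absurd (hc v0 h1) hv0c.ne'
    obtain ⟨v1, hv1, hmax⟩ := exists_max_image (V \ G0) (fun v => (c v - γ) / (l0 - l v))
      (hV.subset sdiff_subset) ⟨v0, hv0, hv0G⟩
    set t : ℝ := (c v1 - γ) / (l0 - l v1) with ht
    have hd1 : 0 < l0 - l v1 := hoff v1 hv1.1 hv1.2
    have ht0 : 0 < t := by
      have h1 : (c v0 - γ) / (l0 - l v0) ≤ t := hmax v0 ⟨hv0, hv0G⟩
      have h2 : 0 < (c v0 - γ) / (l0 - l v0) := div_pos (by linarith) (hoff v0 hv0 hv0G)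
      linarith
    have htv1 : t * (l0 - l v1) = c v1 - γ := by
      rw [ht, div_mul_cancel₀ _ hd1.ne']
    have hv1c : γ < c v1 := by
      have := mul_pos ht0 hd1
      linarith
    have hle : ∀ w ∈ V, (c + t • l) w ≤ γ + t * l0 := by
      intro w hw
      simp only [LinearMap.add_apply, LinearMap.smul_apply, smul_eq_mul]
      by_cases hwG : w ∈ G0
      · rw [hc w hwG, (hl2 w (hVP hw)).2 hwG]
      · have h1 : (c w - γ) / (l0 - l w) ≤ t := hmax w ⟨hw, hwG⟩
        rw [div_le_iff₀ (hoff w hw hwG)] at h1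
        linarith
    have hv1e : (c + t • l) v1 = γ + t * l0 := by
      simp only [LinearMap.add_apply, LinearMap.smul_apply, smul_eq_mul]
      linarith
    have hR1 := exposed_face V (c + t • l) (γ + t * l0) hle ⟨v1, hv1.1, hv1e⟩
    rw [← hPV] at hR1
    have hR1sub : ∀ x ∈ convexHull ℝ {w ∈ V | (c + t • l) w = γ + t * l0},
        c x + t * l x = γ + t * l0 := by
      intro x hx
      have h1 : x ∈ {y : E | (c + t • l) y = γ + t * l0} :=
        convexHull_min (fun w hw => hw.2) (convex_hyperplane (c + t • l).isLinear _) hx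
      simpa using h1
    have hv1R : v1 ∈ convexHull ℝ {w ∈ V | (c + t • l) w = γ + t * l0} :=
      subset_convexHull ℝ _ ⟨hv1.1, hv1e⟩
    have hGR : G0 ⊆ convexHull ℝ {w ∈ V | (c + t • l) w = γ + t * l0} := by
      have hG' : IsFace (convexHull ℝ V) G0 := by
        rw [← hPV]
        exact hG
      have hGV := extreme_eq_hull V G0 hG'.2.1 hG'.2.2
      conv_lhs => rw [hGV]
      apply convexHull_mono
      rintro w ⟨hw, hwG⟩
      refine ⟨hw, ?_⟩
      simp only [LinearMap.add_apply, LinearMap.smul_apply, smul_eq_mul]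
      rw [hc w hwG, (hl2 w (hVP hw)).2 hwG]
    by_cases hRP : convexHull ℝ {w ∈ V | (c + t • l) w = γ + t * l0} = P
    · have hne : G0 ≠ P := by
        rintro rfl
        exact hv1.2 (hVP hv1.1)
      have hlt := hP'.dim_lt hG hne
      obtain ⟨R, h1, h2, h3⟩ := IsHull.exists_between (dimOf G0 + 1) (dimOf P) hP' hG (by omega)
        (by omega) (by omega)
      have hRG : ¬ R ⊆ G0 := by
        intro h4
        have := dim_mono h4
        omega
      obtain ⟨y, hy, hyG⟩ := not_subset.1 hRG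
      have hyP : y ∈ P := h1.subset hy
      refine ⟨R, h1, h2, h3, y, hy, ?_⟩
      have h4 := hl1 y hyP
      have h5 : l y ≠ l0 := fun h6 => hyG ((hl2 y hyP).1 h6)
      have h6 : 0 < l0 - l y := by
        have := lt_of_le_of_ne h4 h5
        linarith
      have h7 := hR1sub y (by rw [hRP]; exact hyP)
      have h8 := mul_pos ht0 h6
      linarith
    · have hlt := hP'.dim_lt hR1 hRP
      obtain ⟨R, h1, h2, h3, h4⟩ := ih (hP'.face hR1) (hG.of_subset hR1 hGR) (by omega) c γ hc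
        ⟨v1, hv1R, hv1c⟩
      exact ⟨R, hR1.trans h1, h2, h3, h4⟩

/-- The simplex step at a face: if the functional `c`, constant on the face `G0`, is larger
somewhere on `P`, it is larger somewhere on a face one dimension up from `G0`. -/
theorem IsHull.improve {E : Type*} [NormedAddCommGroup E] [NormedSpace ℝ E] [FiniteDimensional ℝ E]
    {P G0 : Set E} (hP : IsHull P) (hG : IsFace P G0) (c : E →ₗ[ℝ] ℝ) (γ : ℝ)
    (hc : ∀ x ∈ G0, c x = γ) (h : ∃ x ∈ P, γ < c x) :
    ∃ R, IsFace P R ∧ G0 ⊆ R ∧ dimOf R = dimOf G0 + 1 ∧ ∃ x ∈ R, γ < c x :=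
  IsHull.improve_aux (dimOf P) hP hG le_rfl c γ hc h

end Pool.Agent.Lib.MP_103b79_co
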