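import Mathlib

open Set Module

namespace Pool.Agent.Lib.MP_103b79_co

universe u

variable {ι : Type*} [Finite ι]

omit [Finite ι] in
/-- A ray of the central arrangement of the hyperplanes `v j = 0`. -/
def IsRay {W : Type u} [AddCommGroup W] [Module ℝ W] (v : ι → Dual ℝ W) (p : W) : Prop :=
  p ≠ 0 ∧ ∀ y : W, (∀ j, v j p = 0 → v j y = 0) → ∃ a : ℝ, y = a • p

lemma exists_ray {W : Type u} [AddCommGroup W] [Module ℝ W] (v : ι → Dual ℝ W)
    (hess : ∀ x, (∀ j, v j x = 0) → x = 0) (j0 : ι) (n : ℕ) :
    ∀ x : W, v j0 x ≠ 0 → Nat.card ι ≤ {j | v j x = 0}.ncard + n →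
      ∃ p, IsRay v p ∧ v j0 p ≠ 0 := by
  induction n with
  | zero =>
    intro x hx hn
    exfalso
    have h1 : {j | v j x = 0} ⊂ univ := by
      rw [ssubset_univ_iff]
      intro h
      exact hx (by
        have : j0 ∈ {j | v j x = 0} := by
          rw [h]
          exact mem_univ _
        exact this)
    have h2 := ncard_lt_ncard h1
    rw [ncard_univ] at h2
    omega
  | succ n ih =>
    intro x hx hn
    by_cases hray : IsRay v x
    · exact ⟨x, hray, hx⟩
    have hx0 : x ≠ 0 := by
      rintro rfl
      exact hx (map_zero _)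
    obtain ⟨y, hy1, hy2⟩ : ∃ y : W, (∀ j, v j x = 0 → v j y = 0) ∧ ∀ a : ℝ, y ≠ a • x := by
      by_contra hcon
      push Not at hcon
      exact hray ⟨hx0, fun y hy => hcon y hy⟩
    set y' := y - (v j0 y / v j0 x) • x with hy'
    have h1 : v j0 y' = 0 := by
      rw [hy', map_sub, map_smul, smul_eq_mul, div_mul_cancel₀ _ hx, sub_self]
    have h2 : y' ≠ 0 := fun h => hy2 _ (sub_eq_zero.1 h)
    obtain ⟨j1, hj1⟩ : ∃ j1, v j1 y' ≠ 0 := by
      by_contra hcon
      push Not at hcon
      exact h2 (hess y' hcon)
    have h3 : ∀ j, v j x = 0 → v j y' = 0 := by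
      intro j hj
      rw [hy', map_sub, map_smul, hy1 j hj, hj]
      simp
    have hj1x : v j1 x ≠ 0 := fun h => hj1 (h3 j1 h)
    set q := x - (v j1 x / v j1 y') • y' with hq
    have h4 : v j0 q ≠ 0 := by
      rw [hq, map_sub, map_smul, h1, smul_zero, sub_zero]
      exact hx
    have h5 : {j | v j x = 0} ⊂ {j | v j q = 0} := by
      refine ⟨?_, ?_⟩
      · intro j hj
        have hj' : v j x = 0 := hj
        show v j q = 0
        rw [hq, map_sub, map_smul, h3 j hj', hj']
        simp
      · intro hsub
        have h6 : j1 ∈ {j | v j q = 0} := by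
          show v j1 q = 0
          rw [hq, map_sub, map_smul, smul_eq_mul, div_mul_cancel₀ _ hj1, sub_self]
        exact hj1x (hsub h6)
    have h6 := ncard_lt_ncard h5
    exact ih q h4 (by omega)

omit [Finite ι] in
/-- Two rays on the same hyperplanes are proportional. -/
lemma IsRay.prop {W : Type u} [AddCommGroup W] [Module ℝ W] {v : ι → Dual ℝ W} {p q : W}
    (hp : IsRay v p) (hq : IsRay v q) (h : {j | v j p = 0} = {j | v j q = 0}) :
    ∃ a : ℝ, a ≠ 0 ∧ q = a • p := by
  obtain ⟨a, ha⟩ := hp.2 q (fun j hj => by
    have : j ∈ {j | v j q = 0} := h ▸ hj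
    exact this)
  refine ⟨a, ?_, ha⟩
  rintro rfl
  exact hq.1 (by rw [ha, zero_smul])

/-- A functional that vanishes on no ray. -/
lemma exists_generic {W : Type u} [AddCommGroup W] [Module ℝ W] [FiniteDimensional ℝ W]
    (v : ι → Dual ℝ W) : ∃ w : Dual ℝ W, ∀ p, IsRay v p → w p ≠ 0 := by
  classical
  let K := {J : Set ι // ∃ p, IsRay v p ∧ {j | v j p = 0} = J}
  have : Finite K := Subtype.finite
  let r : K → W := fun J => J.2.choose
  have hr : ∀ J : K, IsRay v (r J) ∧ {j | v j (r J) = 0} = J.1 := fun J => J.2.choose_spec
  obtain ⟨w, hw⟩ := Module.exists_dual_forall_apply_ne_zero (K := ℝ) r (fun J => (hr J).1.1)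
  refine ⟨w, fun p hp => ?_⟩
  let J : K := ⟨{j | v j p = 0}, p, hp, rfl⟩
  obtain ⟨a, ha, hpa⟩ := (hr J).1.prop hp (hr J).2
  rw [hpa, map_smul, smul_eq_mul]
  exact mul_ne_zero ha (hw J)

/-- Shannon's theorem: an essential central arrangement has a simplicial chamber. -/
theorem exists_chamber (m : ℕ) : ∀ {W : Type u} [AddCommGroup W] [Module ℝ W]
    [FiniteDimensional ℝ W] (_ : finrank ℝ W = m) (v : ι → Dual ℝ W)
    (_ : ∀ x, (∀ j, v j x = 0) → x = 0) (w : Dual ℝ W) (_ : ∀ p, IsRay v p → w p ≠ 0),
    ∃ r : Fin m → W, (∀ i, IsRay v (r i)) ∧ (∀ i, 0 < w (r i)) ∧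
      (∀ j, (∀ i, 0 ≤ v j (r i)) ∨ (∀ i, v j (r i) ≤ 0)) ∧
      (∀ i, ∃ j, v j (r i) ≠ 0 ∧ ∀ l, l ≠ i → v j (r l) = 0) := by
  classical
  induction m with
  | zero =>
    intro W _ _ _ _ v _ w _
    exact ⟨Fin.elim0, fun i => i.elim0, fun i => i.elim0, fun j => Or.inl (fun i => i.elim0),
      fun i => i.elim0⟩
  | succ m ih =>
    intro W _ _ _ hdim v hess w hw
    -- a nonzero functional
    have : Nontrivial W := Module.nontrivial_of_finrank_pos (R := ℝ) (by omega)
    obtain ⟨x0, hx0⟩ := exists_ne (0 : W)
    obtain ⟨j0, hj0⟩ : ∃ j0, v j0 x0 ≠ 0 := by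
      by_contra hcon
      push Not at hcon
      exact hx0 (hess x0 hcon)
    -- the ray nearest to the hyperplane of j0
    let S : Set ℝ := {ρ | ∃ p, IsRay v p ∧ v j0 p ≠ 0 ∧ ρ = |v j0 p| / |w p|}
    have hSne : S.Nonempty := by
      obtain ⟨p, hp1, hp2⟩ := exists_ray v hess j0 (Nat.card ι) x0 hj0 (by omega)
      exact ⟨_, p, hp1, hp2, rfl⟩
    have hSfin : S.Finite := by
      let f : Set ι → ℝ := fun J => if h : ∃ p, IsRay v p ∧ {j | v j p = 0} = J then
        |v j0 h.choose| / |w h.choose| else 0
      apply (Set.finite_range f).subset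
      rintro ρ ⟨p, hp1, hp2, rfl⟩
      refine ⟨{j | v j p = 0}, ?_⟩
      have h : ∃ q, IsRay v q ∧ {j | v j q = 0} = {j | v j p = 0} := ⟨p, hp1, rfl⟩
      have hf : f {j | v j p = 0} = |v j0 h.choose| / |w h.choose| := by
        simp only [f]
        rw [dif_pos h]
      rw [hf]
      obtain ⟨a, ha, hpa⟩ := h.choose_spec.1.prop hp1 h.choose_spec.2
      have ha' : |a| ≠ 0 := abs_ne_zero.2 ha
      rw [show v j0 p = a * v j0 h.choose by
          conv_lhs => rw [hpa]
          rw [map_smul, smul_eq_mul],
        show w p = a * w h.choose by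
          conv_lhs => rw [hpa]
          rw [map_smul, smul_eq_mul], abs_mul, abs_mul, mul_div_mul_left _ _ ha']
    obtain ⟨ρ, ⟨p0, hp0r, hp0h, hρ⟩, hmin⟩ := exists_min_image S id hSfin hSne
    -- choose the sign of the ray
    obtain ⟨p, hp, hph, hpw, hpmin⟩ : ∃ p, IsRay v p ∧ v j0 p ≠ 0 ∧ 0 < w p ∧
        ∀ q, IsRay v q → v j0 q ≠ 0 → |v j0 p| / |w p| ≤ |v j0 q| / |w q| := by
      have hmin' : ∀ q, IsRay v q → v j0 q ≠ 0 → |v j0 p0| / |w p0| ≤ |v j0 q| / |w q| := by
        intro q hq1 hq2
        have := hmin _ ⟨q, hq1, hq2, rfl⟩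
        simp only [id] at this
        rw [hρ] at this
        exact this
      rcases lt_or_gt_of_ne (hw p0 hp0r) with h | h
      · refine ⟨-p0, ⟨neg_ne_zero.2 hp0r.1, ?_⟩, by simpa using hp0h, by simpa using h, ?_⟩
        · intro y hy
          obtain ⟨a, ha⟩ := hp0r.2 y (fun j hj => hy j (by rw [map_neg, hj, neg_zero]))
          exact ⟨-a, by rw [ha]; simp⟩
        · intro q hq1 hq2
          rw [map_neg, map_neg, abs_neg, abs_neg]
          exact hmin' q hq1 hq2
      · exact ⟨p0, hp0r, hp0h, h, hmin'⟩
    -- the hyperplane of j0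
    set H := LinearMap.ker (v j0) with hH
    have hHdim : finrank ℝ H = m := by
      have h1 := LinearMap.finrank_range_add_finrank_ker (v j0)
      have h2 : LinearMap.range (v j0) = ⊤ := by
        apply LinearMap.range_eq_top.2
        exact LinearMap.surjective_of_ne_zero (fun h => hph (by rw [h]; rfl))
      rw [h2, finrank_top, finrank_self] at h1
      rw [← hH] at h1
      omega
    let v' : ι → Dual ℝ H := fun j => if v j p = 0 then (v j).domRestrict H else 0
    have hv' : ∀ j, v j p = 0 → ∀ x : H, v' j x = v j (x : W) := by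
      intro j hj x
      simp only [v']
      rw [if_pos hj]
      rfl
    have hv'0 : ∀ j, v j p ≠ 0 → ∀ x : H, v' j x = 0 := by
      intro j hj x
      simp only [v']
      rw [if_neg hj]
      rfl
    have hess' : ∀ x : H, (∀ j, v' j x = 0) → x = 0 := by
      intro x hx
      obtain ⟨a, ha⟩ := hp.2 (x : W) (fun j hj => by rw [← hv' j hj]; exact hx j)
      have h1 : v j0 (x : W) = 0 := x.2
      rw [ha, map_smul, smul_eq_mul] at h1
      rcases mul_eq_zero.1 h1 with h2 | h2
      · apply Subtype.ext
        rw [ha, h2, zero_smul]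
        rfl
      · exact absurd h2 hph
    -- a ray of the restricted arrangement, seen from above
    have hray' : ∀ x : H, IsRay v' x → ∀ y : W, (∀ j, v j p = 0 → v j (x : W) = 0 → v j y = 0) →
        v j0 y = 0 → ∃ a : ℝ, y = a • (x : W) := by
      intro x hx y hy hy0
      obtain ⟨a, ha⟩ := hx.2 ⟨y, hy0⟩ (fun j hj => by
        by_cases hjp : v j p = 0
        · rw [hv' j hjp] at hj ⊢
          exact hy j hjp hj
        · exact hv'0 j hjp _)
      exact ⟨a, congrArg Subtype.val ha⟩
    have hrayW : ∀ x : H, IsRay v' x → IsRay v (x : W) := by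
      intro x hx
      refine ⟨fun h => hx.1 (Subtype.ext h), fun y hy => ?_⟩
      exact hray' x hx y (fun j _ hj => hy j hj) (hy j0 x.2)
    obtain ⟨r', h1, h2, h3, h4⟩ := ih hHdim v' hess' (w.domRestrict H)
      (fun x hx => hw _ (hrayW x hx))
    have hwr : ∀ i, 0 < w (r' i : W) := h2
    refine ⟨Fin.cons p (fun i => (r' i : W)), ?_, ?_, ?_, ?_⟩
    · intro i
      refine Fin.cases ?_ (fun i => ?_) i
      · exact hp
      · exact hrayW _ (h1 i)
    · intro i
      refine Fin.cases ?_ (fun i => ?_) i
      · exact hpw
      · exact hwr i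
    · intro j
      by_cases hj : v j p = 0
      · rcases h3 j with h | h
        · left
          intro i
          refine Fin.cases ?_ (fun i => ?_) i
          · exact hj.ge
          · have := h i
            rw [hv' j hj] at this
            exact this
        · right
          intro i
          refine Fin.cases ?_ (fun i => ?_) i
          · exact hj.le
          · have := h i
            rw [hv' j hj] at this
            exact this
      · -- no hyperplane off p separates
        have key : ∀ i, 0 ≤ v j (r' i : W) / v j p := by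
          intro i
          by_contra hneg
          push Not at hneg
          set s := - (v j p / v j (r' i : W)) with hs
          have hne : v j (r' i : W) ≠ 0 := by
            intro h
            rw [h, zero_div] at hneg
            exact lt_irrefl _ hneg
          have hspos : 0 < s := by
            rw [hs, neg_pos, ← inv_div]
            exact inv_lt_zero.2 hneg
          set q := p + s • (r' i : W) with hq
          have hjq : v j q = 0 := by
            rw [hq, map_add, map_smul, smul_eq_mul, hs, neg_mul, div_mul_cancel₀ _ hne,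
              add_neg_cancel]
          have hr0 : v j0 (r' i : W) = 0 := (r' i).2
          have hqray : IsRay v q := by
            refine ⟨?_, ?_⟩
            · intro h
              have h5 : v j0 q = v j0 p := by
                rw [hq, map_add, map_smul, hr0, smul_zero, add_zero]
              rw [h, map_zero] at h5
              exact hph h5.symm
            · intro y hy
              set y' := y - (v j0 y / v j0 p) • p with hy'
              have h5 : v j0 y' = 0 := by
                rw [hy', map_sub, map_smul, smul_eq_mul, div_mul_cancel₀ _ hph, sub_self]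
              obtain ⟨b, hb⟩ := hray' (r' i) (h1 i) y' (fun l hl hl' => by
                have h6 : v l q = 0 := by
                  rw [hq, map_add, map_smul, hl, hl', smul_zero, add_zero]
                rw [hy', map_sub, map_smul, hl, hy l h6, smul_zero, sub_zero]) h5
              have h7 : y = (v j0 y / v j0 p) • p + b • (r' i : W) := by
                rw [← hb, hy']
                abel
              have h8 := hy j hjq
              rw [h7, map_add, map_smul, map_smul, smul_eq_mul, smul_eq_mul] at h8
              refine ⟨v j0 y / v j0 p, ?_⟩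
              conv_lhs => rw [h7]
              rw [hq, smul_add, smul_smul]
              congr 2
              have h9 : b * v j (r' i : W) = -(v j0 y / v j0 p * v j p) := by linarith
              have h10 : b = -(v j0 y / v j0 p * v j p) / v j (r' i : W) :=
                eq_div_of_mul_eq hne h9
              rw [h10, hs]
              ring
          have h5 : v j0 q = v j0 p := by
            rw [hq, map_add, map_smul, hr0, smul_zero, add_zero]
          have h6 := hpmin q hqray (by rw [h5]; exact hph)
          have h7 : w q = w p + s * w (r' i : W) := by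
            rw [hq, map_add, map_smul, smul_eq_mul]
          have h8 : w p < w q := by
            rw [h7]
            have := mul_pos hspos (hwr i)
            linarith
          rw [h5, abs_of_pos hpw, abs_of_pos (hpw.trans h8)] at h6
          have h9 : 0 < |v j0 p| := abs_pos.2 hph
          have h10 := div_lt_div_of_pos_left h9 hpw h8
          linarith
        rcases lt_or_gt_of_ne hj with hlt | hgt
        · right
          intro i
          refine Fin.cases ?_ (fun i => ?_) i
          · exact hlt.le
          · have h5 := key i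
            have h6 : v j (r' i : W) = (v j (r' i : W) / v j p) * v j p := by
              rw [div_mul_cancel₀ _ hj]
            show v j (r' i : W) ≤ 0
            rw [h6]
            exact mul_nonpos_of_nonneg_of_nonpos h5 hlt.le
        · left
          intro i
          refine Fin.cases ?_ (fun i => ?_) i
          · exact hgt.le
          · have h5 := key i
            have h6 : v j (r' i : W) = (v j (r' i : W) / v j p) * v j p := by
              rw [div_mul_cancel₀ _ hj]
            show 0 ≤ v j (r' i : W)
            rw [h6]
            exact mul_nonneg h5 hgt.le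
    · intro i
      refine Fin.cases ?_ (fun i => ?_) i
      · refine ⟨j0, hph, ?_⟩
        intro l
        refine Fin.cases ?_ (fun l => ?_) l
        · intro h
          exact absurd rfl h
        · intro _
          exact (r' l).2
      · obtain ⟨j, hj1, hj2⟩ := h4 i
        have hjp : v j p = 0 := by
          by_contra h
          exact hj1 (hv'0 j h _)
        refine ⟨j, ?_, ?_⟩
        · rw [hv' j hjp] at hj1
          exact hj1
        · intro l
          refine Fin.cases ?_ (fun l => ?_) l
          · intro _
            exact hjp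
          · intro hl
            have h5 := hj2 l (fun h => hl (by rw [h]))
            rw [hv' j hjp] at h5
            exact h5

end Pool.Agent.Lib.MP_103b79_co
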