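import Mathlib
import Pool.Agent.Lib.MP_103b79_co.Faces

open Set Module

namespace Pool.Agent.Lib.MP_103b79_co

section General

variable {E : Type*} [NormedAddCommGroup E] [NormedSpace ℝ E] [FiniteDimensional ℝ E]

/-- The facets of `P` that contain `H`. -/
def facets (P H : Set E) : Set (Set E) := {F | IsFace P F ∧ dimOf F + 1 = dimOf P ∧ H ⊆ F}

omit [FiniteDimensional ℝ E] in
lemma map_facets {P H H' : Set E} {g : E ≃ᵢ E} (hg : g '' P = P) (hH : g '' H = H') :
    (fun F => g '' F) '' (facets P H) = facets P H' := by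
  apply Subset.antisymm
  · rintro _ ⟨F, ⟨h1, h2, h3⟩, rfl⟩
    exact ⟨h1.map hg, by rw [dim_map]; exact h2, hH ▸ image_mono h3⟩
  · rintro F ⟨h1, h2, h3⟩
    have hg' := symm_image hg
    refine ⟨g.symm '' F, ⟨h1.map hg', by rw [dim_map]; exact h2, ?_⟩, ?_⟩
    · rw [← symm_image hH]
      exact image_mono h3
    · simp only [← image_comp]
      have : (g ∘ g.symm : E → E) = id := by
        funext x
        simp
      rw [this, image_id]

omit [FiniteDimensional ℝ E] in
lemma finite_facets {P H : Set E} (hP : IsHull P) : (facets P H).Finite :=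
  hP.finite_faces.subset (fun _ hF => hF.1)

/-- A face that lies in all facets containing the face `H` lies in `H`. -/
lemma sub_of_facets {P H K : Set E} (hP : IsHull P) (hH : IsFace P H) (hK : IsFace P K)
    (h : ∀ F ∈ facets P H, K ⊆ F) : K ⊆ H := by
  by_contra hcon
  obtain ⟨R, h1, h2, h3, h4⟩ := hP.facet hH hK hcon
  exact h3 (h R ⟨h1, h4, h2⟩)

theorem facet_main {k : ℕ} {P G A F0 : Set E} (hP : IsHull P) (hk : FaceTransitive k P) (hk1 : 1 ≤ k)
    (hkd : k + 1 ≤ dimOf P) (hG : G = ∅ ∨ IsFace P G) (hA : IsFace P A) (hGA : G ⊆ A)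
    (hAk : dimOf A ≤ k)
    (hF0 : F0 ∈ facets P G) (hAF0 : ¬ A ⊆ F0)
    (hrest : ∀ F ∈ facets P G, F ≠ F0 → A ⊆ F) :
    ∀ F F', F ∈ facets P ∅ → F' ∈ facets P ∅ → SameOrbit P F F' := by
  classical
  obtain ⟨hF0f, hF0d, hGF0⟩ := hF0
  obtain ⟨k', rfl⟩ : ∃ k', k = k' + 1 := ⟨k - 1, by omega⟩
  -- a face G' of F0 of dimension k' containing G
  obtain ⟨G', hG'F0, hGG', hG'd⟩ : ∃ G', IsFace F0 G' ∧ G ⊆ G' ∧ dimOf G' = k' := by
    rcases hG with rfl | hG
    · have hF0h := hP.face hF0f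
      have hne : (F0.extremePoints ℝ).Nonempty := by
        rw [← convexHull_nonempty_iff (𝕜 := ℝ), ← hF0h.hull_ext]
        exact hF0f.1
      obtain ⟨v, hv⟩ := hne
      obtain ⟨G', h1, -, h2⟩ := hF0h.exists_between k' (dimOf F0) (vertex_face hv)
        (by rw [dim_singleton]; omega) (by omega) (by omega)
      exact ⟨G', h1, empty_subset _, h2⟩
    · have hGneA : G ≠ A := by
        intro h
        exact hAF0 (h ▸ hGF0)
      have hGA' : dimOf G < dimOf A := (hP.face hA).dim_lt (hG.of_subset hA hGA) hGneA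
      exact (hP.face hF0f).exists_between k' (dimOf F0)
        (hG.of_subset hF0f hGF0) (by omega) (by omega) (by omega)
  have hG' : IsFace P G' := hF0f.trans hG'F0
  have hF0G' : F0 ∈ facets P G' := ⟨hF0f, hF0d, hG'F0.subset⟩
  have hG'sub : facets P G' ⊆ facets P G := fun F hF => ⟨hF.1, hF.2.1, hGG'.trans hF.2.2⟩
  -- the face A'
  let A' : Set E := {x ∈ P | ∀ F ∈ facets P G', F ≠ F0 → x ∈ F}
  have hPh := hP
  obtain ⟨V, hV, hPV⟩ := hPh
  have hPconv : Convex ℝ P := hPV ▸ convex_convexHull ℝ V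
  have hG'A' : G' ⊆ A' := fun x hx => ⟨hG'.subset hx, fun F hF _ => hF.2.2 hx⟩
  have hAA' : A ⊆ A' := fun x hx => ⟨hA.subset hx, fun F hF hne => hrest F (hG'sub hF) hne hx⟩
  have hA' : IsFace P A' := by
    refine ⟨hG'.1.mono hG'A', ?_, ?_, ?_⟩
    · intro x hx y hy a b ha hb hab
      exact ⟨hPconv hx.1 hy.1 ha hb hab, fun F hF hne =>
        hF.1.2.1 (hx.2 F hF hne) (hy.2 F hF hne) ha hb hab⟩
    · exact fun x hx => hx.1
    · intro y hy z hz x hx hseg
      exact ⟨hy, fun F hF hne => hF.1.2.2.left_mem_of_mem_openSegment hy hz (hx.2 F hF hne) hseg⟩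
  have hA'F0 : ¬ A' ⊆ F0 := fun h => hAF0 (hAA'.trans h)
  have hfA' : facets P A' = facets P G' \ {F0} := by
    ext F
    constructor
    · rintro ⟨h1, h2, h3⟩
      exact ⟨⟨h1, h2, hG'A'.trans h3⟩, fun h4 => hA'F0 (by rw [← show F = F0 from h4]; exact h3)⟩
    · rintro ⟨h1, h2⟩
      exact ⟨h1.1, h1.2.1, fun x hx => hx.2 F h1 h2⟩
  -- the dimension of A' is k
  have hA'h : IsHull A' := hP.face hA'
  have hA'd : dimOf A' = k' + 1 := by
    have hself : IsFace A' A' := hA'h.self_face hA'.1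
    obtain ⟨R, hR, hG'R, hA'R, hRd⟩ := hA'h.facet (hG'.of_subset hA' hG'A') hself
      (fun h => hA'F0 (h.trans hG'F0.subset))
    have hRP : IsFace P R := hA'.trans hR
    have hRF0 : R ⊆ F0 := by
      obtain ⟨F1, h1, h2, h3, h4⟩ := hP.facet hRP hA' hA'R
      have h5 : F1 ∈ facets P G' := ⟨h1, h4, hG'R.trans h2⟩
      by_cases h6 : F1 = F0
      · exact h6 ▸ h2
      · exact absurd (fun x (hx : x ∈ A') => hx.2 F1 h5 h6) h3
    have hRG' : R ⊆ G' := by
      apply sub_of_facets hP hG' hRP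
      intro F hF
      by_cases h6 : F = F0
      · exact h6 ▸ hRF0
      · exact hR.subset.trans (fun x hx => hx.2 F hF h6)
    have : R = G' := hRG'.antisymm hG'R
    rw [← hRd, this, hG'd]
  -- every facet containing G' is in the orbit of F0
  have horb : ∀ F ∈ facets P G', SameOrbit P F0 F := by
    intro F hF
    by_cases hFF0 : F = F0
    · rw [hFF0]
      exact SameOrbit.refl P F0
    -- a face H of F0 of dimension k, containing G', not inside F
    have hne : (F ∩ F0).Nonempty := hG'.1.mono (subset_inter hF.2.2 hG'F0.subset)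
    have hK : IsFace F0 (F ∩ F0) := (hF.1.inter hF0f hne).of_subset hF0f inter_subset_right
    have hKne : F ∩ F0 ≠ F0 := by
      intro h
      have h1 : F0 ⊆ F := inter_eq_right.1 h
      have h2 := hP.face_eq hF0f hF.1 h1 (by have := hF.2.1; omega)
      exact hFF0 h2.symm
    obtain ⟨H, hH, hG'H, hHF, hHd⟩ := (hP.face hF0f).exists_up (dimOf F0) hG'F0 hK
      (subset_inter hF.2.2 hG'F0.subset) hKne (by omega)
    have hHP : IsFace P H := hF0f.trans hH
    have hHF' : ¬ H ⊆ F := fun h => hHF (subset_inter h hH.subset)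
    obtain ⟨g, hg, hgA'⟩ := hk A' H hA' hA'd hHP (by rw [hHd, hG'd])
    have himg := map_facets hg hgA'
    have hinj : Function.Injective (fun F : Set E => g '' F) := g.injective.image_injective
    have hfin : (facets P G').Finite := finite_facets hP
    have hsub : facets P H ⊆ facets P G' \ {F} := by
      rintro F1 ⟨h1, h2, h3⟩
      exact ⟨⟨h1, h2, hG'H.trans h3⟩, fun h4 => hHF' (by rw [← show F1 = F from h4]; exact h3)⟩
    have hcard : (facets P H).ncard = (facets P G' \ {F}).ncard := by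
      rw [← himg, ncard_image_of_injective _ hinj, hfA', ncard_sdiff_singleton_of_mem hF0G',
        ncard_sdiff_singleton_of_mem hF]
    have hfH : facets P H = facets P G' \ {F} :=
      eq_of_subset_of_ncard_le hsub hcard.ge (hfin.subset sdiff_subset)
    by_contra hnot
    set O : Set (Set E) := {K | SameOrbit P F0 K} with hO
    have himgO : (fun F => g '' F) '' (facets P A' ∩ O) = facets P H ∩ O := by
      apply Subset.antisymm
      · rintro _ ⟨K, ⟨h1, h2⟩, rfl⟩
        exact ⟨himg ▸ mem_image_of_mem _ h1, SameOrbit.trans h2 ⟨g, hg, rfl⟩⟩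
      · rintro K ⟨h1, h2⟩
        rw [← himg] at h1
        obtain ⟨K', hK', rfl⟩ := h1
        exact ⟨K', ⟨hK', SameOrbit.trans h2 (SameOrbit.symm ⟨g, hg, rfl⟩)⟩, rfl⟩
    have hc := congrArg Set.ncard himgO
    rw [ncard_image_of_injective _ hinj, hfA', hfH] at hc
    have h1 : (facets P G' \ {F}) ∩ O = facets P G' ∩ O := by
      ext K
      constructor
      · rintro ⟨⟨h2, h3⟩, h4⟩
        exact ⟨h2, h4⟩
      · rintro ⟨h2, h4⟩
        refine ⟨⟨h2, ?_⟩, h4⟩
        intro h5
        apply hnot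
        have h6 : K = F := h5
        rw [← h6]
        exact h4
    have h2 : (facets P G' \ {F0}) ∩ O = (facets P G' ∩ O) \ {F0} := by
      ext K
      constructor
      · rintro ⟨⟨h2, h3⟩, h4⟩
        exact ⟨⟨h2, h4⟩, h3⟩
      · rintro ⟨⟨h2, h4⟩, h3⟩
        exact ⟨⟨h2, h3⟩, h4⟩
    have hF0O : F0 ∈ facets P G' ∩ O := ⟨hF0G', SameOrbit.refl P F0⟩
    rw [h1, h2] at hc
    have h3 := ncard_sdiff_singleton_lt_of_mem hF0O (hfin.subset inter_subset_left)
    omega
  -- every facet is in the orbit of F0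
  have hall : ∀ F ∈ facets P (∅ : Set E), SameOrbit P F0 F := by
    intro F hF
    have hFh := hP.face hF.1
    have hne : (F.extremePoints ℝ).Nonempty := by
      rw [← convexHull_nonempty_iff (𝕜 := ℝ), ← hFh.hull_ext]
      exact hF.1.1
    obtain ⟨v, hv⟩ := hne
    obtain ⟨H, hH, -, hHd⟩ := hFh.exists_between (k' + 1) (dimOf F) (vertex_face hv)
      (by rw [dim_singleton]; omega) (by have := hF.2.1; omega) (by omega)
    obtain ⟨g, hg, hgH⟩ := hk H A' (hF.1.trans hH) hHd hA' hA'd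
    have h1 : g '' F ∈ facets P A' := by
      rw [← map_facets hg hgH]
      exact mem_image_of_mem _ ⟨hF.1, hF.2.1, hH.subset⟩
    rw [hfA'] at h1
    exact (horb _ h1.1).trans (SameOrbit.symm ⟨g, hg, rfl⟩)
  intro F F' hF hF'
  exact (hall F hF).symm.trans (hall F' hF')

end General

end Pool.Agent.Lib.MP_103b79_co
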