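import Mathlib
import Pool.Agent.Lib.MP_103b79_co.Facets
import Pool.Agent.Lib.MP_103b79_co.Chamber

open Set Module

namespace Pool.Agent.Lib.MP_103b79_co

variable {d : ℕ}

/-- A polytope with a simple vertex `x0`, seen through `d` functionals that are smallest at `x0`
and `d` directions inside `P`. -/
theorem simple_vertex_facet {k : ℕ} {Z : Set (EuclideanSpace ℝ (Fin d))} (hH : IsHull Z)
    (hZd : dimOf Z = d) (hk1 : 1 ≤ k) (hkd : k + 1 ≤ d) (hk : FaceTransitive k Z)
    {x0 : EuclideanSpace ℝ (Fin d)} (hx0Z : x0 ∈ Z) (β : Fin d → Dual ℝ (EuclideanSpace ℝ (Fin d)))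
    (hmin : ∀ x ∈ Z, ∀ i, β i x0 ≤ β i x) (u : Fin d → EuclideanSpace ℝ (Fin d))
    (huZ : ∀ i, x0 + u i ∈ Z) (hβu : ∀ i, 0 < β i (u i)) (hβu0 : ∀ i l, l ≠ i → β l (u i) = 0) :
    FaceTransitive (d - 1) Z := by
  classical
  -- the u i form a basis
  have hu : LinearIndependent ℝ u := by
    rw [Fintype.linearIndependent_iff]
    intro g hg i
    have h1 := congrArg (β i) hg
    rw [map_sum, map_zero, Finset.sum_eq_single i] at h1
    · rw [map_smul, smul_eq_mul] at h1
      rcases mul_eq_zero.1 h1 with h | h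
      · exact h
      · exact absurd h (hβu i).ne'
    · intro l _ hl
      rw [map_smul, hβu0 l i hl.symm, smul_zero]
    · intro h
      exact absurd (Finset.mem_univ i) h
  have hd : 0 < d := by omega
  have : Nonempty (Fin d) := ⟨⟨0, hd⟩⟩
  let b : Basis (Fin d) ℝ (EuclideanSpace ℝ (Fin d)) :=
    basisOfLinearIndependentOfCardEqFinrank hu (by simp)
  have hb : ∀ i, b i = u i := by
    intro i
    simp [b]
  have hrep : ∀ y i, β i y = b.repr y i * β i (u i) := by
    intro y i
    conv_lhs => rw [← b.sum_repr y]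
    rw [map_sum, Finset.sum_eq_single i]
    · rw [map_smul, smul_eq_mul, hb]
    · intro l _ hl
      rw [map_smul, hb, hβu0 l i hl.symm, smul_zero]
    · intro h
      exact absurd (Finset.mem_univ i) h
  have hrep0 : ∀ y i, b.repr y i = 0 ↔ β i y = 0 := by
    intro y i
    rw [hrep y i, mul_eq_zero]
    constructor
    · exact Or.inl
    · rintro (h | h)
      · exact h
      · exact absurd h (hβu i).ne'
  -- the faces cut out by the functionals
  let A : Set (Fin d) → Set (EuclideanSpace ℝ (Fin d)) := fun I => {x ∈ Z | ∀ i ∈ I, β i x = β i x0}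
  have hZconv : Convex ℝ Z := by
    obtain ⟨V, -, hV⟩ := hH
    rw [hV]
    exact convex_convexHull ℝ V
  have hA : ∀ I, IsFace Z (A I) := by
    intro I
    refine ⟨⟨x0, hx0Z, fun _ _ => rfl⟩, ?_, ?_, ?_⟩
    · intro x hx y hy a b' ha hb' hab
      refine ⟨hZconv hx.1 hy.1 ha hb' hab, fun i hi => ?_⟩
      rw [map_add, map_smul, map_smul, hx.2 i hi, hy.2 i hi, ← add_smul, hab, one_smul]
    · exact fun x hx => hx.1
    · intro y hy z hz x hx hseg
      obtain ⟨a, b', ha, hb', hab, rfl⟩ := hseg
      refine ⟨hy, fun i hi => ?_⟩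
      have h1 := hx.2 i hi
      rw [map_add, map_smul, map_smul, smul_eq_mul, smul_eq_mul] at h1
      have h2 := hmin y hy i
      have h3 := hmin z hz i
      by_contra hne
      have h4 : β i x0 < β i y := lt_of_le_of_ne h2 (Ne.symm hne)
      have h5 := mul_pos ha (sub_pos.2 h4)
      have h6 := mul_nonneg hb'.le (sub_nonneg.2 h3)
      have h7 : (a + b') * β i x0 = β i x0 := by rw [hab, one_mul]
      linarith [mul_sub a (β i y) (β i x0), mul_sub b' (β i z) (β i x0), add_mul a b' (β i x0)]
  have hGsub : A univ = {x0} := by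
    apply Subset.antisymm
    · rintro x ⟨-, hx⟩
      have h1 : ∀ i, b.repr (x - x0) i = 0 := by
        intro i
        rw [hrep0, map_sub, hx i (mem_univ i), sub_self]
      have h2 : x - x0 = 0 := by
        apply b.repr.map_eq_zero_iff.1
        ext i
        exact h1 i
      exact sub_eq_zero.1 h2
    · rintro x rfl
      exact ⟨hx0Z, fun _ _ => rfl⟩
  -- the edge and the facet
  let i0 : Fin d := ⟨0, hd⟩
  have hG : IsFace Z {x0} := hGsub ▸ hA univ
  have hAe : IsFace Z (A {i | i ≠ i0}) := hA _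
  have hGA : {x0} ⊆ A {i | i ≠ i0} := by
    rintro x rfl
    exact ⟨hx0Z, fun _ _ => rfl⟩
  have hAmem : x0 + u i0 ∈ A {i | i ≠ i0} := by
    refine ⟨huZ i0, fun i hi => ?_⟩
    rw [map_add, hβu0 i0 i hi, add_zero]
  have hAd : dimOf (A {i | i ≠ i0}) ≤ k := by
    have h1 : vectorSpan ℝ (A {i | i ≠ i0}) ≤ Submodule.span ℝ {u i0} := by
      rw [vectorSpan_def, Submodule.span_le]
      rintro _ ⟨x, hx, y, hy, rfl⟩
      rw [SetLike.mem_coe, Submodule.mem_span_singleton]
      refine ⟨b.repr (x - y) i0, ?_⟩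
      show b.repr (x - y) i0 • u i0 = x - y
      conv_rhs => rw [← b.sum_repr (x - y)]
      rw [Finset.sum_eq_single i0, hb]
      · intro l _ hl
        have h2 : b.repr (x - y) l = 0 := by
          rw [hrep0, map_sub, hx.2 l hl, hy.2 l hl, sub_self]
        rw [h2, zero_smul]
      · intro h
        exact absurd (Finset.mem_univ _) h
    have h2 := Submodule.finrank_mono h1
    have h3 := finrank_span_le_card (R := ℝ) ({u i0} : Set (EuclideanSpace ℝ (Fin d)))
    have h4 : finrank ℝ (Submodule.span ℝ {u i0}) ≤ 1 := by simpa using h3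
    rw [dimOf]
    omega
  have hAG : ¬ A {i | i ≠ i0} ⊆ {x0} := by
    intro h
    have h1 : x0 + u i0 = x0 := h hAmem
    have h2 := congrArg (β i0) h1
    rw [map_add] at h2
    have := hβu i0
    linarith
  obtain ⟨R, hR1, hR2, hR3, hR4⟩ := hH.facet hG hAe hAG
  -- every facet through x0 that does not contain the edge is cut out by the functional of i0
  have huniq : ∀ F, IsFace Z F → dimOf F + 1 = dimOf Z → {x0} ⊆ F → ¬ A {i | i ≠ i0} ⊆ F →
      F = A {i0} := by
    intro F hF hFd hx0F hAF
    obtain ⟨l, c', hl1, hl2⟩ := hH.exposed hF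
    have hx0F' : l x0 = c' := (hl2 x0 hx0Z).2 (hx0F rfl)
    have hlu : ∀ i, l (u i) ≤ 0 := by
      intro i
      have h1 := hl1 _ (huZ i)
      rw [map_add, hx0F'] at h1
      linarith
    have hlsum : ∀ y, l y = ∑ i, b.repr y i * l (u i) := by
      intro y
      conv_lhs => rw [← b.sum_repr y]
      rw [map_sum]
      exact Finset.sum_congr rfl (fun i _ => by rw [map_smul, smul_eq_mul, hb])
    have hlneg : l (u i0) < 0 := by
      refine lt_of_le_of_ne (hlu i0) ?_
      intro h0
      apply hAF
      intro x hx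
      rw [← hl2 x hx.1]
      have h1 : l (x - x0) = 0 := by
        rw [hlsum]
        apply Finset.sum_eq_zero
        intro i _
        by_cases hi : i = i0
        · rw [hi, h0, mul_zero]
        · have h2 : b.repr (x - x0) i = 0 := by
            rw [hrep0, map_sub, hx.2 i hi, sub_self]
          rw [h2, zero_mul]
      rw [map_sub, hx0F'] at h1
      linarith
    have hsub : F ⊆ A {i0} := by
      intro x hx
      have hxZ := hF.subset hx
      refine ⟨hxZ, fun i hi => ?_⟩
      have hi' : i = i0 := hi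
      subst hi'
      have h1 : l (x - x0) = 0 := by
        rw [map_sub, (hl2 x hxZ).2 hx, hx0F', sub_self]
      rw [hlsum] at h1
      have hnonneg : ∀ i, 0 ≤ b.repr (x - x0) i := by
        intro i
        have h2 := hrep (x - x0) i
        rw [map_sub] at h2
        have h3 := hmin x hxZ i
        by_contra hneg
        push Not at hneg
        have := mul_neg_of_neg_of_pos hneg (hβu i)
        linarith
      have h2 : ∀ i ∈ Finset.univ, b.repr (x - x0) i * l (u i) ≤ 0 := fun i _ =>
        mul_nonpos_of_nonneg_of_nonpos (hnonneg i) (hlu i)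
      have h3 := (Finset.sum_eq_zero_iff_of_nonpos h2).1 h1 i0 (Finset.mem_univ _)
      have h4 : b.repr (x - x0) i0 = 0 := by
        rcases mul_eq_zero.1 h3 with h | h
        · exact h
        · exact absurd h hlneg.ne
      rw [hrep0, map_sub] at h4
      linarith
    apply hH.face_eq hF (hA _) hsub
    have h1 : A {i0} ≠ Z := by
      intro h
      have h2 : x0 + u i0 ∈ A {i0} := by
        rw [h]
        exact huZ i0
      have h3 := h2.2 i0 rfl
      rw [map_add] at h3
      have := hβu i0
      linarith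
    have h2 := hH.dim_lt (hA {i0}) h1
    omega
  have hRA := huniq R hR1 hR4 hR2 hR3
  have h := facet_main (k := k) (P := Z) (G := {x0}) (A := A {i | i ≠ i0}) (F0 := R) hH hk
    hk1 (by omega) (Or.inr hG) hAe hGA hAd ⟨hR1, hR4, hR2⟩ hR3 (by
      intro F hF hne
      by_contra hcon
      exact hne ((huniq F hF.1 hF.2.1 hF.2.2 hcon).trans hRA.symm))
  intro F F' h1 h2 h3 h4
  exact h F F' ⟨h1, by omega, empty_subset _⟩ ⟨h3, by omega, empty_subset _⟩

/-- A face of dimension one is the segment between two of its vertices. -/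
lemma edge_segment {E : Type*} [NormedAddCommGroup E] [NormedSpace ℝ E] [FiniteDimensional ℝ E]
    {P R : Set E} (hR : IsFace P R) (hd : dimOf R = 1) {v w : E} (hv : v ∈ P.extremePoints ℝ)
    (hw : w ∈ P.extremePoints ℝ) (hvR : v ∈ R) (hwR : w ∈ R) (hne : v ≠ w) :
    R = segment ℝ v w := by
  apply Subset.antisymm
  · intro x hx
    have h1 : w - v ∈ vectorSpan ℝ R := vsub_mem_vectorSpan ℝ hwR hvR
    have h2 : x - v ∈ vectorSpan ℝ R := vsub_mem_vectorSpan ℝ hx hvR
    obtain ⟨c, hc⟩ := (finrank_eq_one_iff_of_nonzero' (⟨w - v, h1⟩ : vectorSpan ℝ R)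
      (by
        intro h
        have := congrArg Subtype.val h
        exact hne (sub_eq_zero.1 this).symm)).1 hd ⟨x - v, h2⟩
    have hc' : c • (w - v) = x - v := congrArg Subtype.val hc
    have hxeq : x = v + c • (w - v) := by
      rw [hc']
      abel
    have hxP := hR.subset hx
    have hvP := hR.subset hvR
    have hwP := hR.subset hwR
    rcases lt_or_ge c 0 with hc0 | hc0
    · exfalso
      have hpos : 0 < 1 - c := by linarith
      have h3 : v ∈ openSegment ℝ x w := by
        refine ⟨1 / (1 - c), -c / (1 - c), div_pos one_pos hpos, div_pos (by linarith) hpos, ?_, ?_⟩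
        · field_simp
          ring
        · have h5 : (1 - c) • ((1 / (1 - c)) • x + (-c / (1 - c)) • w) = (1 - c) • v := by
            rw [smul_add, smul_smul, smul_smul, mul_div_cancel₀ _ hpos.ne',
              mul_div_cancel₀ _ hpos.ne', one_smul, hxeq, smul_sub, sub_smul, one_smul, neg_smul]
            abel
          exact smul_right_injective E hpos.ne' h5
      have h4 := hv.2 hxP hwP h3
      rw [h4, sub_self] at hc'
      rcases smul_eq_zero.1 hc' with h | h
      · exact hc0.ne h
      · exact hne (sub_eq_zero.1 h).symm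
    rcases lt_or_ge 1 c with hc1 | hc1
    · exfalso
      have hpos : 0 < c := by linarith
      have h3 : w ∈ openSegment ℝ v x := by
        refine ⟨(c - 1) / c, 1 / c, div_pos (by linarith) hpos, div_pos one_pos hpos, ?_, ?_⟩
        · field_simp
          ring
        · have h5 : c • (((c - 1) / c) • v + (1 / c) • x) = c • w := by
            rw [smul_add, smul_smul, smul_smul, mul_div_cancel₀ _ hpos.ne',
              mul_div_cancel₀ _ hpos.ne', one_smul, hxeq, smul_sub, sub_smul, one_smul]
            abel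
          exact smul_right_injective E hpos.ne' h5
      exact hne (hw.2 hvP hxP h3)
    · rw [segment_eq_image']
      exact ⟨c, ⟨hc0, hc1⟩, hxeq.symm⟩
  · exact hR.2.1.segment_subset hvR hwR

/-- Edges with the property (Z): every face cut out by a functional that vanishes on the edge
contains a translate of the edge. Such a polytope has a simple vertex. -/
theorem facet_of_zprop {k : ℕ} {P : Set (EuclideanSpace ℝ (Fin d))} (hP : IsHull P)
    (hPd : dimOf P = d) (hk1 : 1 ≤ k) (hkd : k + 1 ≤ d) (hk : FaceTransitive k P)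
    (himp : ∀ (v : EuclideanSpace ℝ (Fin d)), v ∈ P.extremePoints ℝ →
      ∀ c : EuclideanSpace ℝ (Fin d) →ₗ[ℝ] ℝ, (∃ x ∈ P, c v < c x) →
      ∃ R, IsFace P R ∧ v ∈ R ∧ dimOf R = 1 ∧ ∃ x ∈ R, c v < c x)
    (hZ : ∀ z w : EuclideanSpace ℝ (Fin d), z ≠ w → IsFace P (segment ℝ z w) →
      ∀ c : EuclideanSpace ℝ (Fin d) →ₗ[ℝ] ℝ, c (w - z) = 0 →
      ∃ z', z' ∈ P ∧ z' + (w - z) ∈ P ∧ ∀ x ∈ P, c x ≤ c z') :
    FaceTransitive (d - 1) P := by
  classical
  have hfin := hP.finite_ext
  -- the edges
  let ι := {q : EuclideanSpace ℝ (Fin d) × EuclideanSpace ℝ (Fin d) //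
    q.1 ∈ P.extremePoints ℝ ∧ q.2 ∈ P.extremePoints ℝ ∧ q.1 ≠ q.2 ∧ IsFace P (segment ℝ q.1 q.2)}
  have : Finite ι := by
    have h1 : {q : EuclideanSpace ℝ (Fin d) × EuclideanSpace ℝ (Fin d) |
      q.1 ∈ P.extremePoints ℝ ∧ q.2 ∈ P.extremePoints ℝ ∧ q.1 ≠ q.2 ∧
        IsFace P (segment ℝ q.1 q.2)}.Finite :=
      (hfin.prod hfin).subset (fun q hq => ⟨hq.1, hq.2.1⟩)
    exact h1.to_subtype
  -- an improving edge at a vertex
  have hedge : ∀ v ∈ P.extremePoints ℝ, ∀ c : EuclideanSpace ℝ (Fin d) →ₗ[ℝ] ℝ,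
      (∃ x ∈ P, c v < c x) → ∃ q : ι, q.1.1 = v ∧ c v < c q.1.2 := by
    intro v hv c hx
    obtain ⟨R, hR, hvR, hRd, x, hxR, hcx⟩ := himp v hv c hx
    have hRh := hP.face hR
    have hext : R.extremePoints ℝ = R ∩ P.extremePoints ℝ := hR.2.2.extremePoints_eq
    obtain ⟨w, hw, hcw⟩ : ∃ w ∈ R.extremePoints ℝ, c v < c w := by
      by_contra hcon
      push Not at hcon
      have h1 : R ⊆ {y | c y ≤ c v} := by
        rw [hRh.hull_ext]
        exact convexHull_min hcon (convex_halfSpace_le c.isLinear _)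
      exact absurd (h1 hxR) (not_le.2 hcx)
    rw [hext] at hw
    have hne : v ≠ w := by
      rintro rfl
      exact lt_irrefl _ hcw
    have hseg := edge_segment hR hRd hv hw.2 hvR hw.1 hne
    exact ⟨⟨(v, w), hv, hw.2, hne, hseg ▸ hR⟩, rfl, hcw⟩
  -- the edge directions span
  let ev : ι → Dual ℝ (Dual ℝ (EuclideanSpace ℝ (Fin d))) :=
    fun q => Dual.eval ℝ (EuclideanSpace ℝ (Fin d)) (q.1.2 - q.1.1)
  have hev : ∀ (q : ι) (φ : Dual ℝ (EuclideanSpace ℝ (Fin d))), ev q φ = φ q.1.2 - φ q.1.1 := by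
    intro q φ
    simp [ev]
  have hspan : ∀ φ : Dual ℝ (EuclideanSpace ℝ (Fin d)), (∀ q, ev q φ = 0) → φ = 0 := by
    intro φ hφ
    have hconst : ∀ v ∈ P.extremePoints ℝ, ∀ x ∈ P, φ x ≤ φ v := by
      intro v hv x hx
      by_contra hcon
      push Not at hcon
      obtain ⟨q, hq1, hq2⟩ := hedge v hv φ ⟨x, hx, hcon⟩
      have := hφ q
      rw [hev, hq1] at this
      linarith
    have h0 : ∀ x ∈ P, ∀ y ∈ P, φ x = φ y := by
      have h1 : ∀ v ∈ P.extremePoints ℝ, ∀ w ∈ P.extremePoints ℝ, φ v = φ w := fun v hv w hw =>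
        le_antisymm (hconst w hw v hv.1) (hconst v hv w hw.1)
      intro x hx
      by_cases hne : (P.extremePoints ℝ).Nonempty
      · obtain ⟨v, hv⟩ := hne
        have h2 : ∀ y ∈ P, φ y = φ v := by
          intro y hy
          have h3 : P ⊆ {y | φ y = φ v} := by
            rw [hP.hull_ext]
            exact convexHull_min (fun w hw => h1 w hw v hv) (convex_hyperplane φ.isLinear _)
          exact h3 hy
        intro y hy
        rw [h2 x hx, h2 y hy]
      · rw [not_nonempty_iff_eq_empty] at hne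
        rw [hP.hull_ext, hne, convexHull_empty] at hx
        exact absurd hx (notMem_empty x)
    have h4 : vectorSpan ℝ P ≤ LinearMap.ker φ := by
      rw [vectorSpan_def, Submodule.span_le]
      rintro _ ⟨x, hx, y, hy, rfl⟩
      simp only [SetLike.mem_coe, LinearMap.mem_ker]
      rw [vsub_eq_sub, map_sub, h0 x hx y hy, sub_self]
    have h5 : vectorSpan ℝ P = ⊤ := by
      apply Submodule.eq_top_of_finrank_eq
      rw [finrank_euclideanSpace_fin]
      exact hPd
    rw [h5, top_le_iff] at h4
    exact LinearMap.ker_eq_top.1 h4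
  -- a simplicial chamber
  obtain ⟨w', hw'⟩ := exists_generic ev
  obtain ⟨β, -, -, hS, hW⟩ := exists_chamber d
    (W := Dual ℝ (EuclideanSpace ℝ (Fin d)))
    (by rw [Subspace.dual_finrank_eq, finrank_euclideanSpace_fin]) ev hspan w' hw'
  choose J hJ1 hJ2 using hW
  -- the vertex
  let c : EuclideanSpace ℝ (Fin d) →ₗ[ℝ] ℝ := ∑ i, β i
  have hc : ∀ x, c x = ∑ i, β i x := by
    intro x
    simp [c]
  have hne : (P.extremePoints ℝ).Nonempty := by
    have hd : 0 < d := by omega
    have hq := (J ⟨0, hd⟩).2.1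
    exact ⟨_, hq⟩
  obtain ⟨w, hw, hwmax⟩ := exists_max_image (P.extremePoints ℝ) c hfin hne
  have hβmax : ∀ i, ∀ x ∈ P, β i x ≤ β i w := by
    intro i x hx
    by_contra hcon
    push Not at hcon
    obtain ⟨q, hq1, hq2⟩ := hedge w hw (β i) ⟨x, hx, hcon⟩
    have h1 : ∀ l, 0 ≤ ev q (β l) := by
      rcases hS q with h | h
      · exact h
      · exfalso
        have h2 := h i
        rw [hev, hq1] at h2
        linarith
    have h2 : c w < c q.1.2 := by
      rw [hc, hc]
      apply Finset.sum_lt_sum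
      · intro l _
        have := h1 l
        rw [hev, hq1] at this
        linarith
      · exact ⟨i, Finset.mem_univ i, hq2⟩
    exact absurd (hwmax q.1.2 q.2.2.1) (not_le.2 h2)
  -- the directions
  have hdir : ∀ i, ∃ u : EuclideanSpace ℝ (Fin d), w + u ∈ P ∧ β i u < 0 ∧
      ∀ l, l ≠ i → β l u = 0 := by
    intro i
    let c' : EuclideanSpace ℝ (Fin d) →ₗ[ℝ] ℝ := ∑ l ∈ Finset.univ.erase i, β l
    have hc' : ∀ x, c' x = ∑ l ∈ Finset.univ.erase i, β l x := by
      intro x
      simp [c']
    set q := J i with hq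
    have hq1 : β i q.1.2 - β i q.1.1 ≠ 0 := by
      have := hJ1 i
      rw [hev] at this
      exact this
    have hq2 : ∀ l, l ≠ i → β l (q.1.2 - q.1.1) = 0 := by
      intro l hl
      have := hJ2 i l hl
      rw [hev] at this
      rw [map_sub]
      exact this
    obtain ⟨z', hz', hza, hmax⟩ := hZ q.1.1 q.1.2 q.2.2.2.1 q.2.2.2.2 c' (by
      rw [hc']
      apply Finset.sum_eq_zero
      intro l hl
      exact hq2 l (Finset.ne_of_mem_erase hl))
    have heq : ∀ l, l ≠ i → β l z' = β l w := by
      intro l hl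
      have h1 := hmax w hw.1
      rw [hc', hc'] at h1
      have h2 : ∑ l ∈ Finset.univ.erase i, (β l w - β l z') ≤ 0 := by
        rw [Finset.sum_sub_distrib]
        linarith
      have h3 : ∀ l ∈ Finset.univ.erase i, 0 ≤ β l w - β l z' := fun l _ => by
        have := hβmax l z' hz'
        linarith
      have h4 := (Finset.sum_eq_zero_iff_of_nonneg h3).1
        (le_antisymm h2 (Finset.sum_nonneg h3)) l (Finset.mem_erase.2 ⟨hl, Finset.mem_univ l⟩)
      linarith
    rcases lt_or_eq_of_le (hβmax i z' hz') with h | h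
    · refine ⟨z' - w, by rw [add_sub_cancel]; exact hz', ?_, fun l hl => ?_⟩
      · rw [map_sub]
        linarith
      · rw [map_sub, heq l hl, sub_self]
    · refine ⟨z' + (q.1.2 - q.1.1) - w, by rw [add_sub_cancel]; exact hza, ?_, fun l hl => ?_⟩
      · have h1 := hβmax i _ hza
        rw [map_add, map_sub] at h1
        rw [map_sub, map_add, map_sub]
        have h2 : β i q.1.2 - β i q.1.1 < 0 := lt_of_le_of_ne (by linarith) hq1
        linarith
      · rw [map_sub, map_add, hq2 l hl, heq l hl]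
        ring
  choose u hu1 hu2 hu3 using hdir
  exact simple_vertex_facet hP hPd hk1 hkd hk hw.1 (fun i => -β i)
    (fun x hx i => by
      have := hβmax i x hx
      simp only [LinearMap.neg_apply]
      linarith) u hu1
    (fun i => by
      simp only [LinearMap.neg_apply]
      linarith [hu2 i])
    (fun i l hl => by
      simp only [LinearMap.neg_apply]
      rw [hu3 i l hl, neg_zero])

end Pool.Agent.Lib.MP_103b79_co
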