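import Mathlib
import Pool.Agent.Lib.MP_103b79_co.Improve
import Pool.Agent.Lib.MP_103b79_co.SimpleVertex

open Set Module
namespace Pool.Agent.Lib.MP_103b79_co

/-- A functional that vanishes on all edge vectors of a full-dimensional polytope is zero. -/
lemma functional_eq_zero {d : ℕ} {P : Set (EuclideanSpace ℝ (Fin d))} (hP : IsHull P)
    (hPd : dimOf P = d) (hne : P.Nonempty) (c : EuclideanSpace ℝ (Fin d) →ₗ[ℝ] ℝ)
    (hc : ∀ z a : EuclideanSpace ℝ (Fin d), a ≠ 0 → IsFace P (segment ℝ z (z + a)) → c a = 0) :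
    c = 0 := by
  have hconst : ∀ v ∈ P.extremePoints ℝ, ∀ x ∈ P, c x ≤ c v := by
    intro v hv x hx
    by_contra hcon
    push Not at hcon
    obtain ⟨R, hR, hvR, hRd, y, hyR, hcy⟩ := hP.improve (vertex_face hv) c (c v)
      (fun x hx => by rw [mem_singleton_iff.1 hx]) ⟨x, hx, hcon⟩
    rw [dim_singleton, zero_add] at hRd
    have hvR' : v ∈ R := hvR rfl
    have hRh := hP.face hR
    have hext : R.extremePoints ℝ = R ∩ P.extremePoints ℝ := hR.2.2.extremePoints_eq
    obtain ⟨w, hw, hcw⟩ : ∃ w ∈ R.extremePoints ℝ, c v < c w := by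
      by_contra hcon
      push Not at hcon
      have h1 : R ⊆ {y | c y ≤ c v} := by
        rw [hRh.hull_ext]
        exact convexHull_min hcon (convex_halfSpace_le c.isLinear _)
      exact absurd (h1 hyR) (not_le.2 hcy)
    rw [hext] at hw
    have hvw : v ≠ w := by
      rintro rfl
      exact lt_irrefl _ hcw
    have hseg := edge_segment hR hRd hv hw.2 hvR' hw.1 hvw
    rw [hseg] at hR
    have h0 := hc v (w - v) (sub_ne_zero.2 hvw.symm) (by rwa [add_sub_cancel])
    rw [map_sub] at h0
    linarith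
  have hext : (P.extremePoints ℝ).Nonempty := by
    rw [nonempty_iff_ne_empty]
    intro h
    rw [hP.hull_ext, h, convexHull_empty] at hne
    exact not_nonempty_empty hne
  obtain ⟨v, hv⟩ := hext
  have h1 : ∀ w ∈ P.extremePoints ℝ, c w = c v := fun w hw =>
    le_antisymm (hconst v hv w hw.1) (hconst w hw v hv.1)
  have h2 : ∀ y ∈ P, c y = c v := by
    intro y hy
    have h3 : P ⊆ {y | c y = c v} := by
      conv_lhs => rw [hP.hull_ext]
      exact convexHull_min h1 (convex_hyperplane c.isLinear _)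
    exact h3 hy
  have h3 : vectorSpan ℝ P ≤ LinearMap.ker c := by
    rw [vectorSpan_def, Submodule.span_le]
    rintro _ ⟨x, hx, y, hy, rfl⟩
    simp only [SetLike.mem_coe, LinearMap.mem_ker]
    rw [vsub_eq_sub, map_sub, h2 x hx, h2 y hy, sub_self]
  have h4 : vectorSpan ℝ P = ⊤ := by
    apply Submodule.eq_top_of_finrank_eq
    rw [finrank_euclideanSpace_fin]
    exact hPd
  rw [h4, top_le_iff] at h3
  exact LinearMap.ker_eq_top.1 h3

theorem axes_of_edges {d : ℕ} {P : Set (EuclideanSpace ℝ (Fin d))} (hP : IsHull P)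
    (hPd : dimOf P = d) (hne : P.Nonempty)
    (hort : ∀ z a w a' : EuclideanSpace ℝ (Fin d), a ≠ 0 → IsFace P (segment ℝ z (z + a)) →
      a' ≠ 0 → IsFace P (segment ℝ w (w + a')) → inner ℝ a a' = 0 ∨ ∃ c : ℝ, a' = c • a) :
    ∃ u : Fin d → EuclideanSpace ℝ (Fin d), (∀ i, u i ≠ 0) ∧
      (∀ i j, i ≠ j → inner ℝ (u i) (u j) = 0) ∧
      ∀ z a : EuclideanSpace ℝ (Fin d), a ≠ 0 → IsFace P (segment ℝ z (z + a)) →
        ∃ (i : Fin d) (c : ℝ), a = c • u i := by
  classical
  obtain ⟨S, hS⟩ : ∃ S : Set (EuclideanSpace ℝ (Fin d)),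
      S = {a | a ≠ 0 ∧ ∃ z, IsFace P (segment ℝ z (z + a))} := ⟨_, rfl⟩
  have hspan : Submodule.span ℝ S = ⊤ := by
    by_contra hcon
    obtain ⟨f, hf, hle⟩ := Submodule.exists_le_ker_of_lt_top _ (lt_top_iff_ne_top.2 hcon)
    apply hf
    apply functional_eq_zero hP hPd hne f
    intro z a ha hz
    have h1 : a ∈ Submodule.span ℝ S := by
      apply Submodule.subset_span
      rw [hS]
      exact ⟨ha, z, hz⟩
    exact hle h1
  obtain ⟨B, hBS, hBspan, hBli⟩ := exists_linearIndependent ℝ S
  rw [hspan] at hBspan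
  let bas : Basis B ℝ (EuclideanSpace ℝ (Fin d)) := Basis.mk hBli (by
    rw [Subtype.range_coe_subtype]
    exact hBspan.ge)
  have hfin : Finite B := Module.Finite.finite_basis bas
  have := Fintype.ofFinite B
  have hcard : Fintype.card B = d := by
    rw [← Module.finrank_eq_card_basis bas, finrank_euclideanSpace_fin]
  let e : B ≃ Fin d := Fintype.equivFinOfCardEq hcard
  have hBmem : ∀ b : B, (b : EuclideanSpace ℝ (Fin d)) ≠ 0 ∧
      ∃ z, IsFace P (segment ℝ z (z + (b : EuclideanSpace ℝ (Fin d)))) := by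
    intro b
    have := hBS b.2
    rw [hS] at this
    exact this
  refine ⟨fun i => (e.symm i : EuclideanSpace ℝ (Fin d)), fun i => (hBmem _).1, ?_, ?_⟩
  · intro i j hij
    obtain ⟨h1, z, hz⟩ := hBmem (e.symm i)
    obtain ⟨h2, w, hw⟩ := hBmem (e.symm j)
    rcases hort z _ w _ h1 hz h2 hw with h | ⟨c, hc⟩
    · exact h
    · exfalso
      have hne' : e.symm i ≠ e.symm j := fun h => hij (e.symm.injective h)
      have h3 := hBli.comp ![e.symm i, e.symm j] (by
        intro a b hab
        fin_cases a <;> fin_cases b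
        · rfl
        · exact absurd hab hne'
        · exact absurd hab.symm hne'
        · rfl)
      have h4 : (Subtype.val ∘ ![e.symm i, e.symm j] : Fin 2 → EuclideanSpace ℝ (Fin d)) =
          ![((e.symm i : B) : EuclideanSpace ℝ (Fin d)), ((e.symm j : B) :
            EuclideanSpace ℝ (Fin d))] := by
        funext k
        fin_cases k <;> rfl
      rw [h4] at h3
      exact (LinearIndependent.pair_iff' (K := ℝ) h1).1 h3 c hc.symm
  · intro z a ha hz
    by_contra hcon
    push Not at hcon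
    apply ha
    have h1 : ∀ b : B, inner ℝ (b : EuclideanSpace ℝ (Fin d)) a = 0 := by
      intro b
      obtain ⟨h1, w, hw⟩ := hBmem b
      rcases hort w _ z a h1 hw ha hz with h | ⟨c, hc⟩
      · exact h
      · exfalso
        apply hcon (e b) c
        rw [hc, Equiv.symm_apply_apply]
    have h2 : ∀ x ∈ Submodule.span ℝ B, inner ℝ x a = 0 := by
      intro x hx
      induction hx using Submodule.span_induction with
      | mem x hx => exact h1 ⟨x, hx⟩
      | zero => exact inner_zero_left a
      | add x y _ _ hx hy => rw [inner_add_left, hx, hy, add_zero]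
      | smul r x _ hx => rw [inner_smul_left, hx, mul_zero]
    have h3 := h2 a (by rw [hBspan]; exact Submodule.mem_top)
    exact inner_self_eq_zero.1 h3

end Pool.Agent.Lib.MP_103b79_co
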