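import Mathlib
import Pool.Agent.Lib.MP_103b79_co.Faces

/-!
Edges of a parallelotope: the opposite edge of a two-dimensional face in a given direction.
-/

open Set Module

namespace Pool.Agent.Lib.MP_103b79_co

/-- A parallelotope. -/
def ptope {E : Type*} [NormedAddCommGroup E] [NormedSpace ℝ E] {k : ℕ} (h0 : E) (b : Fin k → E) :
    Set E := {x | ∃ t : Fin k → ℝ, (∀ i, 0 ≤ t i ∧ t i ≤ 1) ∧ x = h0 + ∑ i, t i • b i}

section

variable {E : Type*} [NormedAddCommGroup E] [NormedSpace ℝ E] {k : ℕ}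

/-- the point with coordinates `t` -/
def ppt (h0 : E) (b : Fin k → E) (t : Fin k → ℝ) : E := h0 + ∑ i, t i • b i

private lemma ppt_inj {h0 : E} {b : Fin k → E} (hb : LinearIndependent ℝ b) {t s : Fin k → ℝ}
    (h : ppt h0 b t = ppt h0 b s) : t = s := by
  unfold ppt at h
  have h1 := add_left_cancel h
  have h2 : ∑ i, (t i - s i) • b i = 0 := by
    simp only [sub_smul, Finset.sum_sub_distrib]
    rw [h1, sub_self]
  funext i
  have := Fintype.linearIndependent_iff.1 hb _ h2 i
  linarith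

private lemma ppt_comb {h0 : E} {b : Fin k → E} {α β : ℝ} (h : α + β = 1) (t s : Fin k → ℝ) :
    α • ppt h0 b t + β • ppt h0 b s = ppt h0 b (fun i => α * t i + β * s i) := by
  unfold ppt
  simp only [smul_add, Finset.smul_sum, smul_smul, add_smul, Finset.sum_add_distrib]
  have e : α • h0 + β • h0 = h0 := by rw [← add_smul, h, one_smul]
  calc α • h0 + ∑ i, (α * t i) • b i + (β • h0 + ∑ i, (β * s i) • b i)
      = (α • h0 + β • h0) + (∑ i, (α * t i) • b i + ∑ i, (β * s i) • b i) := by abel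
    _ = _ := by rw [e]

private lemma ppt_update {h0 : E} {b : Fin k → E} (t : Fin k → ℝ) (i : Fin k) (u : ℝ) :
    ppt h0 b (Function.update t i u) = ppt h0 b t + (u - t i) • b i := by
  unfold ppt
  have h1 : ∑ j, (Function.update t i u j - t j) • b j = (u - t i) • b i := by
    rw [Finset.sum_eq_single i]
    · rw [Function.update_self]
    · intro j _ hj
      rw [Function.update_of_ne hj, sub_self, zero_smul]
    · intro h
      exact absurd (Finset.mem_univ i) h
  rw [← h1]
  simp only [sub_smul, Finset.sum_sub_distrib]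
  abel

private lemma update_box {t : Fin k → ℝ} (ht : ∀ i, 0 ≤ t i ∧ t i ≤ 1) (i : Fin k) {u : ℝ}
    (hu0 : 0 ≤ u) (hu1 : u ≤ 1) : ∀ j, 0 ≤ Function.update t i u j ∧ Function.update t i u j ≤ 1 := by
  intro j
  by_cases h : j = i
  · rw [h, Function.update_self]; exact ⟨hu0, hu1⟩
  · rw [Function.update_of_ne h]; exact ht j

/-- A free coordinate of a point of an extreme subset may be moved to `0` and to `1`. -/
private lemma ext_move {h0 : E} {b : Fin k → E} {F : Set E} (hF : IsExtreme ℝ (ptope h0 b) F)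
    {t : Fin k → ℝ} (ht : ∀ i, 0 ≤ t i ∧ t i ≤ 1) (hx : ppt h0 b t ∈ F) (i : Fin k)
    (h0i : 0 < t i) (h1i : t i < 1) :
    ppt h0 b (Function.update t i 0) ∈ F ∧ ppt h0 b (Function.update t i 1) ∈ F := by
  have m0 : ppt h0 b (Function.update t i 0) ∈ ptope h0 b :=
    ⟨_, update_box ht i le_rfl zero_le_one, rfl⟩
  have m1 : ppt h0 b (Function.update t i 1) ∈ ptope h0 b :=
    ⟨_, update_box ht i zero_le_one le_rfl, rfl⟩
  have hcomb : (1 - t i) • ppt h0 b (Function.update t i 0) +
      t i • ppt h0 b (Function.update t i 1) = ppt h0 b t := by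
    rw [ppt_comb (by ring)]
    congr 1
    funext j
    by_cases h : j = i
    · rw [h, Function.update_self, Function.update_self]; ring
    · rw [Function.update_of_ne h, Function.update_of_ne h]; ring
  constructor
  · exact hF.left_mem_of_mem_openSegment m0 m1 hx ⟨1 - t i, t i, by linarith, h0i, by ring, hcomb⟩
  · refine hF.left_mem_of_mem_openSegment m1 m0 hx ⟨t i, 1 - t i, h0i, by linarith, by ring, ?_⟩
    rw [add_comm]; exact hcomb

/-- Edges of a parallelotope. -/
private lemma edge_face {h0 : E} {b : Fin k → E} (hb : LinearIndependent ℝ b) (i0 : Fin k)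
    (s : Fin k → ℝ) (hs : ∀ i, s i = 0 ∨ s i = 1) :
    IsFace (ptope h0 b) (segment ℝ (ppt h0 b s) (ppt h0 b s + (1 - 2 * s i0) • b i0)) := by
  have hsb : ∀ i, 0 ≤ s i ∧ s i ≤ 1 := by
    intro i
    rcases hs i with h | h <;> rw [h] <;> norm_num
  have hseg : ∀ x, x ∈ segment ℝ (ppt h0 b s) (ppt h0 b s + (1 - 2 * s i0) • b i0) ↔
      ∃ u : ℝ, 0 ≤ u ∧ u ≤ 1 ∧ x = ppt h0 b (Function.update s i0 u) := by
    intro x
    rw [segment_eq_image']
    constructor
    · rintro ⟨θ, ⟨hθ0, hθ1⟩, rfl⟩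
      refine ⟨s i0 + θ * (1 - 2 * s i0), ?_, ?_, ?_⟩
      · rcases hs i0 with h | h <;> rw [h] <;> linarith
      · rcases hs i0 with h | h <;> rw [h] <;> linarith
      · rw [ppt_update]
        simp only [add_sub_cancel_left]
        rw [smul_smul]
    · rintro ⟨u, hu0, hu1, rfl⟩
      refine ⟨(1 - 2 * s i0) * (u - s i0), ⟨?_, ?_⟩, ?_⟩
      · rcases hs i0 with h | h <;> rw [h] <;> linarith
      · rcases hs i0 with h | h <;> rw [h] <;> linarith
      · rw [ppt_update]
        simp only [add_sub_cancel_left]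
        rw [smul_smul]
        congr 2
        rcases hs i0 with h | h <;> rw [h] <;> ring
  refine ⟨⟨_, left_mem_segment ℝ _ _⟩, convex_segment _ _, ?_, ?_⟩
  · intro x hx
    obtain ⟨u, hu0, hu1, rfl⟩ := (hseg x).1 hx
    exact ⟨_, update_box hsb i0 hu0 hu1, rfl⟩
  · intro y hy w hw x hx hxs
    obtain ⟨u, hu0, hu1, hxu⟩ := (hseg x).1 hx
    obtain ⟨ty, hty, hy'⟩ := hy
    obtain ⟨tw, htw, hw'⟩ := hw
    obtain ⟨α, β, hα, hβ, hαβ, hcomb⟩ := hxs
    have e1 : ppt h0 b (fun i => α * ty i + β * tw i) = ppt h0 b (Function.update s i0 u) := by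
      rw [← ppt_comb hαβ, ← hxu, ← hcomb, hy', hw']
      rfl
    have e2 := ppt_inj hb e1
    rw [hseg]
    refine ⟨ty i0, (hty i0).1, (hty i0).2, ?_⟩
    rw [hy']
    change ppt h0 b ty = _
    congr 1
    funext j
    by_cases hj : j = i0
    · rw [hj, Function.update_self]
    · rw [Function.update_of_ne hj]
      have e3 := congrFun e2 j
      rw [Function.update_of_ne hj] at e3
      have hy1 := hty j
      have hw1 := htw j
      rcases hs j with h | h
      · rw [h] at e3 ⊢
        have h1 : 0 ≤ α * ty j := mul_nonneg hα.le hy1.1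
        have h2 : 0 ≤ β * tw j := mul_nonneg hβ.le hw1.1
        have h3 : α * ty j = 0 := by linarith
        rcases mul_eq_zero.1 h3 with h4 | h4
        · linarith
        · exact h4
      · rw [h] at e3 ⊢
        have h1 : 0 ≤ α * (1 - ty j) := mul_nonneg hα.le (by linarith [hy1.2])
        have h2 : 0 ≤ β * (1 - tw j) := mul_nonneg hβ.le (by linarith [hw1.2])
        have h3 : α * (1 - ty j) = 0 := by nlinarith
        rcases mul_eq_zero.1 h3 with h4 | h4
        · linarith
        · linarith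

end

/-- TASK 3 -/
theorem ptope_step {E : Type*} [NormedAddCommGroup E] [NormedSpace ℝ E] [FiniteDimensional ℝ E]
    {P G : Set E} {k : ℕ} {h0 : E} {b : Fin k → E} (hP : IsHull P) (hb : LinearIndependent ℝ b)
    (hH : IsFace P (ptope h0 b)) (hG : IsFace P G) (hGH : G ⊆ ptope h0 b) (hG2 : dimOf G = 2)
    {z a : E} (ha : a ≠ 0) (he : IsFace P (segment ℝ z (z + a)))
    (heG : segment ℝ z (z + a) ⊆ G) (c : E →ₗ[ℝ] ℝ) (hca : c a = 0) (hx : ∃ x ∈ G, c z < c x) :
    ∃ z', IsFace P (segment ℝ z' (z' + a)) ∧ c z < c z' := by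
  have heH : segment ℝ z (z + a) ⊆ ptope h0 b := heG.trans hGH
  have hext : IsExtreme ℝ (ptope h0 b) (segment ℝ z (z + a)) := (he.of_subset hH heH).2.2
  obtain ⟨s, hs, hzs⟩ := heH (left_mem_segment ℝ z (z + a))
  obtain ⟨r, hr, hzr⟩ := heH (right_mem_segment ℝ z (z + a))
  have hzs' : z = ppt h0 b s := hzs
  have hzr' : z + a = ppt h0 b r := hzr
  -- points of the edge
  have hpt : ∀ x ∈ segment ℝ z (z + a), ∃ θ : ℝ, 0 ≤ θ ∧ θ ≤ 1 ∧
      x = ppt h0 b (fun i => (1 - θ) * s i + θ * r i) := by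
    intro x hx
    obtain ⟨α, β, hα, hβ, hαβ, rfl⟩ := hx
    refine ⟨β, hβ, by linarith, ?_⟩
    have e : α = 1 - β := by linarith
    rw [e, hzr', hzs', ppt_comb (by ring)]
  -- the midpoint
  obtain ⟨μ, hμ⟩ : ∃ μ : Fin k → ℝ, μ = fun i => (1 / 2) * s i + (1 / 2) * r i := ⟨_, rfl⟩
  have hμb : ∀ i, 0 ≤ μ i ∧ μ i ≤ 1 := by
    intro i
    rw [hμ]
    have := hs i
    have := hr i
    simp only
    constructor <;> linarith
  have hmem : ppt h0 b μ ∈ segment ℝ z (z + a) := by
    refine ⟨1 / 2, 1 / 2, by norm_num, by norm_num, by norm_num, ?_⟩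
    rw [hzr', hzs', ppt_comb (by norm_num), hμ]
  have hmove : ∀ i, 0 < μ i → μ i < 1 → ∃ θ0 θ1 : ℝ, 0 ≤ θ0 ∧ θ0 ≤ 1 ∧ 0 ≤ θ1 ∧ θ1 ≤ 1 ∧
      (∀ j, Function.update μ i 0 j = (1 - θ0) * s j + θ0 * r j) ∧
      (∀ j, Function.update μ i 1 j = (1 - θ1) * s j + θ1 * r j) := by
    intro i h1 h2
    obtain ⟨g1, g2⟩ := ext_move hext hμb hmem i h1 h2
    obtain ⟨θ0, a1, a2, a3⟩ := hpt _ g1
    obtain ⟨θ1, b1, b2, b3⟩ := hpt _ g2
    exact ⟨θ0, θ1, a1, a2, b1, b2, fun j => congrFun (ppt_inj hb a3) j,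
      fun j => congrFun (ppt_inj hb b3) j⟩
  -- the direction of the edge
  obtain ⟨i0, hi0⟩ : ∃ i0, r i0 ≠ s i0 := by
    by_contra hcon
    push Not at hcon
    apply ha
    have : r = s := funext hcon
    rw [this, ← hzs'] at hzr'
    simpa using hzr'
  have hμ0 : 0 < μ i0 ∧ μ i0 < 1 := by
    have h1 := hs i0
    have h2 := hr i0
    rw [hμ]
    simp only
    constructor
    · by_contra hcon
      push Not at hcon
      apply hi0
      linarith
    · by_contra hcon
      push Not at hcon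
      apply hi0
      linarith
  obtain ⟨θ0, θ1, a1, a2, b1, b2, ha0, ha1⟩ := hmove i0 hμ0.1 hμ0.2
  have hp0 := ha0 i0
  have hp1 := ha1 i0
  rw [Function.update_self] at hp0 hp1
  have hprod : (θ1 - θ0) * (r i0 - s i0) = 1 := by linarith
  have hne : θ1 - θ0 ≠ 0 := by
    intro h
    rw [h, zero_mul] at hprod
    norm_num at hprod
  have hrs : ∀ i, i ≠ i0 → r i = s i := by
    intro i hi
    have h1 := ha0 i
    have h2 := ha1 i
    rw [Function.update_of_ne hi] at h1 h2
    have h3 : (θ1 - θ0) * (r i - s i) = 0 := by linarith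
    rcases mul_eq_zero.1 h3 with h4 | h4
    · exact absurd h4 hne
    · linarith
  have hs0 : s i0 = 0 ∨ s i0 = 1 := by
    have h1 := hs i0
    have h2 := hr i0
    by_contra hcon
    push Not at hcon
    have h3 : 0 < s i0 := lt_of_le_of_ne h1.1 (Ne.symm hcon.1)
    have h4 : s i0 < 1 := lt_of_le_of_ne h1.2 hcon.2
    have h5 : |θ1 - θ0| ≤ 1 := abs_le.2 ⟨by linarith, by linarith⟩
    have h6 : |r i0 - s i0| < 1 := abs_lt.2 ⟨by linarith, by linarith⟩
    have h7 : |θ1 - θ0| * |r i0 - s i0| = 1 := by rw [← abs_mul, hprod, abs_one]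
    have h8 := abs_nonneg (r i0 - s i0)
    nlinarith
  have hr0 : r i0 - s i0 = 1 - 2 * s i0 := by
    have h1 := hs i0
    have h2 := hr i0
    have h5 : |θ1 - θ0| ≤ 1 := abs_le.2 ⟨by linarith, by linarith⟩
    have h7 : |θ1 - θ0| * |r i0 - s i0| = 1 := by rw [← abs_mul, hprod, abs_one]
    have h8 := abs_nonneg (r i0 - s i0)
    have h9 : 1 ≤ |r i0 - s i0| := by nlinarith
    rcases hs0 with h | h
    · rw [h, sub_zero] at h9 ⊢
      rw [abs_of_nonneg h2.1] at h9
      linarith
    · rw [h] at h9 ⊢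
      rw [abs_of_nonpos (by linarith)] at h9
      linarith
  have hs1 : ∀ i, s i = 0 ∨ s i = 1 := by
    intro i
    by_cases hi : i = i0
    · rw [hi]; exact hs0
    · have h1 := hs i
      by_contra hcon
      push Not at hcon
      have h3 : 0 < s i := lt_of_le_of_ne h1.1 (Ne.symm hcon.1)
      have h4 : s i < 1 := lt_of_le_of_ne h1.2 hcon.2
      have hri := hrs i hi
      have hμi : μ i = s i := by rw [hμ]; simp only; rw [hri]; ring
      obtain ⟨φ0, φ1, _, _, _, _, g0, _⟩ := hmove i (by rw [hμi]; exact h3) (by rw [hμi]; exact h4)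
      have := g0 i
      rw [Function.update_self, hri] at this
      linarith
  have haeq : a = (1 - 2 * s i0) • b i0 := by
    have h1 : r = Function.update s i0 (r i0) := by
      funext j
      by_cases hj : j = i0
      · rw [hj, Function.update_self]
      · rw [Function.update_of_ne hj]; exact hrs j hj
    have h2 : z + a = z + (r i0 - s i0) • b i0 := by
      rw [hzr', hzs', h1, ppt_update, Function.update_self]
    rw [hr0] at h2
    exact add_left_cancel h2
  have hcb : c (b i0) = 0 := by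
    rw [haeq, map_smul, smul_eq_mul] at hca
    rcases mul_eq_zero.1 hca with h | h
    · exfalso
      rcases hs0 with h' | h' <;> rw [h'] at h <;> norm_num at h
    · exact h
  -- the increasing direction
  obtain ⟨x, hxG, hcx⟩ := hx
  obtain ⟨t, ht, hxt⟩ := hGH hxG
  have hdiff : c x - c z = ∑ i, (t i - s i) * c (b i) := by
    rw [hxt, hzs, map_add, map_add, map_sum, map_sum]
    simp only [map_smul, smul_eq_mul, sub_mul, Finset.sum_sub_distrib]
    ring
  obtain ⟨j, -, hj⟩ : ∃ j ∈ Finset.univ, 0 < (t j - s j) * c (b j) := by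
    apply Finset.exists_lt_of_sum_lt (f := fun _ => (0 : ℝ))
    rw [Finset.sum_const_zero, ← hdiff]
    linarith
  have hji : j ≠ i0 := by
    intro h
    rw [h, hcb, mul_zero] at hj
    exact lt_irrefl _ hj
  have hcv : 0 < (1 - 2 * s j) * c (b j) := by
    have h1 := ht j
    rcases hs1 j with h | h
    · rw [h] at hj ⊢
      have : 0 < c (b j) := by
        by_contra hcon
        push Not at hcon
        have : (t j - 0) * c (b j) ≤ 0 := mul_nonpos_of_nonneg_of_nonpos (by linarith) hcon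
        linarith
      linarith
    · rw [h] at hj ⊢
      have : c (b j) < 0 := by
        by_contra hcon
        push Not at hcon
        have : (t j - 1) * c (b j) ≤ 0 := mul_nonpos_of_nonpos_of_nonneg (by linarith [h1.2]) hcon
        linarith
      linarith
  -- the new edge
  obtain ⟨s', hs'⟩ : ∃ s' : Fin k → ℝ, s' = Function.update s j (1 - s j) := ⟨_, rfl⟩
  have hs'b : ∀ i, s' i = 0 ∨ s' i = 1 := by
    intro i
    rw [hs']
    by_cases hi : i = j
    · rw [hi, Function.update_self]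
      rcases hs1 j with h | h <;> rw [h] <;> norm_num
    · rw [Function.update_of_ne hi]; exact hs1 i
  have hs'0 : s' i0 = s i0 := by rw [hs', Function.update_of_ne (Ne.symm hji)]
  refine ⟨ppt h0 b s', ?_, ?_⟩
  · have hface := edge_face (h0 := h0) hb i0 s' hs'b
    rw [hs'0, ← haeq] at hface
    exact hH.trans hface
  · rw [hs', ppt_update, ← hzs', map_add, map_smul, smul_eq_mul]
    have : (1 - s j - s j) * c (b j) = (1 - 2 * s j) * c (b j) := by ring
    linarith

end Pool.Agent.Lib.MP_103b79_co
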