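import Mathlib
import Pool.Agent.Lib.MP_103b79_co.Ptope
import Pool.Agent.Lib.MP_103b79_co.Improve
import Pool.Agent.Lib.MP_103b79_co.SimpleVertex

open Set Module

namespace Pool.Agent.Lib.MP_103b79_co

private lemma max_vertex {E : Type*} [NormedAddCommGroup E] [NormedSpace ℝ E] [FiniteDimensional ℝ E]
    {P : Set E} (hP : IsHull P) (hne : P.Nonempty) (c : E →ₗ[ℝ] ℝ) :
    ∃ w ∈ P.extremePoints ℝ, ∀ y ∈ P, c y ≤ c w := by
  have hfin := hP.finite_ext
  have hne' : (P.extremePoints ℝ).Nonempty := by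
    by_contra h
    rw [Set.not_nonempty_iff_eq_empty] at h
    have := hP.hull_ext
    rw [h, convexHull_empty] at this
    rw [this] at hne
    exact Set.not_nonempty_empty hne
  obtain ⟨w, hw, hmax⟩ := Set.exists_max_image _ c hfin hne'
  refine ⟨w, hw, fun y hy => ?_⟩
  have h1 : convexHull ℝ (P.extremePoints ℝ) ⊆ {y | c y ≤ c w} :=
    convexHull_min hmax (convex_halfSpace_le c.isLinear _)
  rw [hP.hull_ext] at hy
  exact h1 hy

/-- an edge at the vertex `w` along which `f` increases -/
private lemma edge_up {E : Type*} [NormedAddCommGroup E] [NormedSpace ℝ E] [FiniteDimensional ℝ E]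
    {P : Set E} (hP : IsHull P) {w : E} (hw : w ∈ P.extremePoints ℝ) (f : E →ₗ[ℝ] ℝ)
    (h : ∃ y ∈ P, f w < f y) :
    ∃ a : E, a ≠ 0 ∧ IsFace P (segment ℝ w (w + a)) ∧ 0 < f a ∧ w + a ∈ P := by
  have hG : IsFace P {w} := ⟨⟨w, rfl⟩, convex_singleton w, isExtreme_singleton.2 hw⟩
  obtain ⟨R, hR, hwR, hdim, y, hyR, hy⟩ := hP.improve hG f (f w) (fun x hx => by rw [hx]) h
  have hd0 : dimOf ({w} : Set E) = 0 := by
    unfold dimOf
    rw [vectorSpan_singleton]
    exact finrank_bot ℝ E
  rw [hd0] at hdim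
  have hRh : IsHull R := hP.face hR
  obtain ⟨v, hv, hvm⟩ := max_vertex hRh ⟨y, hyR⟩ f
  have hfv : f w < f v := hy.trans_le (hvm y hyR)
  have hvP : v ∈ P.extremePoints ℝ := hR.2.2.extremePoints_subset_extremePoints hv
  have hne : w ≠ v := fun hh => by rw [hh] at hfv; exact lt_irrefl _ hfv
  have hseg := edge_segment hR (by omega) hw hvP (hwR rfl) hv.1 hne
  refine ⟨v - w, sub_ne_zero.2 hne.symm, ?_, ?_, ?_⟩
  · rw [add_sub_cancel, ← hseg]
    exact hR
  · rw [map_sub]
    linarith
  · rw [add_sub_cancel]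
    exact hvP.1

theorem box_of_axes {d : ℕ} {P : Set (EuclideanSpace ℝ (Fin d))} (hP : IsHull P)
    (hPd : dimOf P = d) (hne : P.Nonempty) {u : Fin d → EuclideanSpace ℝ (Fin d)}
    (hu0 : ∀ i, u i ≠ 0) (huo : ∀ i j, i ≠ j → inner ℝ (u i) (u j) = 0)
    (hedge : ∀ z a : EuclideanSpace ℝ (Fin d), a ≠ 0 → IsFace P (segment ℝ z (z + a)) →
        ∃ (i : Fin d) (c : ℝ), a = c • u i) :
    ∃ (p : EuclideanSpace ℝ (Fin d)) (b : Fin d → EuclideanSpace ℝ (Fin d)),
      (∀ i, b i ≠ 0) ∧ (∀ i j, i ≠ j → inner ℝ (b i) (b j) = 0) ∧ P = ptope p b := by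
  classical
  -- coordinates
  set f : Fin d → (EuclideanSpace ℝ (Fin d) →ₗ[ℝ] ℝ) := fun i => (‖u i‖ ^ 2)⁻¹ • (innerSL ℝ (u i)).toLinearMap with hf
  have hfa : ∀ i x, f i x = (‖u i‖ ^ 2)⁻¹ * inner ℝ (u i) x := fun i x => rfl
  have hnorm : ∀ i, ‖u i‖ ≠ 0 := fun i => norm_ne_zero_iff.2 (hu0 i)
  have hfu : ∀ i, f i (u i) = 1 := fun i => by
    rw [hfa, real_inner_self_eq_norm_sq]
    exact inv_mul_cancel₀ (pow_ne_zero 2 (hnorm i))
  have hfo : ∀ i j, i ≠ j → f i (u j) = 0 := fun i j h => by rw [hfa, huo i j h, mul_zero]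
  have hon : Orthonormal ℝ (fun i => (‖u i‖⁻¹ : ℝ) • u i) := by
    refine ⟨fun i => ?_, fun i j h => ?_⟩
    · rw [norm_smul, norm_inv, norm_norm, inv_mul_cancel₀ (hnorm i)]
    · show inner ℝ ((‖u i‖⁻¹ : ℝ) • u i) ((‖u j‖⁻¹ : ℝ) • u j) = 0
      rw [real_inner_smul_left, real_inner_smul_right, huo i j h, mul_zero, mul_zero]
  have hexp : ∀ x : EuclideanSpace ℝ (Fin d), x = ∑ i, f i x • u i := by
    intro x
    rcases Nat.eq_zero_or_pos d with hd | hd
    · subst hd
      exact Subsingleton.elim _ _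
    · have : Nonempty (Fin d) := ⟨⟨0, hd⟩⟩
      have hcard : Fintype.card (Fin d) = finrank ℝ (EuclideanSpace ℝ (Fin d)) := by simp
      have hspan : ⊤ ≤ Submodule.span ℝ (Set.range fun i => (‖u i‖⁻¹ : ℝ) • u i) := by
        rw [hon.linearIndependent.span_eq_top_of_card_eq_finrank hcard]
      have h1 := (OrthonormalBasis.mk hon hspan).sum_repr' x
      rw [OrthonormalBasis.coe_mk] at h1
      conv_lhs => rw [← h1]
      refine Finset.sum_congr rfl fun i _ => ?_
      rw [smul_smul, real_inner_smul_left, hfa]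
      congr 1
      have := hnorm i
      field_simp
  -- extreme values
  have hmax : ∀ i, ∃ w ∈ P, ∀ y ∈ P, f i y ≤ f i w := fun i => by
    obtain ⟨w, hw, h⟩ := max_vertex hP hne (f i)
    exact ⟨w, hw.1, h⟩
  have hmin : ∀ i, ∃ w ∈ P, ∀ y ∈ P, f i w ≤ f i y := fun i => by
    obtain ⟨w, hw, h⟩ := max_vertex hP hne (-(f i))
    exact ⟨w, hw.1, fun y hy => by
      have := h y hy
      simp only [LinearMap.neg_apply] at this
      linarith⟩
  choose wM hM1 hM2 using hmax
  choose wm hm1 hm2 using hmin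
  have hlt : ∀ i, f i (wm i) < f i (wM i) := by
    intro i
    by_contra hcon
    have hconst : ∀ x ∈ P, f i x = f i (wm i) := fun x hx =>
      le_antisymm ((hM2 i x hx).trans (not_lt.1 hcon)) (hm2 i x hx)
    have hle : vectorSpan ℝ P ≤ LinearMap.ker (f i) := by
      rw [vectorSpan_def, Submodule.span_le]
      rintro _ ⟨y, hy, z, hz, rfl⟩
      simp only [SetLike.mem_coe, LinearMap.mem_ker]
      rw [vsub_eq_sub, map_sub, hconst y hy, hconst z hz, sub_self]
    have htop : vectorSpan ℝ P = ⊤ := by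
      apply Submodule.eq_top_of_finrank_eq
      rw [finrank_euclideanSpace, Fintype.card_fin]
      exact hPd
    have h1 : u i ∈ vectorSpan ℝ P := by rw [htop]; exact Submodule.mem_top
    have h2 := hle h1
    rw [LinearMap.mem_ker, hfu] at h2
    exact one_ne_zero h2
  refine ⟨∑ i, f i (wm i) • u i, fun i => (f i (wM i) - f i (wm i)) • u i, fun i => ?_, fun i j h => ?_, ?_⟩
  · exact smul_ne_zero (sub_pos.2 (hlt i)).ne' (hu0 i)
  · rw [real_inner_smul_left, real_inner_smul_right, huo i j h, mul_zero, mul_zero]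
  · apply Subset.antisymm
    · intro x hx
      refine ⟨fun i => (f i x - f i (wm i)) / (f i (wM i) - f i (wm i)), fun i => ⟨?_, ?_⟩, ?_⟩
      · exact div_nonneg (sub_nonneg.2 (hm2 i x hx)) (sub_pos.2 (hlt i)).le
      · rw [div_le_one (sub_pos.2 (hlt i))]
        linarith [hM2 i x hx]
      · rw [← Finset.sum_add_distrib]
        conv_lhs => rw [hexp x]
        refine Finset.sum_congr rfl fun i _ => ?_
        rw [smul_smul, div_mul_cancel₀ _ (sub_pos.2 (hlt i)).ne', ← add_smul, add_sub_cancel]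
    · rintro x ⟨t, ht, hx⟩
      have hfx : ∀ i, f i x = f i (wm i) + t i * (f i (wM i) - f i (wm i)) := by
        intro i
        rw [hx, map_add, map_sum, map_sum]
        rw [Finset.sum_eq_single i, Finset.sum_eq_single i]
        · rw [map_smul, map_smul, map_smul, hfu, smul_eq_mul, smul_eq_mul, smul_eq_mul]
          ring
        · intro j _ hj
          rw [map_smul, map_smul, hfo i j (Ne.symm hj), smul_zero, smul_zero]
        · intro h; exact absurd (Finset.mem_univ i) h
        · intro j _ hj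
          rw [map_smul, hfo i j (Ne.symm hj), smul_zero]
        · intro h; exact absurd (Finset.mem_univ i) h
      by_contra hxP
      obtain ⟨V, hV, hPV⟩ := id hP
      have hcl : IsClosed P := by
        rw [hPV]
        exact hV.isClosed_convexHull ℝ
      have hcv : Convex ℝ P := by
        rw [hPV]
        exact convex_convexHull ℝ V
      obtain ⟨c, s, hc1, hc2⟩ := geometric_hahn_banach_closed_point hcv hcl hxP
      obtain ⟨w, hw, hwm⟩ := max_vertex hP hne (c.toLinearMap : EuclideanSpace ℝ (Fin d) →ₗ[ℝ] ℝ)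
      have hwm' : ∀ y ∈ P, c y ≤ c w := hwm
      have hcx : c w < c x := (hc1 w hw.1).trans hc2
      have e1 : ∀ y, c y = ∑ i, f i y * c (u i) := by
        intro y
        conv_lhs => rw [hexp y]
        rw [map_sum]
        refine Finset.sum_congr rfl fun i _ => ?_
        rw [map_smul, smul_eq_mul]
      rw [e1 w, e1 x] at hcx
      obtain ⟨i, _, hi⟩ := Finset.exists_lt_of_sum_lt hcx
      rcases lt_trichotomy (c (u i)) 0 with h0 | h0 | h0
      · -- decrease the coordinate
        have h1 : f i x < f i w := by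
          by_contra hcon
          have := mul_le_mul_of_nonpos_right (not_lt.1 hcon) h0.le
          linarith
        have h2 : f i (wm i) ≤ f i x := by
          rw [hfx i]
          have := mul_nonneg (ht i).1 (sub_pos.2 (hlt i)).le
          linarith
        obtain ⟨a, ha, haf, hfa', haP⟩ := edge_up hP hw (-(f i)) ⟨wm i, hm1 i, by
          simp only [LinearMap.neg_apply]
          linarith⟩
        obtain ⟨j, r, hj⟩ := hedge w a ha haf
        simp only [LinearMap.neg_apply] at hfa'
        by_cases hij : i = j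
        · subst hij
          rw [hj, map_smul, hfu, smul_eq_mul, mul_one] at hfa'
          have h3 := hwm' _ haP
          rw [map_add, hj, map_smul, smul_eq_mul] at h3
          have h4 : 0 < r * c (u i) := mul_pos_of_neg_of_neg (by linarith) h0
          linarith
        · rw [hj, map_smul, hfo i j hij, smul_zero, neg_zero] at hfa'
          exact lt_irrefl _ hfa'
      · rw [h0, mul_zero, mul_zero] at hi
        exact lt_irrefl _ hi
      · have h1 : f i w < f i x := lt_of_mul_lt_mul_right hi h0.le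
        have h2 : f i x ≤ f i (wM i) := by
          rw [hfx i]
          have := mul_le_mul_of_nonneg_right (ht i).2 (sub_pos.2 (hlt i)).le
          linarith
        obtain ⟨a, ha, haf, hfa', haP⟩ := edge_up hP hw (f i) ⟨wM i, hM1 i, by linarith⟩
        obtain ⟨j, r, hj⟩ := hedge w a ha haf
        by_cases hij : i = j
        · subst hij
          rw [hj, map_smul, hfu, smul_eq_mul, mul_one] at hfa'
          have h3 := hwm' _ haP
          rw [map_add, hj, map_smul, smul_eq_mul] at h3
          have h4 : 0 < r * c (u i) := mul_pos hfa' h0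
          linarith
        · rw [hj, map_smul, hfo i j hij, smul_zero] at hfa'
          exact lt_irrefl _ hfa'

end Pool.Agent.Lib.MP_103b79_co
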