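import Mathlib
import Pool.Agent.Lib.MP_103b79_co.Faces
import Pool.Agent.Lib.MP_103b79_co.Ptope

open Set Module

namespace Pool.Agent.Lib.MP_103b79_co

section

variable {E : Type*} [NormedAddCommGroup E] [NormedSpace ℝ E]

lemma isom_add (g : E ≃ᵢ E) (v : E) :
    g v = g 0 + g.toRealAffineIsometryEquiv.linearIsometryEquiv v := by
  have h := g.toRealAffineIsometryEquiv.map_vadd 0 v
  rw [vadd_eq_add, vadd_eq_add, add_zero] at h
  rw [IsometryEquiv.coeFn_toRealAffineIsometryEquiv] at h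
  rw [h, add_comm]

/-- The symmetries of a polytope have a common fixed point. -/
lemma exists_fixed [FiniteDimensional ℝ E] {P : Set E} (hP : IsHull P) (hne : P.Nonempty) :
    ∃ c0 : E, ∀ g : E ≃ᵢ E, g '' P = P → g c0 = c0 := by
  classical
  have hfin := hP.finite_ext
  set V := hfin.toFinset with hV
  have hVne : V.Nonempty := by
    rw [hV, Set.Finite.toFinset_nonempty]
    by_contra hcon
    rw [not_nonempty_iff_eq_empty] at hcon
    have h1 := hP.hull_ext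
    rw [hcon, convexHull_empty] at h1
    exact hne.ne_empty h1
  have hcard : (V.card : ℝ) ≠ 0 := by
    rw [Nat.cast_ne_zero]
    exact (Finset.card_pos.2 hVne).ne'
  refine ⟨(V.card : ℝ)⁻¹ • ∑ v ∈ V, v, fun g hg => ?_⟩
  set L := g.toRealAffineIsometryEquiv.linearIsometryEquiv with hL
  have hmap : ∀ v ∈ V, g v ∈ V := by
    intro v hv
    rw [hV, Set.Finite.mem_toFinset] at hv ⊢
    have h1 := (vertex_face hv).map hg
    rw [image_singleton] at h1
    exact h1.2.2.mem_extremePoints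
  have himg : V.image g = V := by
    apply Finset.eq_of_subset_of_card_le
    · intro y hy
      obtain ⟨v, hv, rfl⟩ := Finset.mem_image.1 hy
      exact hmap v hv
    · rw [Finset.card_image_of_injective _ g.injective]
  have h1 : ∑ v ∈ V, g v = ∑ v ∈ V, v := by
    conv_rhs => rw [← himg]
    rw [Finset.sum_image (fun a _ b _ hab => g.injective hab)]
  have h2 : ∑ v ∈ V, g v = (V.card : ℝ) • g 0 + L (∑ v ∈ V, v) := by
    rw [map_sum, Finset.sum_congr rfl (fun v _ => isom_add g v), Finset.sum_add_distrib,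
      Finset.sum_const, ← Nat.cast_smul_eq_nsmul ℝ]
  rw [isom_add, ← hL, map_smul]
  have h3 : L (∑ v ∈ V, v) = ∑ v ∈ V, v - (V.card : ℝ) • g 0 := by
    rw [eq_sub_iff_add_eq, add_comm, ← h2, h1]
  rw [h3, smul_sub, smul_smul, inv_mul_cancel₀ hcard, one_smul]
  abel

lemma ptope_symm {k : ℕ} {h : E} {b : Fin k → E} {x : E} (hx : x ∈ ptope h b) :
    (2 : ℝ) • (h + (1 / 2 : ℝ) • ∑ i, b i) - x ∈ ptope h b := by
  obtain ⟨t, ht, rfl⟩ := hx
  refine ⟨fun i => 1 - t i, fun i => ⟨by linarith [(ht i).2], by linarith [(ht i).1]⟩, ?_⟩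
  simp only [sub_smul, one_smul, Finset.sum_sub_distrib]
  module

lemma ptope_center {k : ℕ} {P : Set E} (hbd : ∃ R : ℝ, ∀ x ∈ P, ‖x‖ ≤ R) {h0 h1 : E}
    {b b' : Fin k → E} (hsub : ptope h1 b' ⊆ P) {g : E ≃ᵢ E}
    (hg : g '' ptope h0 b = ptope h1 b') :
    g (h0 + (1 / 2 : ℝ) • ∑ i, b i) = h1 + (1 / 2 : ℝ) • ∑ i, b' i := by
  set m0 := h0 + (1 / 2 : ℝ) • ∑ i, b i with hm0
  set m1 := h1 + (1 / 2 : ℝ) • ∑ i, b' i with hm1
  set L := g.toRealAffineIsometryEquiv.linearIsometryEquiv with hL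
  have hrefl : ∀ x, g ((2 : ℝ) • m0 - x) = (2 : ℝ) • g m0 - g x := by
    intro x
    rw [isom_add g ((2 : ℝ) • m0 - x), isom_add g m0, isom_add g x, ← hL, map_sub, map_smul]
    module
  have hs0 : ∀ y ∈ ptope h1 b', (2 : ℝ) • g m0 - y ∈ ptope h1 b' := by
    intro y hy
    rw [← hg] at hy ⊢
    obtain ⟨x, hx, rfl⟩ := hy
    rw [← hrefl]
    exact mem_image_of_mem g (ptope_symm hx)
  have hs1 : ∀ y ∈ ptope h1 b', (2 : ℝ) • m1 - y ∈ ptope h1 b' := fun y hy => ptope_symm hy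
  set t := (2 : ℝ) • (m1 - g m0) with ht
  have htr : ∀ y ∈ ptope h1 b', y + t ∈ ptope h1 b' := by
    intro y hy
    have h2 := hs1 _ (hs0 y hy)
    have h3 : (2 : ℝ) • m1 - ((2 : ℝ) • g m0 - y) = y + t := by
      rw [ht]
      module
    rwa [h3] at h2
  have hit : ∀ n : ℕ, ∀ y ∈ ptope h1 b', y + (n : ℝ) • t ∈ ptope h1 b' := by
    intro n
    induction n with
    | zero => intro y hy; simpa using hy
    | succ n ih =>
      intro y hy
      have h2 := htr _ (ih y hy)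
      have h3 : y + (n : ℝ) • t + t = y + ((n + 1 : ℕ) : ℝ) • t := by
        push_cast
        module
      rwa [h3] at h2
  have hmem : h1 ∈ ptope h1 b' := ⟨fun _ => 0, fun _ => ⟨le_rfl, zero_le_one⟩, by simp⟩
  obtain ⟨R, hR⟩ := hbd
  have ht0 : t = 0 := by
    by_contra hcon
    have hpos : 0 < ‖t‖ := norm_pos_iff.2 hcon
    obtain ⟨n, hn⟩ := exists_nat_gt ((R + ‖h1‖) / ‖t‖)
    rw [div_lt_iff₀ hpos] at hn
    have h2 := hR _ (hsub (hit n h1 hmem))
    have h3 : ‖(n : ℝ) • t‖ ≤ ‖h1 + (n : ℝ) • t‖ + ‖h1‖ := by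
      have h4 : (n : ℝ) • t = (h1 + (n : ℝ) • t) - h1 := by abel
      conv_lhs => rw [h4]
      exact norm_sub_le _ _
    rw [norm_smul, Real.norm_natCast] at h3
    linarith
  rw [ht, smul_eq_zero] at ht0
  rcases ht0 with h2 | h2
  · norm_num at h2
  · exact (sub_eq_zero.1 h2).symm

end

theorem center_dist {d k : ℕ} {P : Set (EuclideanSpace ℝ (Fin d))} (hP : IsHull P)
    (hne : P.Nonempty) (hk : FaceTransitive k P) :
    ∃ c0 : EuclideanSpace ℝ (Fin d), ∀ (h0 h1 : EuclideanSpace ℝ (Fin d))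
      (b b' : Fin k → EuclideanSpace ℝ (Fin d)),
      IsFace P (ptope h0 b) → dimOf (ptope h0 b) = k →
      IsFace P (ptope h1 b') → dimOf (ptope h1 b') = k →
      ‖h0 + (1 / 2 : ℝ) • ∑ i, b i - c0‖ = ‖h1 + (1 / 2 : ℝ) • ∑ i, b' i - c0‖ := by
  obtain ⟨c0, hc0⟩ := exists_fixed hP hne
  refine ⟨c0, ?_⟩
  intro h0 h1 b b' hF hFk hF' hF'k
  obtain ⟨g, hgP, hgF⟩ := hk _ _ hF hFk hF' hF'k
  have hbd : ∃ R : ℝ, ∀ x ∈ P, ‖x‖ ≤ R := by
    obtain ⟨V, hV, rfl⟩ := hP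
    have h2 : Bornology.IsBounded (convexHull ℝ V) := isBounded_convexHull.2 hV.isBounded
    obtain ⟨R, hR⟩ := h2.exists_norm_le
    exact ⟨R, hR⟩
  have h3 := ptope_center hbd hF'.subset hgF
  rw [← h3, ← dist_eq_norm, ← dist_eq_norm]
  conv_rhs => rw [← hc0 g hgP]
  rw [g.dist_eq]

end Pool.Agent.Lib.MP_103b79_co
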