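import Mathlib
import Pool.Agent.Lib.MP_103b79_co.Faces

/-!
Two edge directions of a polytope all of whose edges can be moved to the top: a common face.
-/

open Set Module

namespace Pool.Agent.Lib.MP_103b79_co

/-- A functional that vanishes on a subspace and not at finitely many vectors off it. -/
theorem exists_functional_avoid {E : Type*} [AddCommGroup E] [Module ℝ E] (W : Submodule ℝ E)
    {ι : Type*} [Finite ι] (v : ι → E) (hv : ∀ i, v i ∉ W) :
    ∃ c : E →ₗ[ℝ] ℝ, (∀ x ∈ W, c x = 0) ∧ ∀ i, c (v i) ≠ 0 := by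
  obtain ⟨f, hf⟩ := Module.exists_dual_forall_apply_ne_zero (K := ℝ) (fun i => W.mkQ (v i))
    (fun i h => hv i (by rwa [Submodule.mkQ_apply, Submodule.Quotient.mk_eq_zero] at h))
  refine ⟨f ∘ₗ W.mkQ, fun x hx => ?_, fun i => hf i⟩
  rw [LinearMap.comp_apply, Submodule.mkQ_apply, (Submodule.Quotient.mk_eq_zero W).2 hx, map_zero]

/-- The set where a functional takes its largest value is a face. -/
theorem max_face {E : Type*} [NormedAddCommGroup E] [NormedSpace ℝ E] {P : Set E}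
    (hP : Convex ℝ P) (c : E →ₗ[ℝ] ℝ) (γ : ℝ) (hle : ∀ x ∈ P, c x ≤ γ) (hne : ∃ x ∈ P, c x = γ) :
    IsFace P {x ∈ P | c x = γ} := by
  refine ⟨hne, hP.inter (convex_hyperplane c.isLinear γ), fun x hx => hx.1, ?_⟩
  intro y hy z hz x hx hseg
  obtain ⟨a, b, ha, hb, hab, rfl⟩ := hseg
  refine ⟨hy, ?_⟩
  have h1 := hle y hy
  have h2 := hle z hz
  have h3 : a * c y + b * c z = γ := by
    have := hx.2
    simpa using this
  have hb' : b = 1 - a := by linarith
  by_contra hne'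
  have h4 : c y < γ := lt_of_le_of_ne h1 hne'
  have h5 := mul_pos ha (sub_pos.2 h4)
  have h6 := mul_nonneg hb.le (sub_nonneg.2 h2)
  have h7 : (a + b) * γ = γ := by rw [hab, one_mul]
  linarith [mul_sub a γ (c y), mul_sub b γ (c z), add_mul a b γ]

theorem common_face {E : Type*} [NormedAddCommGroup E] [NormedSpace ℝ E] [FiniteDimensional ℝ E]
    {P : Set E} (hP : IsHull P)
    (hZ : ∀ z a : E, a ≠ 0 → IsFace P (segment ℝ z (z + a)) → ∀ c : E →ₗ[ℝ] ℝ, c a = 0 →
      ∃ z', IsFace P (segment ℝ z' (z' + a)) ∧ ∀ x ∈ P, c x ≤ c z')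
    {z a w a' : E} (ha : a ≠ 0) (hza : IsFace P (segment ℝ z (z + a)))
    (ha' : a' ≠ 0) (hwa : IsFace P (segment ℝ w (w + a'))) :
    ∃ (T : Set E) (z' w' : E), IsFace P T ∧ dimOf T ≤ 2 ∧
      IsFace P (segment ℝ z' (z' + a)) ∧ segment ℝ z' (z' + a) ⊆ T ∧
      IsFace P (segment ℝ w' (w' + a')) ∧ segment ℝ w' (w' + a') ⊆ T := by
  classical
  set W : Submodule ℝ E := Submodule.span ℝ {a, a'} with hW
  have haW : a ∈ W := Submodule.subset_span (by simp)
  have haW' : a' ∈ W := Submodule.subset_span (by simp)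
  have hfin : {p : E × E | p.1 ∈ P.extremePoints ℝ ∧ p.2 ∈ P.extremePoints ℝ ∧
      p.1 - p.2 ∉ W}.Finite := by
    refine (hP.finite_ext.prod hP.finite_ext).subset ?_
    rintro p ⟨h1, h2, -⟩
    exact ⟨h1, h2⟩
  have : Finite {p : E × E | p.1 ∈ P.extremePoints ℝ ∧ p.2 ∈ P.extremePoints ℝ ∧
      p.1 - p.2 ∉ W} := hfin
  obtain ⟨c, hc0, hc1⟩ := exists_functional_avoid W
    (fun p : {p : E × E | p.1 ∈ P.extremePoints ℝ ∧ p.2 ∈ P.extremePoints ℝ ∧
      p.1 - p.2 ∉ W} => p.1.1 - p.1.2) (fun p => p.2.2.2)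
  obtain ⟨z', hz', hzmax⟩ := hZ z a ha hza c (hc0 a haW)
  obtain ⟨w', hw', hwmax⟩ := hZ w a' ha' hwa c (hc0 a' haW')
  have hzP : z' ∈ P := hz'.subset (left_mem_segment ℝ _ _)
  have hzP' : z' + a ∈ P := hz'.subset (right_mem_segment ℝ _ _)
  have hwP : w' ∈ P := hw'.subset (left_mem_segment ℝ _ _)
  have hwP' : w' + a' ∈ P := hw'.subset (right_mem_segment ℝ _ _)
  have hzw : c w' = c z' := le_antisymm (hzmax w' hwP) (hwmax z' hzP)
  have hPc : Convex ℝ P := by
    rw [hP.hull_ext]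
    exact convex_convexHull ℝ _
  have hT := max_face hPc c (c z') hzmax ⟨z', hzP, rfl⟩
  refine ⟨{x ∈ P | c x = c z'}, z', w', hT, ?_, hz', ?_, hw', ?_⟩
  · have hT' : IsExtreme ℝ (convexHull ℝ (P.extremePoints ℝ)) {x ∈ P | c x = c z'} := by
      rw [← hP.hull_ext]
      exact hT.2.2
    have h1 := extreme_eq_hull (P.extremePoints ℝ) _ hT.2.1 hT'
    have h2 : vectorSpan ℝ {x ∈ P | c x = c z'} ≤ W := by
      rw [h1, vectorSpan_hull, vectorSpan_def, Submodule.span_le]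
      rintro _ ⟨x, hx, y, hy, rfl⟩
      change x - y ∈ W
      by_contra hcon
      have h3 := hc1 ⟨(x, y), hx.1, hy.1, hcon⟩
      apply h3
      change c (x - y) = 0
      rw [map_sub, hx.2.2, hy.2.2, sub_self]
    calc dimOf {x ∈ P | c x = c z'} = finrank ℝ (vectorSpan ℝ {x ∈ P | c x = c z'}) := rfl
      _ ≤ finrank ℝ W := Submodule.finrank_mono h2
      _ ≤ 2 := by
          have h3 := finrank_span_le_card (R := ℝ) ({a, a'} : Set E)
          refine h3.trans ?_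
          rw [Set.toFinset_insert, Set.toFinset_singleton]
          exact Finset.card_le_two
  · refine hT.2.1.segment_subset ⟨hzP, rfl⟩ ⟨hzP', ?_⟩
    rw [map_add, hc0 a haW, add_zero]
  · refine hT.2.1.segment_subset ⟨hwP, hzw⟩ ⟨hwP', ?_⟩
    rw [map_add, hc0 a' haW', add_zero, hzw]

end Pool.Agent.Lib.MP_103b79_co
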