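import Mathlib
import Pool.Agent.Lib.MP_103b79_co.Faces

open Set Module

namespace Pool.Agent.Lib.MP_103b79_co

section Cube

variable {E : Type*} [NormedAddCommGroup E] [NormedSpace ℝ E] {m : ℕ} {P : Set E}
  {x : Finset (Fin m) → E}

/-- `x` labels the vertices of a face of `P` that is a combinatorial `m`-dimensional cube: the
points `x R` (`R` a subset of `{1, …, m}`) are distinct and, for `S ⊆ T`, the convex hull of the
`x R` with `S ⊆ R ⊆ T` is a face of `P` of dimension `|T \ S|`. -/
def CubeFace (P : Set E) (x : Finset (Fin m) → E) : Prop :=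
  Function.Injective x ∧ ∀ S T : Finset (Fin m), S ⊆ T →
    IsFace P (convexHull ℝ (x '' Icc S T)) ∧
      dimOf (convexHull ℝ (x '' Icc S T)) = (T \ S).card

lemma CubeFace.vertex (h : CubeFace P x) (R : Finset (Fin m)) : x R ∈ P.extremePoints ℝ := by
  have h1 := (h.2 R R (Finset.Subset.refl R)).1.2.2
  rw [Icc_self, image_singleton, convexHull_singleton] at h1
  exact h1.mem_extremePoints

lemma CubeFace.mem_iff (h : CubeFace P x) {S T R : Finset (Fin m)} (hST : S ⊆ T) :
    x R ∈ convexHull ℝ (x '' Icc S T) ↔ S ⊆ R ∧ R ⊆ T := by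
  constructor
  · intro hR
    have h1 : x R ∈ (convexHull ℝ (x '' Icc S T)).extremePoints ℝ :=
      inter_extremePoints_subset_extremePoints_of_subset (h.2 S T hST).1.2.2.subset
        ⟨hR, h.vertex R⟩
    obtain ⟨R', hR', heq⟩ := extremePoints_convexHull_subset h1
    have := h.1 heq
    subst this
    exact hR'
  · intro hR
    exact subset_convexHull ℝ _ ⟨R, hR, rfl⟩

variable [FiniteDimensional ℝ E]

lemma mem_of_vectorSpan {P F : Set E} (hP : IsHull P) (hF : IsFace P F) {y x0 : E} (hx0 : x0 ∈ F)
    (hy : y ∈ P) (h : y - x0 ∈ vectorSpan ℝ F) : y ∈ F := by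
  obtain ⟨l, c, h1, h2⟩ := hP.exposed hF
  rw [← h2 y hy]
  have hker : vectorSpan ℝ F ≤ LinearMap.ker l := by
    rw [vectorSpan_def, Submodule.span_le]
    rintro _ ⟨y, hy, z, hz, rfl⟩
    simp only [SetLike.mem_coe, LinearMap.mem_ker]
    rw [vsub_eq_sub, map_sub, (h2 y (hF.subset hy)).2 hy, (h2 z (hF.subset hz)).2 hz, sub_self]
  have h3 := hker h
  rw [LinearMap.mem_ker, map_sub, (h2 x0 (hF.subset hx0)).2 hx0] at h3
  linarith

/-- The edge vectors at `x A` are linearly independent. -/
lemma CubeFace.linIndep (hP : IsHull P) (h : CubeFace P x) (A : Finset (Fin m)) :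
    ∀ T : Finset (Fin m), Disjoint A T →
      LinearIndepOn ℝ (fun j => x (insert j A) - x A) (T : Set (Fin m)) := by
  intro T
  induction T using Finset.induction_on with
  | empty => intro _; simp
  | insert a T haT ih =>
    intro hdis
    rw [Finset.disjoint_insert_right] at hdis
    rw [Finset.coe_insert]
    apply (ih hdis.2).insert
    intro hmem
    have hsub : Submodule.span ℝ ((fun j => x (insert j A) - x A) '' (T : Set (Fin m))) ≤
        vectorSpan ℝ (convexHull ℝ (x '' Icc A (A ∪ T))) := by
      rw [Submodule.span_le]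
      rintro _ ⟨j, hj, rfl⟩
      have hj' : j ∈ T := hj
      refine vsub_mem_vectorSpan ℝ ?_ ?_
      · rw [h.mem_iff Finset.subset_union_left]
        refine ⟨Finset.subset_insert _ _, ?_⟩
        exact Finset.insert_subset (Finset.mem_union_right _ hj') Finset.subset_union_left
      · rw [h.mem_iff Finset.subset_union_left]
        exact ⟨Finset.Subset.refl _, Finset.subset_union_left⟩
    have h1 := mem_of_vectorSpan hP (h.2 A (A ∪ T) Finset.subset_union_left).1
      ((h.mem_iff Finset.subset_union_left).2 ⟨Finset.Subset.refl _, Finset.subset_union_left⟩)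
      (h.vertex (insert a A)).1 (hsub hmem)
    rw [h.mem_iff Finset.subset_union_left] at h1
    have h2 := h1.2 (Finset.mem_insert_self a A)
    rw [Finset.mem_union] at h2
    exact h2.elim hdis.1 haT

lemma CubeFace.span_eq (hP : IsHull P) (h : CubeFace P x) (A T : Finset (Fin m))
    (hAT : Disjoint A T) :
    Submodule.span ℝ ((fun j => x (insert j A) - x A) '' (T : Set (Fin m))) =
      vectorSpan ℝ (convexHull ℝ (x '' Icc A (A ∪ T))) := by
  apply Submodule.eq_of_le_of_finrank_eq
  · rw [Submodule.span_le]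
    rintro _ ⟨j, hj, rfl⟩
    have hj' : j ∈ T := hj
    refine vsub_mem_vectorSpan ℝ ?_ ?_
    · rw [h.mem_iff Finset.subset_union_left]
      refine ⟨Finset.subset_insert _ _, ?_⟩
      exact Finset.insert_subset (Finset.mem_union_right _ hj') Finset.subset_union_left
    · rw [h.mem_iff Finset.subset_union_left]
      exact ⟨Finset.Subset.refl _, Finset.subset_union_left⟩
  · have h1 := h.linIndep hP A T hAT
    have h2 : finrank ℝ (Submodule.span ℝ ((fun j => x (insert j A) - x A) '' (T : Set (Fin m)))) =
        T.card := by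
      have h3 := finrank_span_eq_card (R := ℝ) h1
      have h3' : Fintype.card (T : Set (Fin m)) = T.card := by simp
      rw [h3'] at h3
      rw [← h3]
      have h4 : (fun j => x (insert j A) - x A) '' (T : Set (Fin m)) =
          range (fun y : (T : Set (Fin m)) => (fun j => x (insert j A) - x A) (y : Fin m)) := by
        ext y
        simp [image]
      rw [h4]
    rw [h2]
    have h4 := (h.2 A (A ∪ T) Finset.subset_union_left).2
    rw [dimOf, Finset.union_sdiff_left, Finset.sdiff_eq_self_of_disjoint hAT.symm] at h4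
    exact h4.symm

/-- Every vertex of the cube is a combination of the edge vectors at a smaller vertex. -/
lemma CubeFace.mem_span (hP : IsHull P) (h : CubeFace P x) {A S : Finset (Fin m)} (hAS : A ⊆ S) :
    x S - x A ∈ Submodule.span ℝ ((fun j => x (insert j A) - x A) '' ((S \ A : Finset (Fin m)) :
      Set (Fin m))) := by
  rw [h.span_eq hP A (S \ A) Finset.disjoint_sdiff]
  have h1 : A ∪ S \ A = S := Finset.union_sdiff_of_subset hAS
  rw [h1]
  exact vsub_mem_vectorSpan ℝ ((h.mem_iff hAS).2 ⟨hAS, Finset.Subset.refl _⟩)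
    ((h.mem_iff hAS).2 ⟨Finset.Subset.refl _, hAS⟩)

/-- A functional that vanishes on one edge vector and is negative on the other and on the
diagonal. -/
lemma CubeFace.edge_functional (hP : IsHull P) (h : CubeFace P x) {A : Finset (Fin m)}
    {i j : Fin m} (hij : i ≠ j) (hj : j ∉ A) :
    ∃ l : E →ₗ[ℝ] ℝ, l (x (insert i A) - x A) = 0 ∧ l (x (insert j A) - x A) < 0 ∧
      l (x (insert i (insert j A)) - x A) < 0 := by
  have hsub : A ⊆ insert i A := Finset.subset_insert _ _
  obtain ⟨l, c, h1, h2⟩ := hP.exposed (h.2 A (insert i A) hsub).1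
  have hA : l (x A) = c := (h2 _ (h.vertex A).1).2 ((h.mem_iff hsub).2 ⟨Finset.Subset.refl _, hsub⟩)
  have hi : l (x (insert i A)) = c :=
    (h2 _ (h.vertex _).1).2 ((h.mem_iff hsub).2 ⟨hsub, Finset.Subset.refl _⟩)
  have hjn : ∀ R : Finset (Fin m), j ∈ R → l (x R) < c := by
    intro R hR
    refine lt_of_le_of_ne (h1 _ (h.vertex R).1) ?_
    intro heq
    have h3 := (h.mem_iff hsub).1 ((h2 _ (h.vertex R).1).1 heq)
    have h4 := h3.2 hR
    rw [Finset.mem_insert] at h4
    rcases h4 with h4 | h4
    · exact hij h4.symm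
    · exact hj h4
  refine ⟨l, ?_, ?_, ?_⟩
  · rw [map_sub, hi, hA, sub_self]
  · rw [map_sub, hA]
    have := hjn (insert j A) (Finset.mem_insert_self _ _)
    linarith
  · rw [map_sub, hA]
    have := hjn (insert i (insert j A)) (Finset.mem_insert_of_mem (Finset.mem_insert_self _ _))
    linarith

lemma CubeFace.pair_indep (hP : IsHull P) (h : CubeFace P x) {A : Finset (Fin m)}
    {i j : Fin m} (hij : i ≠ j) (hi : i ∉ A) (hj : j ∉ A) {s t : ℝ}
    (hst : s • (x (insert i A) - x A) + t • (x (insert j A) - x A) = 0) : s = 0 ∧ t = 0 := by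
  obtain ⟨l, h1, h2, -⟩ := h.edge_functional hP hij hj
  obtain ⟨l', h1', h2', -⟩ := h.edge_functional hP hij.symm hi
  have h3 := congrArg l hst
  have h4 := congrArg l' hst
  rw [map_add, map_smul, map_smul, h1, smul_zero, zero_add, map_zero, smul_eq_mul] at h3
  rw [map_add, map_smul, map_smul, h1', smul_zero, add_zero, map_zero, smul_eq_mul] at h4
  refine ⟨?_, ?_⟩
  · rcases mul_eq_zero.1 h4 with h | h
    · exact h
    · exact absurd h h2'.ne
  · rcases mul_eq_zero.1 h3 with h | h
    · exact h
    · exact absurd h h2.ne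

/-- The fourth vertex of a two-dimensional face. -/
lemma CubeFace.quad (hP : IsHull P) (h : CubeFace P x) {A : Finset (Fin m)}
    {i j : Fin m} (hij : i ≠ j) (hi : i ∉ A) (hj : j ∉ A) :
    ∃ α β : ℝ, 0 < α ∧ 0 < β ∧ α + β ≠ 1 ∧ x (insert i (insert j A)) - x A =
      α • (x (insert i A) - x A) + β • (x (insert j A) - x A) := by
  have hsub : A ⊆ insert i (insert j A) :=
    (Finset.subset_insert _ _).trans (Finset.subset_insert _ _)
  have h1 := h.mem_span hP hsub
  have h2 : insert i (insert j A) \ A = {i, j} := by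
    ext r
    simp only [Finset.mem_sdiff, Finset.mem_insert, Finset.mem_singleton]
    constructor
    · rintro ⟨h3 | h3 | h3, h4⟩
      · exact Or.inl h3
      · exact Or.inr h3
      · exact absurd h3 h4
    · rintro (rfl | rfl)
      · exact ⟨Or.inl rfl, hi⟩
      · exact ⟨Or.inr (Or.inl rfl), hj⟩
  rw [h2, Finset.coe_insert, Finset.coe_singleton, image_pair, Submodule.mem_span_pair] at h1
  obtain ⟨α, β, hαβ⟩ := h1
  obtain ⟨l, g1, g2, g3⟩ := h.edge_functional hP hij hj
  obtain ⟨l', g1', g2', g3'⟩ := h.edge_functional hP hij.symm hi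
  rw [← hαβ, map_add, map_smul, map_smul, g1, smul_zero, zero_add, smul_eq_mul] at g3
  rw [Finset.insert_comm, ← hαβ, map_add, map_smul, map_smul, g1', smul_zero, add_zero,
    smul_eq_mul] at g3'
  have hα : 0 < α := by
    by_contra hcon
    push Not at hcon
    have := mul_nonneg_of_nonpos_of_nonpos hcon g2'.le
    linarith
  have hβ : 0 < β := by
    by_contra hcon
    push Not at hcon
    have := mul_nonneg_of_nonpos_of_nonpos hcon g2.le
    linarith
  refine ⟨α, β, hα, hβ, ?_, hαβ.symm⟩
  intro hsum
  have hseg : x (insert i (insert j A)) ∈ openSegment ℝ (x (insert i A)) (x (insert j A)) := by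
    refine ⟨α, β, hα, hβ, hsum, ?_⟩
    have h3 : x (insert i (insert j A)) = x A + (α • (x (insert i A) - x A) +
        β • (x (insert j A) - x A)) := by
      rw [hαβ]
      abel
    rw [h3, show β = 1 - α by linarith]
    module
  have h5 := (h.vertex (insert i (insert j A))).2 (h.vertex _).1 (h.vertex _).1 hseg
  have h6 := h.1 h5
  have h7 : j ∈ insert i A := by
    rw [h6]
    exact Finset.mem_insert_of_mem (Finset.mem_insert_self _ _)
  rw [Finset.mem_insert] at h7
  rcases h7 with h8 | h8
  · exact hij h8.symm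
  · exact hj h8

/-- An isometry between two-dimensional faces respects the coefficients. -/
lemma CubeFace.cong (hP : IsHull P) (h : CubeFace P x) {A A' : Finset (Fin m)}
    {i j i' j' : Fin m} (hij : i' ≠ j') (hi : i' ∉ A') (hj : j' ∉ A') {g : E ≃ᵢ E}
    (h1 : g (x A) = x A') (h2 : g (x (insert i A)) = x (insert i' A'))
    (h3 : g (x (insert j A)) = x (insert j' A'))
    (h4 : g (x (insert i (insert j A))) = x (insert i' (insert j' A'))) {α β α' β' : ℝ}
    (hq : x (insert i (insert j A)) - x A =
      α • (x (insert i A) - x A) + β • (x (insert j A) - x A))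
    (hq' : x (insert i' (insert j' A')) - x A' =
      α' • (x (insert i' A') - x A') + β' • (x (insert j' A') - x A')) :
    α = α' ∧ β = β' := by
  let L := g.toRealAffineIsometryEquiv.linearIsometryEquiv
  have hL : ∀ y z : E, L (y - z) = g y - g z := by
    intro y z
    have := g.toRealAffineIsometryEquiv.map_vsub y z
    simpa [L] using this
  have h5 := congrArg L hq
  rw [map_add, map_smul, map_smul, hL, hL, hL, h1, h2, h3, h4, hq'] at h5
  have h6 : (α' - α) • (x (insert i' A') - x A') + (β' - β) • (x (insert j' A') - x A') = 0 := by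
    rw [sub_smul, sub_smul]
    have h7 := sub_eq_zero.2 h5
    rw [← h7]
    abel
  obtain ⟨h8, h9⟩ := h.pair_indep hP hij hi hj h6
  exact ⟨by linarith, by linarith⟩

end Cube

end Pool.Agent.Lib.MP_103b79_co
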