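import Mathlib
import Pool.Agent.Lib.MP_103b79_co.Cube

open Set Module

namespace Pool.Agent.Lib.MP_103b79_co

/-- The opposite edge in a centrally symmetric two-dimensional face. -/
theorem cs_step {E : Type*} [NormedAddCommGroup E] [NormedSpace ℝ E] [FiniteDimensional ℝ E]
    {P G : Set E} (hP : IsHull P) (hG : IsFace P G) (hG2 : dimOf G = 2)
    {q : E} (hq : ∀ x ∈ G, q - x ∈ G)
    {z a : E} (ha : a ≠ 0) (he : IsFace P (segment ℝ z (z + a)))
    (heG : segment ℝ z (z + a) ⊆ G) (c : E →ₗ[ℝ] ℝ) (hca : c a = 0) (hx : ∃ x ∈ G, c z < c x) :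
    ∃ z', IsFace P (segment ℝ z' (z' + a)) ∧ c z < c z' := by
  obtain ⟨x, hxG, hcx⟩ := hx
  have hzG : z ∈ G := heG (left_mem_segment ℝ _ _)
  have hzaG : z + a ∈ G := heG (right_mem_segment ℝ _ _)
  have heext : IsExtreme ℝ G (segment ℝ z (z + a)) := (he.of_subset hG heG).2.2
  have hconst : ∀ y ∈ segment ℝ z (z + a), c y = c z := by
    intro y hy
    rw [segment_eq_image'] at hy
    obtain ⟨θ, -, rfl⟩ := hy
    simp only [add_sub_cancel_left]
    rw [map_add, map_smul, hca, smul_zero, add_zero]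
  -- the level set in `G` is the edge
  have haD : a ∈ vectorSpan ℝ G ⊓ LinearMap.ker c := by
    refine ⟨?_, hca⟩
    have h1 := vsub_mem_vectorSpan ℝ hzaG hzG
    rwa [vsub_eq_sub, add_sub_cancel_left] at h1
  have hlt : vectorSpan ℝ G ⊓ LinearMap.ker c < vectorSpan ℝ G := by
    refine lt_of_le_of_ne inf_le_left ?_
    intro heq
    have h1 : x - z ∈ vectorSpan ℝ G ⊓ LinearMap.ker c := by
      rw [heq]
      exact vsub_mem_vectorSpan ℝ hxG hzG
    have h2 : c (x - z) = 0 := h1.2
    rw [map_sub] at h2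
    linarith
  have hfr : finrank ℝ (vectorSpan ℝ G ⊓ LinearMap.ker c : Submodule ℝ E) = 1 := by
    have h1 := Submodule.finrank_lt_finrank_of_lt hlt
    rw [dimOf] at hG2
    rw [hG2] at h1
    have h2 : 0 < finrank ℝ (vectorSpan ℝ G ⊓ LinearMap.ker c : Submodule ℝ E) := by
      have : Nontrivial (vectorSpan ℝ G ⊓ LinearMap.ker c : Submodule ℝ E) :=
        ⟨⟨a, haD⟩, 0, fun h => ha (congrArg Subtype.val h)⟩
      exact finrank_pos
    omega
  have hlevel : ∀ y ∈ G, c y = c z → y ∈ segment ℝ z (z + a) := by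
    intro y hy hcy
    refine mem_of_vectorSpan hP he (left_mem_segment ℝ _ _) (hG.subset hy) ?_
    have h1 : y - z ∈ vectorSpan ℝ G ⊓ LinearMap.ker c :=
      ⟨vsub_mem_vectorSpan ℝ hy hzG, by
        rw [SetLike.mem_coe, LinearMap.mem_ker, map_sub, hcy, sub_self]⟩
    obtain ⟨t, ht⟩ := (finrank_eq_one_iff_of_nonzero'
      (⟨a, haD⟩ : (vectorSpan ℝ G ⊓ LinearMap.ker c : Submodule ℝ E))
      (fun h => ha (congrArg Subtype.val h))).1 hfr ⟨y - z, h1⟩
    have ht' : t • a = y - z := congrArg Subtype.val ht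
    rw [← ht']
    apply Submodule.smul_mem
    have h2 := vsub_mem_vectorSpan ℝ (right_mem_segment ℝ z (z + a)) (left_mem_segment ℝ z (z + a))
    rwa [vsub_eq_sub, add_sub_cancel_left] at h2
  -- `G` lies above the level of the edge
  have habove : ∀ y ∈ G, c z ≤ c y := by
    intro y hy
    by_contra hcon
    push Not at hcon
    set t := (c x - c z) / (c x - c y) with ht
    have hpos : 0 < c x - c y := by linarith
    have ht0 : 0 < t := div_pos (by linarith) hpos
    have ht1 : t < 1 := (div_lt_one hpos).2 (by linarith)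
    have hp : t • y + (1 - t) • x ∈ openSegment ℝ y x :=
      ⟨t, 1 - t, ht0, by linarith, by ring, rfl⟩
    have hpG : t • y + (1 - t) • x ∈ G := hG.2.1.openSegment_subset hy hxG hp
    have hcp : c (t • y + (1 - t) • x) = c z := by
      rw [map_add, map_smul, map_smul, smul_eq_mul, smul_eq_mul]
      have h1 : t * (c x - c y) = c x - c z := div_mul_cancel₀ _ hpos.ne'
      linarith
    have h2 := heext.2 hy hxG (hlevel _ hpG hcp) hp
    have h3 := hconst y h2
    linarith
  -- the opposite edge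
  have hmem : ∀ y, y ∈ segment ℝ (q - (z + a)) (q - (z + a) + a) ↔
      q - y ∈ segment ℝ z (z + a) := by
    intro y
    have e1 : q - (z + a) + a = q - z := by abel
    rw [e1]
    constructor
    · rintro ⟨s, t, hs, ht, hst, rfl⟩
      refine ⟨t, s, ht, hs, by linarith, ?_⟩
      obtain rfl : t = 1 - s := by linarith
      module
    · rintro ⟨s, t, hs, ht, hst, h⟩
      refine ⟨t, s, ht, hs, by linarith, ?_⟩
      have h2 : y = q - (s • z + t • (z + a)) := by rw [h]; abel
      rw [h2]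
      obtain rfl : t = 1 - s := by linarith
      module
  have hsubG : segment ℝ (q - (z + a)) (q - (z + a) + a) ⊆ G := by
    intro y hy
    have h1 := hq _ (heG ((hmem y).1 hy))
    rwa [sub_sub_cancel] at h1
  refine ⟨q - (z + a), hG.trans ⟨⟨_, left_mem_segment ℝ _ _⟩, convex_segment _ _, ?_⟩, ?_⟩
  · refine ⟨hsubG, ?_⟩
    intro y hy w hw p hp hpo
    rw [hmem] at hp ⊢
    refine heext.2 (hq y hy) (hq w hw) hp ?_
    obtain ⟨s, t, hs, ht, hst, rfl⟩ := hpo
    refine ⟨s, t, hs, ht, hst, ?_⟩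
    obtain rfl : t = 1 - s := by linarith
    module
  · have h1 := habove _ (hq x hxG)
    rw [map_sub] at h1
    rw [map_sub, map_add, hca]
    linarith

end Pool.Agent.Lib.MP_103b79_co
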