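import Mathlib
import Pool.Agent.Lib.MP_103b79_co.SimpleVertex
import Pool.Agent.Lib.MP_103b79_co.Ptope
import Pool.Agent.Lib.MP_103b79_co.Improve

open Set Module

namespace Pool.Agent.Lib.MP_103b79_co

/-- The image of a parallelotope under an isometry. -/
lemma ptope_image {E : Type*} [NormedAddCommGroup E] [NormedSpace ℝ E] {k : ℕ} (g : E ≃ᵢ E)
    (h0 : E) (b : Fin k → E) :
    g '' (ptope h0 b) = ptope (g h0) (fun i => g.toRealAffineIsometryEquiv.linearIsometryEquiv (b i)) := by
  have hg : ∀ v, g (h0 + v) = g h0 + g.toRealAffineIsometryEquiv.linearIsometryEquiv v := by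
    intro v
    have h := g.toRealAffineIsometryEquiv.map_vadd h0 v
    rw [vadd_eq_add, vadd_eq_add, add_comm v h0] at h
    rw [IsometryEquiv.coeFn_toRealAffineIsometryEquiv] at h
    rw [h, add_comm]
  ext x
  constructor
  · rintro ⟨y, ⟨t, ht, rfl⟩, rfl⟩
    refine ⟨t, ht, ?_⟩
    rw [hg, map_sum]
    simp only [map_smul]
  · rintro ⟨t, ht, rfl⟩
    refine ⟨h0 + ∑ i, t i • b i, ⟨t, ht, rfl⟩, ?_⟩
    rw [hg, map_sum]
    simp only [map_smul]

/-- The left end of a nondegenerate face segment is a vertex. -/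
lemma seg_left_extreme {E : Type*} [NormedAddCommGroup E] [NormedSpace ℝ E] {P : Set E} {z a : E}
    (ha : a ≠ 0) (h : IsFace P (segment ℝ z (z + a))) : z ∈ P.extremePoints ℝ := by
  have h1 : z ∈ (segment ℝ z (z + a)).extremePoints ℝ := by
    rw [mem_extremePoints]
    refine ⟨left_mem_segment ℝ _ _, ?_⟩
    have key : ∀ x ∈ segment ℝ z (z + a), ∀ y ∈ segment ℝ z (z + a),
        z ∈ openSegment ℝ x y → x = z := by
      intro x hx y hy hz
      rw [segment_eq_image'] at hx hy
      obtain ⟨θ, ⟨h0, _⟩, rfl⟩ := hx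
      obtain ⟨φ, ⟨g0, _⟩, rfl⟩ := hy
      obtain ⟨α, β, hα, hβ, hαβ, he⟩ := hz
      simp only [add_sub_cancel_left] at he ⊢
      have e1 : (α * θ + β * φ) • a = 0 := by
        have e2 : α • (z + θ • a) + β • (z + φ • a) = (α + β) • z + (α * θ + β * φ) • a := by
          module
        rw [e2, hαβ, one_smul] at he
        simpa using he
      rcases smul_eq_zero.1 e1 with h | h
      · have h2 : 0 ≤ α * θ := mul_nonneg hα.le h0
        have h3 : 0 ≤ β * φ := mul_nonneg hβ.le g0
        have h4 : α * θ = 0 := by linarith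
        rcases mul_eq_zero.1 h4 with h5 | h5
        · exact absurd h5 hα.ne'
        · rw [h5]; simp
      · exact absurd h ha
    intro x hx y hy hz
    exact ⟨key x hx y hy hz, key y hy x hx (by rw [openSegment_symm]; exact hz)⟩
  rw [h.2.2.extremePoints_eq] at h1
  exact h1.2

lemma dim_segment {E : Type*} [NormedAddCommGroup E] [NormedSpace ℝ E] [FiniteDimensional ℝ E]
    {z a : E} (ha : a ≠ 0) : dimOf (segment ℝ z (z + a)) = 1 := by
  unfold dimOf
  rw [← convexHull_pair, vectorSpan_hull]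
  have h : vectorSpan ℝ ({z, z + a} : Set E) = Submodule.span ℝ {a} := by
    rw [vectorSpan_eq_span_vsub_set_right ℝ (show z ∈ ({z, z + a} : Set E) from Or.inl rfl)]
    apply le_antisymm
    · rw [Submodule.span_le]
      rintro _ ⟨x, hx, rfl⟩
      rcases hx with hx | hx
      · rw [hx]; simp
      · rw [mem_singleton_iff.1 hx]
        simp only [vsub_eq_sub, add_sub_cancel_left]
        exact Submodule.mem_span_singleton_self a
    · rw [Submodule.span_singleton_le_iff_mem]
      apply Submodule.subset_span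
      exact ⟨z + a, Or.inr rfl, by simp⟩
  rw [h]
  exact finrank_span_singleton ha

theorem ptope_facet {d k : ℕ} {P : Set (EuclideanSpace ℝ (Fin d))} (hP : IsHull P)
    (hPd : dimOf P = d) (hk2 : 2 ≤ k) (hkd : k + 1 ≤ d) (hk : FaceTransitive k P)
    {h0 : EuclideanSpace ℝ (Fin d)} {b : Fin k → EuclideanSpace ℝ (Fin d)}
    (hb : LinearIndependent ℝ b) (hH : IsFace P (ptope h0 b)) (hHk : dimOf (ptope h0 b) = k) :
    FaceTransitive (d - 1) P := by
  apply facet_of_zprop hP hPd (by omega) hkd hk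
  · intro v hv c hx
    obtain ⟨R, h1, h2, h3, h4⟩ := hP.improve (vertex_face hv) c (c v)
      (fun x hx => by rw [mem_singleton_iff.1 hx]) hx
    refine ⟨R, h1, h2 rfl, ?_, h4⟩
    rw [h3, dim_singleton]
  · intro z w hzw hseg c hc
    obtain ⟨a, ha⟩ : ∃ a, a = w - z := ⟨_, rfl⟩
    have hw : w = z + a := by rw [ha]; abel
    have ha0 : a ≠ 0 := by
      rw [ha]
      exact sub_ne_zero.2 (Ne.symm hzw)
    rw [← ha] at hc ⊢
    rw [hw] at hseg
    have hSfin : {z' | IsFace P (segment ℝ z' (z' + a))}.Finite :=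
      hP.finite_ext.subset (fun z' hz' => seg_left_extreme ha0 hz')
    obtain ⟨z', hz', hmax⟩ := exists_max_image {z' | IsFace P (segment ℝ z' (z' + a))} c hSfin
      ⟨z, hseg⟩
    have hz'F : IsFace P (segment ℝ z' (z' + a)) := hz'
    refine ⟨z', hz'F.subset (left_mem_segment ℝ _ _), hz'F.subset (right_mem_segment ℝ _ _), ?_⟩
    by_contra hcon
    push Not at hcon
    have hconst : ∀ x ∈ segment ℝ z' (z' + a), c x = c z' := by
      intro x hx
      rw [segment_eq_image'] at hx
      obtain ⟨θ, -, rfl⟩ := hx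
      simp only [add_sub_cancel_left]
      rw [map_add, map_smul, hc, smul_zero, add_zero]
    obtain ⟨R, hR1, hR2, hR3, hR4⟩ := hP.improve hz'F c (c z') hconst hcon
    rw [dim_segment ha0] at hR3
    obtain ⟨H', hH'1, hH'2, hH'3⟩ := IsHull.exists_between k d hP hR1 (by omega) (by omega)
      (by omega)
    obtain ⟨g, hgP, hgH⟩ := hk _ _ hH hHk hH'1 hH'3
    rw [ptope_image] at hgH
    have hb' : LinearIndependent ℝ
        (fun i => g.toRealAffineIsometryEquiv.linearIsometryEquiv (b i)) :=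
      hb.map' g.toRealAffineIsometryEquiv.linearIsometryEquiv.toLinearEquiv.toLinearMap
        (LinearEquiv.ker _)
    obtain ⟨z'', hz''1, hz''2⟩ := ptope_step hP hb' (by rw [hgH]; exact hH'1) hR1
      (by rw [hgH]; exact hH'2) hR3 ha0 hz'F hR2 c hc hR4
    exact absurd (hmax z'' hz''1) (not_le.2 hz''2)

end Pool.Agent.Lib.MP_103b79_co
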