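import Mathlib
import Pool.Agent.Lib.MP_103b79_co.PtopeFacet
import Pool.Agent.Lib.MP_103b79_co.CsStep

open Set Module

namespace Pool.Agent.Lib.MP_103b79_co

/-- If the two-dimensional faces in one `k`-face are centrally symmetric, all are. -/
lemma all_cs {E : Type*} [NormedAddCommGroup E] [NormedSpace ℝ E] [FiniteDimensional ℝ E] {k : ℕ}
    {P : Set E} (hP : IsHull P) (hk2 : 2 ≤ k) (hkP : k ≤ dimOf P) (hk : FaceTransitive k P)
    {H : Set E} (hH : IsFace P H) (hHk : dimOf H = k)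
    (hcs : ∀ R ⊆ H, IsFace P R → dimOf R = 2 → ∃ q, ∀ x ∈ R, q - x ∈ R)
    {R : Set E} (hR : IsFace P R) (hR2 : dimOf R = 2) : ∃ q, ∀ x ∈ R, q - x ∈ R := by
  obtain ⟨H', hH'1, hH'2, hH'3⟩ := IsHull.exists_between k (dimOf P) hP hR (by omega) (by omega)
    (by omega)
  obtain ⟨g, hgP, hgH⟩ := hk _ _ hH'1 hH'3 hH hHk
  obtain ⟨q, hq⟩ := hcs (g '' R) (by rw [← hgH]; exact image_mono hH'2) (hR.map hgP)
    (by rw [dim_map, hR2])
  have hg : ∀ v, g v = g 0 + g.toRealAffineIsometryEquiv.linearIsometryEquiv v := by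
    intro v
    have h := g.toRealAffineIsometryEquiv.map_vadd 0 v
    rw [vadd_eq_add, vadd_eq_add, add_zero] at h
    rw [IsometryEquiv.coeFn_toRealAffineIsometryEquiv] at h
    rw [h, add_comm]
  refine ⟨g.toRealAffineIsometryEquiv.linearIsometryEquiv.symm (q - g 0 - g 0), fun x hx => ?_⟩
  obtain ⟨x', hx', heq⟩ := hq (g x) (mem_image_of_mem g hx)
  have h1 : x' = g.toRealAffineIsometryEquiv.linearIsometryEquiv.symm (q - g 0 - g 0) - x := by
    apply g.toRealAffineIsometryEquiv.linearIsometryEquiv.injective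
    rw [map_sub, LinearIsometryEquiv.apply_symm_apply]
    rw [hg x', hg x] at heq
    have h2 : g.toRealAffineIsometryEquiv.linearIsometryEquiv x' =
      (g 0 + g.toRealAffineIsometryEquiv.linearIsometryEquiv x') - g 0 := by abel
    rw [h2, heq]
    abel
  rw [← h1]
  exact hx'

/-- A `k`-face-transitive polytope one of whose `k`-faces has centrally symmetric
two-dimensional faces is facet-transitive. -/
theorem cs_facet {d k : ℕ} {P : Set (EuclideanSpace ℝ (Fin d))} (hP : IsHull P)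
    (hPd : dimOf P = d) (hk2 : 2 ≤ k) (hkd : k + 1 ≤ d) (hk : FaceTransitive k P)
    {H : Set (EuclideanSpace ℝ (Fin d))} (hH : IsFace P H) (hHk : dimOf H = k)
    (hcs : ∀ R ⊆ H, IsFace P R → dimOf R = 2 → ∃ q, ∀ x ∈ R, q - x ∈ R) :
    FaceTransitive (d - 1) P := by
  apply facet_of_zprop hP hPd (by omega) hkd hk
  · intro v hv c hx
    obtain ⟨R, h1, h2, h3, h4⟩ := hP.improve (vertex_face hv) c (c v)
      (fun x hx => by rw [mem_singleton_iff.1 hx]) hx
    refine ⟨R, h1, h2 rfl, ?_, h4⟩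
    rw [h3, dim_singleton]
  · intro z w hzw hseg c hc
    obtain ⟨a, ha⟩ : ∃ a, a = w - z := ⟨_, rfl⟩
    have hw : w = z + a := by rw [ha]; abel
    have ha0 : a ≠ 0 := by
      rw [ha]
      exact sub_ne_zero.2 (Ne.symm hzw)
    rw [← ha] at hc ⊢
    rw [hw] at hseg
    have hSfin : {z' | IsFace P (segment ℝ z' (z' + a))}.Finite :=
      hP.finite_ext.subset (fun z' hz' => seg_left_extreme ha0 hz')
    obtain ⟨z', hz', hmax⟩ := exists_max_image {z' | IsFace P (segment ℝ z' (z' + a))} c hSfin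
      ⟨z, hseg⟩
    have hz'F : IsFace P (segment ℝ z' (z' + a)) := hz'
    refine ⟨z', hz'F.subset (left_mem_segment ℝ _ _), hz'F.subset (right_mem_segment ℝ _ _), ?_⟩
    by_contra hcon
    push Not at hcon
    have hconst : ∀ x ∈ segment ℝ z' (z' + a), c x = c z' := by
      intro x hx
      rw [segment_eq_image'] at hx
      obtain ⟨θ, -, rfl⟩ := hx
      simp only [add_sub_cancel_left]
      rw [map_add, map_smul, hc, smul_zero, add_zero]
    obtain ⟨R, hR1, hR2, hR3, hR4⟩ := hP.improve hz'F c (c z') hconst hcon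
    rw [dim_segment ha0] at hR3
    obtain ⟨q, hq⟩ := all_cs hP hk2 (by omega) hk hH hHk hcs hR1 hR3
    obtain ⟨z'', hz''1, hz''2⟩ := cs_step hP hR1 hR3 hq ha0 hz'F hR2 c hc hR4
    exact absurd (hmax z'' hz''1) (not_le.2 hz''2)

end Pool.Agent.Lib.MP_103b79_co
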