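import Mathlib
import Pool.Agent.Lib.MP_103b79_co.Cube

open Set Module

namespace Pool.Agent.Lib.MP_103b79_co

/-- The scalar recursion behind the homogeneous cube. -/
lemma scalar_alt {ρ q : ℝ} (hρ : 0 < ρ) (G : ℕ → ℝ)
    (hG : ∀ n, G n = ρ ^ n + q * ∑ s ∈ Finset.range n, ρ ^ s) {n n' : ℕ} (hn : n < n')
    (h : G n * G (n' + 1) = G n' * G (n + 1)) : q = 0 ∨ (q = 1 - ρ ∧ ∀ n, G n = 1) := by
  have hrec : ∀ n, G (n + 1) = ρ * G n + q := by
    intro n
    rw [hG, hG, Finset.sum_range_succ' (fun s => ρ ^ s), mul_add ρ, pow_succ]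
    have : ∑ s ∈ Finset.range n, ρ ^ (s + 1) = ρ * ∑ s ∈ Finset.range n, ρ ^ s := by
      rw [Finset.mul_sum]
      exact Finset.sum_congr rfl (fun s _ => by rw [pow_succ]; ring)
    rw [this]
    ring
  have hclosed : ∀ n, G n = 1 + (ρ + q - 1) * ∑ s ∈ Finset.range n, ρ ^ s := by
    intro n
    induction n with
    | zero => rw [hG]; simp
    | succ n ih =>
      rw [hrec, ih, Finset.sum_range_succ' (fun s => ρ ^ s)]
      have : ∑ s ∈ Finset.range n, ρ ^ (s + 1) = ρ * ∑ s ∈ Finset.range n, ρ ^ s := by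
        rw [Finset.mul_sum]
        exact Finset.sum_congr rfl (fun s _ => by rw [pow_succ]; ring)
      rw [this]
      ring
  rw [hrec, hrec] at h
  have h1 : q * (G n - G n') = 0 := by linarith
  rcases mul_eq_zero.1 h1 with h2 | h2
  · exact Or.inl h2
  · right
    rw [hclosed, hclosed] at h2
    have h3 : (ρ + q - 1) * (∑ s ∈ Finset.range n, ρ ^ s - ∑ s ∈ Finset.range n', ρ ^ s) = 0 := by
      linarith
    have h4 : ∑ s ∈ Finset.range n, ρ ^ s < ∑ s ∈ Finset.range n', ρ ^ s := by
      apply Finset.sum_lt_sum_of_subset (i := n)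
        (Finset.range_subset_range.2 hn.le) (Finset.mem_range.2 hn) Finset.notMem_range_self
        (pow_pos hρ n)
      intro j _ _
      exact (pow_pos hρ j).le
    rcases mul_eq_zero.1 h3 with h5 | h5
    · refine ⟨by linarith, fun n => ?_⟩
      rw [hclosed, h5, zero_mul, add_zero]
    · linarith

section Cube

variable {E : Type*} [NormedAddCommGroup E] [NormedSpace ℝ E] [FiniteDimensional ℝ E] {m : ℕ}
  {P : Set E} {x : Finset (Fin m) → E}

omit [FiniteDimensional ℝ E] in
/-- Coordinate functionals. -/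
lemma exists_coords {v : Fin m → E} {T : Finset (Fin m)}
    (hv : LinearIndepOn ℝ v (T : Set (Fin m))) :
    ∃ Y : Fin m → (E →ₗ[ℝ] ℝ), ∀ j ∈ T, ∀ i ∈ T, Y j (v i) = if j = i then 1 else 0 := by
  have h : ∀ j : Fin m, ∃ Y : E →ₗ[ℝ] ℝ, ∀ i ∈ T, Y (v i) = if j = i then 1 else 0 := by
    intro j
    obtain ⟨g, hg⟩ := LinearMap.exists_extend
      ((Basis.span hv).constr ℝ (fun i : (T : Set (Fin m)) => if j = i then (1 : ℝ) else 0))
    refine ⟨g, fun i hi => ?_⟩
    have h1 := LinearMap.congr_fun hg (Basis.span hv ⟨i, hi⟩)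
    rw [Basis.constr_basis, LinearMap.comp_apply, Submodule.subtype_apply] at h1
    have h2 : ((Basis.span hv ⟨i, hi⟩ : _) : E) = v i :=
      congrArg Subtype.val (Basis.span_apply hv ⟨i, hi⟩)
    rw [← h2]
    exact h1
  choose Y hY using h
  exact ⟨Y, fun j _ i hi => hY j i hi⟩

/-- Homogeneous position: the fourth vertices at the base vertex have constant coefficients
`a`, `b` along the sequence `f`. -/
def Homog (x : Finset (Fin m) → E) (M : ℕ) (f : ℕ → Fin m) (a b : ℝ) : Prop :=
  (∀ r < M, ∀ s < M, f r = f s → r = s) ∧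
  ∀ r s, r < s → s < M → x (insert (f r) (insert (f s) ∅)) - x ∅ =
    a • (x (insert (f r) ∅) - x ∅) + b • (x (insert (f s) ∅) - x ∅)

/-- Coordinates in homogeneous position. -/
lemma homog_coords (hP : IsHull P) (h : CubeFace P x) {M : ℕ} {f : ℕ → Fin m} {a b : ℝ}
    (ha : 0 < a) (hb : 0 < b) (hf : Homog x M f a b) :
    ∃ Y : ℕ → (E →ₗ[ℝ] ℝ),
      (∀ r < M, ∀ s < M, Y r (x (insert (f s) ∅) - x ∅) = if r = s then 1 else 0) ∧
      (∀ S : Finset (Fin m), S ⊆ (Finset.range M).image f → ∀ r < M, f r ∉ S →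
        Y r (x S - x ∅) = 0) ∧
      (∀ S : Finset (Fin m), S ⊆ (Finset.range M).image f → ∀ r < M, f r ∈ S →
        Y r (x S - x ∅) + (1 - a) / b * (∑ s ∈ Finset.range M, Y s (x S - x ∅) -
          ∑ s ∈ Finset.range (r + 1), Y s (x S - x ∅)) +
          (1 - b) / a * ∑ s ∈ Finset.range r, Y s (x S - x ∅) = 1) ∧
      (∀ S : Finset (Fin m), S ⊆ (Finset.range M).image f →
        x S - x ∅ = ∑ s ∈ Finset.range M, Y s (x S - x ∅) • (x (insert (f s) ∅) - x ∅)) := by
  classical
  obtain ⟨hinj, hquad⟩ := hf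
  set T := (Finset.range M).image f with hT
  have hmemT : ∀ r < M, f r ∈ T := fun r hr =>
    Finset.mem_image_of_mem f (Finset.mem_range.2 hr)
  obtain ⟨Y', hY'⟩ := exists_coords (h.linIndep hP ∅ T (Finset.disjoint_empty_left T))
  let e : ℕ → E := fun s => x (insert (f s) ∅) - x ∅
  let Y : ℕ → (E →ₗ[ℝ] ℝ) := fun r => Y' (f r)
  have hYe : ∀ r < M, ∀ s < M, Y r (e s) = if r = s then 1 else 0 := by
    intro r hr s hs
    have h1 := hY' (f r) (hmemT r hr) (f s) (hmemT s hs)
    simp only [Y, e]
    rw [h1]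
    by_cases hrs : r = s
    · rw [if_pos hrs, if_pos (by rw [hrs])]
    · rw [if_neg hrs, if_neg (fun h => hrs (hinj r hr s hs h))]
  have hspan : ∀ S : Finset (Fin m), x S - x ∅ ∈
      Submodule.span ℝ ((fun j => x (insert j ∅) - x ∅) '' (S : Set (Fin m))) := by
    intro S
    have h1 := h.mem_span hP (Finset.empty_subset S)
    rwa [Finset.sdiff_empty] at h1
  refine ⟨Y, hYe, ?_, ?_, ?_⟩
  · intro S hS r hr hrS
    have h1 : Submodule.span ℝ ((fun j => x (insert j ∅) - x ∅) '' (S : Set (Fin m))) ≤
        LinearMap.ker (Y r) := by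
      rw [Submodule.span_le]
      rintro _ ⟨j, hj, rfl⟩
      have hj' : j ∈ S := hj
      obtain ⟨s, hs, rfl⟩ := Finset.mem_image.1 (hS hj')
      rw [Finset.mem_range] at hs
      simp only [SetLike.mem_coe, LinearMap.mem_ker]
      have h2 := hYe r hr s hs
      simp only [e] at h2
      rw [h2, if_neg]
      rintro rfl
      exact hrS hj'
    exact h1 (hspan S)
  · intro S hS r hr hrS
    -- the functional of the upper facet
    let H : E →ₗ[ℝ] ℝ := Y r + ((1 - a) / b) • (∑ s ∈ Finset.range M, Y s -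
      ∑ s ∈ Finset.range (r + 1), Y s) + ((1 - b) / a) • ∑ s ∈ Finset.range r, Y s
    have hH : ∀ z, H z = Y r z + (1 - a) / b * (∑ s ∈ Finset.range M, Y s z -
          ∑ s ∈ Finset.range (r + 1), Y s z) + (1 - b) / a * ∑ s ∈ Finset.range r, Y s z := by
      intro z
      simp [H]
    have hsum : ∀ N ≤ M, ∀ s < M, ∑ t ∈ Finset.range N, Y t (e s) = if s < N then 1 else 0 := by
      intro N hN s hs
      have h1 : ∑ t ∈ Finset.range N, Y t (e s) =
          ∑ t ∈ Finset.range N, if t = s then (1 : ℝ) else 0 := by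
        refine Finset.sum_congr rfl (fun t ht => ?_)
        rw [Finset.mem_range] at ht
        exact hYe t (by omega) s hs
      rw [h1, Finset.sum_ite_eq']
      simp only [Finset.mem_range]
    have hHr : H (e r) = 1 := by
      rw [hH, hYe r hr r hr, hsum M le_rfl r hr, hsum (r + 1) (by omega) r hr,
        hsum r hr.le r hr, if_pos rfl, if_pos hr, if_pos (Nat.lt_succ_self r),
        if_neg (lt_irrefl r)]
      ring
    have hHgt : ∀ s < M, r < s → H (e s) = (1 - a) / b := by
      intro s hs hrs
      rw [hH, hYe r hr s hs, hsum M le_rfl s hs, hsum (r + 1) (by omega) s hs,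
        hsum r hr.le s hs, if_neg (by omega), if_pos hs, if_neg (by omega), if_neg (by omega)]
      ring
    have hHlt : ∀ s < M, s < r → H (e s) = (1 - b) / a := by
      intro s hs hrs
      rw [hH, hYe r hr s hs, hsum M le_rfl s hs, hsum (r + 1) (by omega) s hs,
        hsum r hr.le s hs, if_neg (by omega), if_pos hs, if_pos (by omega), if_pos hrs]
      ring
    have hsub : insert (f r) ∅ ⊆ S := by
      intro j hj
      rw [Finset.mem_insert] at hj
      rcases hj with rfl | hj
      · exact hrS
      · exact absurd hj (Finset.notMem_empty j)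
    have h1 := h.mem_span hP hsub
    have h2 : Submodule.span ℝ ((fun j => x (insert j (insert (f r) ∅)) - x (insert (f r) ∅)) ''
        ((S \ insert (f r) ∅ : Finset (Fin m)) : Set (Fin m))) ≤ LinearMap.ker H := by
      rw [Submodule.span_le]
      rintro _ ⟨j, hj, rfl⟩
      have hj' : j ∈ S \ insert (f r) ∅ := hj
      rw [Finset.mem_sdiff] at hj'
      obtain ⟨s, hs, rfl⟩ := Finset.mem_image.1 (hS hj'.1)
      rw [Finset.mem_range] at hs
      have hsr : s ≠ r := by
        rintro rfl
        exact hj'.2 (Finset.mem_insert_self _ _)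
      simp only [SetLike.mem_coe, LinearMap.mem_ker]
      have h3 : x (insert (f s) (insert (f r) ∅)) - x (insert (f r) ∅) =
          (x (insert (f s) (insert (f r) ∅)) - x ∅) - e r := by
        simp only [e]
        abel
      rw [h3, map_sub, hHr]
      rcases lt_or_gt_of_ne hsr with hlt | hgt
      · rw [hquad s r hlt hr, map_add, map_smul, map_smul]
        change a • H (e s) + b • H (e r) - 1 = 0
        rw [hHlt s hs hlt, hHr, smul_eq_mul, smul_eq_mul, mul_div_cancel₀ _ ha.ne']
        ring
      · rw [Finset.insert_comm, hquad r s hgt hs, map_add, map_smul, map_smul]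
        change a • H (e r) + b • H (e s) - 1 = 0
        rw [hHgt s hs hgt, hHr, smul_eq_mul, smul_eq_mul, mul_div_cancel₀ _ hb.ne']
        ring
    have h3 := h2 h1
    rw [LinearMap.mem_ker] at h3
    have h4 : H (x S - x ∅) = 1 := by
      have h5 : x S - x ∅ = (x S - x (insert (f r) ∅)) + e r := by
        simp only [e]
        abel
      rw [h5, map_add, h3, hHr, zero_add]
    rw [hH] at h4
    exact h4
  · intro S hS
    have h1 : ∀ z ∈ Submodule.span ℝ ((fun j => x (insert j ∅) - x ∅) '' (S : Set (Fin m))),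
        z = ∑ s ∈ Finset.range M, Y s z • e s := by
      intro z hz
      induction hz using Submodule.span_induction with
      | mem z hz =>
        obtain ⟨j, hj, rfl⟩ := hz
        have hj' : j ∈ S := hj
        obtain ⟨s, hs, rfl⟩ := Finset.mem_image.1 (hS hj')
        have hs' := Finset.mem_range.1 hs
        rw [Finset.sum_eq_single s]
        · have h2 := hYe s hs' s hs'
          rw [if_pos rfl] at h2
          change e s = Y s (e s) • e s
          rw [h2, one_smul]
        · intro t ht hts
          have h2 := hYe t (Finset.mem_range.1 ht) s hs'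
          rw [if_neg hts] at h2
          change Y t (e s) • e t = 0
          rw [h2, zero_smul]
        · intro h3
          exact absurd hs h3
      | zero => simp
      | add y z _ _ hy hz =>
        conv_lhs => rw [hy, hz]
        rw [← Finset.sum_add_distrib]
        refine Finset.sum_congr rfl (fun s _ => ?_)
        rw [map_add, add_smul]
      | smul c z _ hz =>
        conv_lhs => rw [hz]
        rw [Finset.smul_sum]
        refine Finset.sum_congr rfl (fun s _ => ?_)
        rw [map_smul, smul_smul, smul_eq_mul]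
    exact h1 _ (hspan S)

end Cube

end Pool.Agent.Lib.MP_103b79_co
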