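import Mathlib
import Pool.Agent.Lib.MP_103b79_co.Ptope

/-!
The convex hull of the vertices of a cube in vector form is a parallelotope.
-/

open Set Module
namespace Pool.Agent.Lib.MP_103b79_co

/-- If the points `x S` are `h0 + Σ_{f r ∈ S} b r`, their convex hull is the parallelotope. -/
theorem hull_eq_ptope {E : Type*} [NormedAddCommGroup E] [NormedSpace ℝ E] {m k : ℕ}
    (x : Finset (Fin m) → E) (f : Fin k → Fin m) (hf : Function.Injective f) (h0 : E)
    (b : Fin k → E)
    (hx : ∀ S : Finset (Fin m), S ⊆ Finset.univ.image f →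
      x S = h0 + ∑ r, (if f r ∈ S then (1 : ℝ) else 0) • b r) :
    convexHull ℝ (x '' Icc ∅ (Finset.univ.image f)) = ptope h0 b := by
  classical
  let A : (Fin k → ℝ) →ᵃ[ℝ] E :=
    (Fintype.linearCombination ℝ b).toAffineMap + AffineMap.const ℝ (Fin k → ℝ) h0
  have hA : ∀ t : Fin k → ℝ, A t = h0 + ∑ i, t i • b i := by
    intro t
    simp only [A, AffineMap.coe_add, Pi.add_apply, LinearMap.coe_toAffineMap,
      Fintype.linearCombination_apply, AffineMap.const_apply]
    rw [add_comm]
  have h1 : x '' Icc ∅ (Finset.univ.image f) =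
      A '' (Set.pi univ fun _ : Fin k => ({0, 1} : Set ℝ)) := by
    ext y
    constructor
    · rintro ⟨S, hS, rfl⟩
      refine ⟨fun r => if f r ∈ S then (1 : ℝ) else 0, ?_, ?_⟩
      · intro r _
        by_cases h : f r ∈ S
        · simp [h]
        · simp [h]
      · rw [hA, hx S hS.2]
    · rintro ⟨t, ht, rfl⟩
      have hsub : (Finset.univ.filter fun r => t r = 1).image f ⊆ Finset.univ.image f :=
        Finset.image_subset_image (Finset.filter_subset _ _)
      refine ⟨(Finset.univ.filter fun r => t r = 1).image f,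
        ⟨Finset.empty_subset _, hsub⟩, ?_⟩
      rw [hA, hx _ hsub]
      congr 1
      apply Finset.sum_congr rfl
      intro r _
      congr 1
      have h2 : f r ∈ (Finset.univ.filter fun r => t r = 1).image f ↔ t r = 1 := by
        rw [Finset.mem_image]
        constructor
        · rintro ⟨s, hs, hsr⟩
          rw [← hf hsr]
          exact (Finset.mem_filter.mp hs).2
        · intro h
          exact ⟨r, Finset.mem_filter.mpr ⟨Finset.mem_univ _, h⟩, rfl⟩
      rcases ht r (mem_univ _) with h | h
      · rw [if_neg, h]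
        intro hh
        rw [h2, h] at hh
        exact zero_ne_one hh
      · rw [if_pos (h2.mpr h), h]
  rw [h1, ← AffineMap.image_convexHull, convexHull_pi]
  ext y
  constructor
  · rintro ⟨t, ht, rfl⟩
    refine ⟨t, ?_, hA t⟩
    intro i
    have h2 := ht i (mem_univ _)
    rw [convexHull_pair, segment_eq_Icc zero_le_one] at h2
    exact h2
  · rintro ⟨t, ht, rfl⟩
    refine ⟨t, ?_, hA t⟩
    intro i _
    rw [convexHull_pair, segment_eq_Icc zero_le_one]
    exact ht i

end Pool.Agent.Lib.MP_103b79_co
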