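import Mathlib
import Pool.Agent.Lib.MP_103b79_co.Cube
import Pool.Agent.Lib.MP_103b79_co.HullPtope

/-!
The vertices of a parallelotope form a cube.
-/

open Set Module
namespace Pool.Agent.Lib.MP_103b79_co

theorem cubeFace_ptope {E : Type*} [NormedAddCommGroup E] [NormedSpace ℝ E] [FiniteDimensional ℝ E]
    {d : ℕ} {p : E} {b : Fin d → E} (hb : LinearIndependent ℝ b) :
    CubeFace (ptope p b) (fun S => p + ∑ i ∈ S, b i) := by
  classical
  -- the parallelotope is the hull of its vertices
  have hhull : ptope p b = convexHull ℝ (Set.range fun S : Finset (Fin d) => p + ∑ i ∈ S, b i) := by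
    have h1 := hull_eq_ptope (fun S : Finset (Fin d) => p + ∑ i ∈ S, b i) (id : Fin d → Fin d)
      Function.injective_id p b (by
        intro S _
        congr 1
        rw [← Finset.sum_filter_add_sum_filter_not Finset.univ (fun i => i ∈ S)]
        have e1 : ∑ i ∈ Finset.univ.filter (fun i => i ∈ S),
            (if (id i : Fin d) ∈ S then (1 : ℝ) else 0) • b i = ∑ i ∈ S, b i := by
          rw [Finset.filter_mem_eq_inter, Finset.univ_inter]
          apply Finset.sum_congr rfl
          intro i hi
          simp [hi]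
        have e2 : ∑ i ∈ Finset.univ.filter (fun i => ¬ i ∈ S),
            (if (id i : Fin d) ∈ S then (1 : ℝ) else 0) • b i = 0 := by
          apply Finset.sum_eq_zero
          intro i hi
          have := (Finset.mem_filter.mp hi).2
          simp [this]
        rw [e1, e2, add_zero])
    rw [← h1]
    congr 1
    ext y
    constructor
    · rintro ⟨S, _, rfl⟩
      exact ⟨S, rfl⟩
    · rintro ⟨S, rfl⟩
      refine ⟨S, ⟨Finset.empty_subset _, ?_⟩, rfl⟩
      intro i _
      simp
  -- functionals with given values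
  have hfun : ∀ a : Fin d → ℝ, ∃ l : E →ₗ[ℝ] ℝ, ∀ i, l (b i) = a i := by
    intro a
    obtain ⟨l, hl⟩ := LinearMap.exists_extend ((Basis.span hb).constr ℝ a)
    refine ⟨l, fun i => ?_⟩
    have h1 := LinearMap.congr_fun hl (Basis.span hb i)
    rw [Basis.constr_basis, LinearMap.comp_apply, Submodule.subtype_apply,
      Basis.span_apply] at h1
    exact h1
  have hinj : Function.Injective (fun S : Finset (Fin d) => p + ∑ i ∈ S, b i) := by
    intro S T hST
    have h1 : ∑ i ∈ S, b i = ∑ i ∈ T, b i := add_left_cancel hST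
    ext j
    obtain ⟨l, hl⟩ := hfun (fun i => if i = j then 1 else 0)
    have h2 := congrArg l h1
    rw [map_sum, map_sum] at h2
    simp only [hl, Finset.sum_ite_eq'] at h2
    by_cases h3 : j ∈ S <;> by_cases h4 : j ∈ T <;> simp_all
  refine ⟨hinj, fun S T hST => ⟨?_, ?_⟩⟩
  · obtain ⟨l, hl⟩ := hfun (fun i => (if i ∈ S then 1 else 0) - (if i ∈ T then 0 else 1))
    have hval : ∀ R : Finset (Fin d), l (p + ∑ i ∈ R, b i) =
        l p + (((R ∩ S).card : ℝ) - ((R \ T).card : ℝ)) := by
      intro R
      rw [map_add, map_sum]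
      congr 1
      simp only [hl, Finset.sum_sub_distrib]
      congr 1
      · rw [← Finset.sum_filter, Finset.sum_const, Finset.filter_mem_eq_inter]
        simp
      · have : ∀ i, (if i ∈ T then (0 : ℝ) else 1) = if ¬ i ∈ T then 1 else 0 := by
          intro i
          by_cases h : i ∈ T <;> simp [h]
        simp only [this]
        rw [← Finset.sum_filter, Finset.sum_const, Finset.filter_notMem_eq_sdiff]
        simp
    have hle : ∀ R : Finset (Fin d), ((R ∩ S).card : ℝ) ≤ S.card := by
      intro R
      exact_mod_cast Finset.card_le_card Finset.inter_subset_right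
    have h1 := exposed_face (Set.range fun S : Finset (Fin d) => p + ∑ i ∈ S, b i) l
      (l p + S.card) (by
        rintro _ ⟨R, rfl⟩
        have h2 := hle R
        have h3 : (0 : ℝ) ≤ ((R \ T).card : ℝ) := Nat.cast_nonneg _
        simp only [hval]
        linarith) ⟨_, ⟨S, rfl⟩, by
        simp only [hval]
        rw [Finset.inter_self, Finset.sdiff_eq_empty_iff_subset.mpr hST]
        simp⟩
    have h2 : {w ∈ Set.range fun S : Finset (Fin d) => p + ∑ i ∈ S, b i | l w = l p + S.card} =
        (fun S : Finset (Fin d) => p + ∑ i ∈ S, b i) '' Icc S T := by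
      ext w
      constructor
      · rintro ⟨⟨R, rfl⟩, hw⟩
        refine ⟨R, ?_, rfl⟩
        simp only [hval] at hw
        have h2 := hle R
        have h3 : (0 : ℝ) ≤ ((R \ T).card : ℝ) := Nat.cast_nonneg _
        have h4 : ((R ∩ S).card : ℝ) = S.card := by linarith
        have h5 : ((R \ T).card : ℝ) = 0 := by linarith
        constructor
        · have h6 : (R ∩ S).card = S.card := by exact_mod_cast h4
          have h7 := Finset.eq_of_subset_of_card_le (Finset.inter_subset_right (s₁ := R) (s₂ := S))
            h6.ge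
          exact Finset.inter_eq_right.mp h7
        · have h6 : (R \ T).card = 0 := by exact_mod_cast h5
          exact Finset.sdiff_eq_empty_iff_subset.mp (Finset.card_eq_zero.mp h6)
      · rintro ⟨R, hR, rfl⟩
        refine ⟨⟨R, rfl⟩, ?_⟩
        have h3 : R ∩ S = S := Finset.inter_eq_right.mpr hR.1
        have h4 : R \ T = ∅ := Finset.sdiff_eq_empty_iff_subset.mpr hR.2
        simp only [hval, h3, h4]
        simp
    rw [hhull, ← h2]
    exact h1
  · rw [dimOf, vectorSpan_hull]
    have hmem : p + ∑ i ∈ S, b i ∈ (fun S : Finset (Fin d) => p + ∑ i ∈ S, b i) '' Icc S T :=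
      ⟨S, ⟨Finset.Subset.refl _, hST⟩, rfl⟩
    have h1 : vectorSpan ℝ ((fun S : Finset (Fin d) => p + ∑ i ∈ S, b i) '' Icc S T) =
        Submodule.span ℝ (b '' ((T \ S : Finset (Fin d)) : Set (Fin d))) := by
      rw [vectorSpan_eq_span_vsub_set_right ℝ hmem]
      apply le_antisymm
      · rw [Submodule.span_le]
        rintro _ ⟨_, ⟨R, hR, rfl⟩, rfl⟩
        have h2 : ∑ i ∈ R, b i = ∑ i ∈ S, b i + ∑ i ∈ R \ S, b i := by
          rw [add_comm, Finset.sum_sdiff hR.1]
        have h3 : (p + ∑ i ∈ R, b i) -ᵥ (p + ∑ i ∈ S, b i) = ∑ i ∈ R \ S, b i := by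
          rw [vsub_eq_sub, h2]
          abel
        simp only [h3]
        apply Submodule.sum_mem
        intro i hi
        apply Submodule.subset_span
        refine ⟨i, ?_, rfl⟩
        have := Finset.mem_sdiff.mp hi
        exact Finset.mem_coe.mpr (Finset.mem_sdiff.mpr ⟨hR.2 this.1, this.2⟩)
      · rw [Submodule.span_le]
        rintro _ ⟨i, hi, rfl⟩
        have hi' := Finset.mem_sdiff.mp (Finset.mem_coe.mp hi)
        apply Submodule.subset_span
        refine ⟨p + ∑ j ∈ insert i S, b j, ⟨insert i S, ⟨Finset.subset_insert _ _,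
          Finset.insert_subset hi'.1 hST⟩, rfl⟩, ?_⟩
        simp only [vsub_eq_sub]
        rw [Finset.sum_insert hi'.2]
        abel
    rw [h1]
    have h2 : LinearIndependent ℝ (fun i : ((T \ S : Finset (Fin d)) : Set (Fin d)) => b i) :=
      hb.comp _ Subtype.val_injective
    have h3 := finrank_span_eq_card h2
    have h4 : Set.range (fun i : ((T \ S : Finset (Fin d)) : Set (Fin d)) => b i) =
        b '' ((T \ S : Finset (Fin d)) : Set (Fin d)) := by
      ext y
      constructor
      · rintro ⟨i, rfl⟩
        exact ⟨i, i.2, rfl⟩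
      · rintro ⟨i, hi, rfl⟩
        exact ⟨⟨i, hi⟩, rfl⟩
    rw [h4] at h3
    rw [h3]
    exact Fintype.card_coe (T \ S)

end Pool.Agent.Lib.MP_103b79_co
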