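import Mathlib
import Pool.Agent.Lib.MP_103b79_co.CubeAlg

open Set Module

namespace Pool.Agent.Lib.MP_103b79_co

section Core

variable {E : Type*} [NormedAddCommGroup E] [NormedSpace ℝ E] [FiniteDimensional ℝ E] {m : ℕ}
  {P : Set E} {x : Finset (Fin m) → E}

/-- The initial segments of the sequence `f`. -/
def chainSet (f : ℕ → Fin m) (n : ℕ) : Finset (Fin m) := (Finset.range n).image f

lemma chainSet_succ (f : ℕ → Fin m) (n : ℕ) :
    chainSet f (n + 1) = insert (f n) (chainSet f n) := by
  rw [chainSet, Finset.range_add_one, Finset.image_insert]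
  rfl

lemma chainSet_zero (f : ℕ → Fin m) : chainSet f 0 = ∅ := by
  simp [chainSet]

lemma chainSet_subset (f : ℕ → Fin m) {n M : ℕ} (h : n ≤ M) :
    chainSet f n ⊆ (Finset.range M).image f :=
  Finset.image_subset_image (Finset.range_subset_range.2 h)

lemma mem_chainSet {f : ℕ → Fin m} {n r : ℕ} (h : r < n) : f r ∈ chainSet f n :=
  Finset.mem_image_of_mem f (Finset.mem_range.2 h)

lemma notMem_chainSet {f : ℕ → Fin m} {M n r : ℕ} (hf : ∀ r < M, ∀ s < M, f r = f s → r = s)
    (hr : r < M) (hn : n ≤ r) : f r ∉ chainSet f n := by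
  intro h
  obtain ⟨s, hs, heq⟩ := Finset.mem_image.1 h
  rw [Finset.mem_range] at hs
  have := hf s (by omega) r hr heq
  omega

omit [FiniteDimensional ℝ E] in
/-- Coordinates of the vertices of the initial chain. -/
lemma chain_coords {M : ℕ} {f : ℕ → Fin m} {a b : ℝ}
    (ha : 0 < a) (hb : 0 < b) (hab : a + b ≠ 1)
    (hf : ∀ r < M, ∀ s < M, f r = f s → r = s) {Y : ℕ → (E →ₗ[ℝ] ℝ)}
    (hY2 : ∀ S : Finset (Fin m), S ⊆ (Finset.range M).image f → ∀ r < M, f r ∉ S →
        Y r (x S - x ∅) = 0)
    (hY3 : ∀ S : Finset (Fin m), S ⊆ (Finset.range M).image f → ∀ r < M, f r ∈ S →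
        Y r (x S - x ∅) + (1 - a) / b * (∑ s ∈ Finset.range M, Y s (x S - x ∅) -
          ∑ s ∈ Finset.range (r + 1), Y s (x S - x ∅)) +
          (1 - b) / a * ∑ s ∈ Finset.range r, Y s (x S - x ∅) = 1)
    (n : ℕ) (hn : n + 1 ≤ M) :
    ∃ δ : ℝ, (∀ r < n + 1, Y r (x (chainSet f (n + 1)) - x ∅) = (b / a) ^ r * δ) ∧
      δ * ((b / a) ^ n + (1 - b) / a * ∑ s ∈ Finset.range n, (b / a) ^ s) = 1 := by
  set S := chainSet f (n + 1) with hS
  have hSM : S ⊆ (Finset.range M).image f := chainSet_subset f hn
  set t : ℕ → ℝ := fun r => Y r (x S - x ∅) with ht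
  have hW : ∑ s ∈ Finset.range M, t s = ∑ s ∈ Finset.range (n + 1), t s := by
    symm
    apply Finset.sum_subset (Finset.range_subset_range.2 hn)
    intro s hs hs'
    rw [Finset.mem_range] at hs hs'
    exact hY2 S hSM s hs (notMem_chainSet hf hs (by omega))
  have heq : ∀ r < n + 1, t r + (1 - a) / b * (∑ s ∈ Finset.range (n + 1), t s -
      ∑ s ∈ Finset.range (r + 1), t s) + (1 - b) / a * ∑ s ∈ Finset.range r, t s = 1 := by
    intro r hr
    rw [← hW]
    exact hY3 S hSM r (by omega) (mem_chainSet hr)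
  have hstep : ∀ r, r + 1 < n + 1 → t (r + 1) = b / a * t r := by
    intro r hr
    have h1 := heq r (by omega)
    have h2 := heq (r + 1) hr
    rw [Finset.sum_range_succ _ (r + 1), Finset.sum_range_succ _ r] at h2
    rw [Finset.sum_range_succ _ r] at h1
    have h3 : (1 - (1 - b) / a) * t r = (1 - (1 - a) / b) * t (r + 1) := by linarith
    have h4 : (1 - (1 - b) / a) = (a + b - 1) / a := by
      field_simp
      ring
    have h5 : (1 - (1 - a) / b) = (a + b - 1) / b := by
      field_simp
      ring
    rw [h4, h5] at h3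
    have h6 : a + b - 1 ≠ 0 := fun h => hab (by linarith)
    field_simp at h3
    field_simp
    linarith
  have hpow : ∀ r, r < n + 1 → t r = (b / a) ^ r * t 0 := by
    intro r
    induction r with
    | zero => intro _; simp
    | succ r ih =>
      intro hr
      rw [hstep r hr, ih (by omega), pow_succ]
      ring
  refine ⟨t 0, hpow, ?_⟩
  have h1 := heq n (by omega)
  rw [sub_self, mul_zero, add_zero, hpow n (by omega)] at h1
  have h2 : ∑ s ∈ Finset.range n, t s = (∑ s ∈ Finset.range n, (b / a) ^ s) * t 0 := by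
    rw [Finset.sum_mul]
    refine Finset.sum_congr rfl (fun s hs => ?_)
    rw [Finset.mem_range] at hs
    exact hpow s (by omega)
  rw [h2] at h1
  linarith

/-- The core lemma: equal coefficients along the chain force `b = 1`. -/
theorem homog_b (hP : IsHull P) (h : CubeFace P x) {M : ℕ} {f : ℕ → Fin m} {a b : ℝ}
    (ha : 0 < a) (hb : 0 < b) (hab : a + b ≠ 1) (hf : Homog x M f a b) {n n' : ℕ}
    (hn : n < n') (hn' : n' + 2 ≤ M) {α β β' : ℝ}
    (hq : x (insert (f n) (insert (f (n + 1)) (chainSet f n))) - x (chainSet f n) =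
      α • (x (insert (f n) (chainSet f n)) - x (chainSet f n)) +
      β • (x (insert (f (n + 1)) (chainSet f n)) - x (chainSet f n)))
    (hq' : x (insert (f n') (insert (f (n' + 1)) (chainSet f n'))) - x (chainSet f n') =
      α • (x (insert (f n') (chainSet f n')) - x (chainSet f n')) +
      β' • (x (insert (f (n' + 1)) (chainSet f n')) - x (chainSet f n')))
    (hlen : ‖x (insert (f n) (chainSet f n)) - x (chainSet f n)‖ =
      ‖x (insert (f n') (chainSet f n')) - x (chainSet f n')‖)
    (hlen0 : ‖x (insert (f n) ∅) - x ∅‖ = ‖x (insert (f n') ∅) - x ∅‖) : b = 1 := by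
  obtain ⟨Y, hY1, hY2, hY3, hY4⟩ := homog_coords hP h ha hb hf
  have hinj := hf.1
  set ρ := b / a with hρ
  set q := (1 - b) / a with hqd
  have hρ0 : 0 < ρ := div_pos hb ha
  let G : ℕ → ℝ := fun n => ρ ^ n + q * ∑ s ∈ Finset.range n, ρ ^ s
  have hch := fun n hn => chain_coords ha hb hab hinj hY2 hY3 n hn
  have key : ∀ n, n + 2 ≤ M → ∀ α β : ℝ,
      x (insert (f n) (insert (f (n + 1)) (chainSet f n))) - x (chainSet f n) =
      α • (x (insert (f n) (chainSet f n)) - x (chainSet f n)) +
      β • (x (insert (f (n + 1)) (chainSet f n)) - x (chainSet f n)) →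
      G n = α * G (n + 1) := by
    intro n hn α β hq
    obtain ⟨δ, h1, h2⟩ := hch n (by omega)
    obtain ⟨δ', h1', h2'⟩ := hch (n + 1) (by omega)
    have e1 : insert (f n) (insert (f (n + 1)) (chainSet f n)) = chainSet f (n + 1 + 1) := by
      rw [Finset.insert_comm, ← chainSet_succ, ← chainSet_succ]
    have e2 : insert (f n) (chainSet f n) = chainSet f (n + 1) := (chainSet_succ f n).symm
    rw [e1, e2] at hq
    have h3 := congrArg (Y n) hq
    have e3 : ∀ S : Finset (Fin m), x S - x (chainSet f n) =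
        (x S - x ∅) - (x (chainSet f n) - x ∅) := fun S => by abel
    have e4 : ∀ S : Finset (Fin m), Y n ((x S - x ∅) - (x (chainSet f n) - x ∅)) =
        Y n (x S - x ∅) - Y n (x (chainSet f n) - x ∅) := fun S => map_sub _ _ _
    rw [e3, e3 (chainSet f (n + 1)), e3 (insert (f (n + 1)) (chainSet f n)), map_add, map_smul,
      map_smul, e4, e4, e4, h1' n (by omega), h1 n (by omega),
      hY2 (chainSet f n) (chainSet_subset f (by omega)) n (by omega)
        (notMem_chainSet hinj (by omega) le_rfl),
      hY2 (insert (f (n + 1)) (chainSet f n)) ?_ n (by omega) ?_] at h3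
    · rw [sub_zero, sub_zero, sub_zero, smul_zero, add_zero, smul_eq_mul] at h3
      have h4 : δ' = α * δ := by
        have h5 : ρ ^ n * δ' = ρ ^ n * (α * δ) := by linarith
        exact mul_left_cancel₀ (pow_pos hρ0 n).ne' h5
      change δ * G n = 1 at h2
      change δ' * G (n + 1) = 1 at h2'
      rw [h4] at h2'
      calc G n = G n * (α * δ * G (n + 1)) := by rw [h2', mul_one]
        _ = α * G (n + 1) * (δ * G n) := by ring
        _ = α * G (n + 1) := by rw [h2, mul_one]
    · apply Finset.insert_subset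
      · exact Finset.mem_image_of_mem f (Finset.mem_range.2 (by omega))
      · exact chainSet_subset f (by omega)
    · rw [Finset.mem_insert]
      rintro (h5 | h5)
      · have := hinj n (by omega) (n + 1) (by omega) h5
        omega
      · exact notMem_chainSet hinj (by omega) le_rfl h5
  have hG1 := key n (by omega) α β hq
  have hG2 := key n' hn' α β' hq'
  have hGG : G n * G (n' + 1) = G n' * G (n + 1) := by
    rw [hG1, hG2]
    ring
  rcases scalar_alt hρ0 G (fun n => rfl) hn hGG with hq0 | ⟨hq1, hGone⟩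
  · rw [hqd, div_eq_zero_iff] at hq0
    rcases hq0 with h1 | h1
    · linarith
    · exact absurd h1 ha.ne'
  · have hX : ∀ n ≤ M, x (chainSet f n) - x ∅ =
        ∑ s ∈ Finset.range n, ρ ^ s • (x (insert (f s) ∅) - x ∅) := by
      intro n hn
      cases n with
      | zero => rw [chainSet_zero, sub_self, Finset.range_zero, Finset.sum_empty]
      | succ n =>
        obtain ⟨δ, h1, h2⟩ := hch n hn
        change δ * G n = 1 at h2
        rw [hGone, mul_one] at h2
        subst h2
        rw [hY4 _ (chainSet_subset f hn)]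
        symm
        apply Finset.sum_subset_zero_on_sdiff (Finset.range_subset_range.2 hn)
        · intro s hs
          rw [Finset.mem_sdiff, Finset.mem_range, Finset.mem_range] at hs
          rw [hY2 _ (chainSet_subset f hn) s hs.1 (notMem_chainSet hinj hs.1 (by omega)), zero_smul]
        · intro s hs
          rw [Finset.mem_range] at hs
          rw [h1 s hs, mul_one]
    have hstep : ∀ n, n + 1 ≤ M → x (insert (f n) (chainSet f n)) - x (chainSet f n) =
        ρ ^ n • (x (insert (f n) ∅) - x ∅) := by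
      intro n hn
      have h1 := hX (n + 1) hn
      rw [Finset.sum_range_succ, ← hX n (by omega), chainSet_succ] at h1
      have h2 : x (insert (f n) (chainSet f n)) - x (chainSet f n) =
        (x (insert (f n) (chainSet f n)) - x ∅) - (x (chainSet f n) - x ∅) := by abel
      rw [h2, h1]
      abel
    rw [hstep n (by omega), hstep n' (by omega), norm_smul, norm_smul, hlen0, norm_pow, norm_pow,
      Real.norm_of_nonneg hρ0.le] at hlen
    have hne : ‖x (insert (f n') ∅) - x ∅‖ ≠ 0 := by
      rw [norm_ne_zero_iff, sub_ne_zero]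
      intro heq
      have := h.1 heq
      have h1 : f n' ∈ (∅ : Finset (Fin m)) := by
        rw [← this]
        exact Finset.mem_insert_self _ _
      exact absurd h1 (Finset.notMem_empty _)
    have hpow := mul_right_cancel₀ hne hlen
    have hρ1 : ρ = 1 := by
      by_contra hcon
      exact hn.ne (pow_right_injective₀ hρ0 hcon hpow)
    have hq0 : q = 0 := by rw [hq1, hρ1, sub_self]
    rw [hqd, div_eq_zero_iff] at hq0
    rcases hq0 with h1 | h1
    · linarith
    · exact absurd h1 ha.ne'

omit [FiniteDimensional ℝ E] in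
/-- Reversing the order. -/
lemma Homog.rev {M : ℕ} {f : ℕ → Fin m} {a b : ℝ} (hf : Homog x M f a b) :
    Homog x M (fun r => f (M - 1 - r)) b a := by
  refine ⟨?_, ?_⟩
  · intro r hr s hs h
    have := hf.1 (M - 1 - r) (by omega) (M - 1 - s) (by omega) h
    omega
  · intro r s hrs hs
    have h1 := hf.2 (M - 1 - s) (M - 1 - r) (by omega) (by omega)
    rw [Finset.insert_comm, h1]
    abel

/-- In homogeneous position with `a = b = 1` the cube is in vector form. -/
lemma homog_vec (hP : IsHull P) (h : CubeFace P x) {M : ℕ} {f : ℕ → Fin m}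
    (hf : Homog x M f 1 1) (S : Finset (Fin m)) (hS : S ⊆ (Finset.range M).image f) :
    x S = x ∅ + ∑ s ∈ Finset.range M, (if f s ∈ S then (1 : ℝ) else 0) •
      (x (insert (f s) ∅) - x ∅) := by
  obtain ⟨Y, hY1, hY2, hY3, hY4⟩ := homog_coords hP h one_pos one_pos hf
  have h1 : ∀ s ∈ Finset.range M, Y s (x S - x ∅) • (x (insert (f s) ∅) - x ∅) =
      (if f s ∈ S then (1 : ℝ) else 0) • (x (insert (f s) ∅) - x ∅) := by
    intro s hs
    rw [Finset.mem_range] at hs
    by_cases hsS : f s ∈ S
    · have h2 := hY3 S hS s hs hsS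
      rw [sub_self, zero_div, zero_mul, zero_mul, add_zero, add_zero] at h2
      rw [if_pos hsS, h2]
    · rw [if_neg hsS, hY2 S hS s hs hsS]
  rw [← Finset.sum_congr rfl h1, ← hY4 S hS]
  abel

end Core

end Pool.Agent.Lib.MP_103b79_co
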