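import Mathlib

set_option autoImplicit false

namespace Pool.Agent.Lib.MP_103b79_co

/-- Pre-homogeneous sequences: the colour of a pair depends only on the smaller element. -/
theorem ramsey_pre (N L : ℕ) : ∃ M : ℕ, ∀ (α : Type) [LinearOrder α] (C : Type) (s : Finset C),
    s.card ≤ N → ∀ (col : α → α → C) (A : Finset α), M ≤ A.card →
    (∀ i ∈ A, ∀ j ∈ A, i < j → col i j ∈ s) →
    ∃ (f : Fin L → α) (g : Fin L → C), StrictMono f ∧ (∀ i, f i ∈ A) ∧
      ∀ i j, i < j → col (f i) (f j) = g i := by
  classical
  induction L with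
  | zero =>
    refine ⟨0, fun α _ C s _ col A _ _ => ⟨Fin.elim0, Fin.elim0, ?_, ?_, ?_⟩⟩
    · intro i; exact i.elim0
    · intro i; exact i.elim0
    · intro i; exact i.elim0
  | succ L ih =>
    obtain ⟨M, hM⟩ := ih
    refine ⟨N * M + 2, fun α _ C s hs col A hA hcol => ?_⟩
    have hne : A.Nonempty := Finset.card_pos.1 (by omega)
    set a := A.min' hne with ha
    have haA : a ∈ A := Finset.min'_mem _ _
    have hlt : ∀ j ∈ A.erase a, a < j := by
      intro j hj
      rw [Finset.mem_erase] at hj
      exact lt_of_le_of_ne (Finset.min'_le _ _ hj.2) (Ne.symm hj.1)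
    have hBc : N * M + 1 ≤ (A.erase a).card := by
      rw [Finset.card_erase_of_mem haA]; omega
    have hBne : (A.erase a).Nonempty := Finset.card_pos.1 (by omega)
    have hmaps : ∀ j ∈ A.erase a, col a j ∈ s := fun j hj =>
      hcol a haA j (Finset.mem_of_mem_erase hj) (hlt j hj)
    have hsne : s.Nonempty := ⟨_, hmaps _ hBne.choose_spec⟩
    obtain ⟨c, _, hc⟩ := Finset.exists_le_card_fiber_of_mul_le_card_of_maps_to hmaps hsne
      (n := M) (by
        calc s.card * M ≤ N * M := Nat.mul_le_mul_right M hs
          _ ≤ _ := by omega)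
    obtain ⟨f, g, hf, hfA, hg⟩ := hM α C s hs col _ hc (by
      intro i hi j hj hij
      rw [Finset.mem_filter] at hi hj
      exact hcol i (Finset.mem_of_mem_erase hi.1) j (Finset.mem_of_mem_erase hj.1) hij)
    refine ⟨Fin.cons a f, Fin.cons c g, ?_, ?_, ?_⟩
    · intro i j hij
      induction i using Fin.cases with
      | zero =>
        induction j using Fin.cases with
        | zero => exact absurd hij (lt_irrefl _)
        | succ j =>
          rw [Fin.cons_zero, Fin.cons_succ]
          exact hlt _ (Finset.mem_filter.1 (hfA j)).1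
      | succ i =>
        induction j using Fin.cases with
        | zero => exact absurd hij (Fin.not_lt_zero _)
        | succ j =>
          rw [Fin.cons_succ, Fin.cons_succ]
          exact hf (Fin.succ_lt_succ_iff.1 hij)
    · intro i
      induction i using Fin.cases with
      | zero => rw [Fin.cons_zero]; exact haA
      | succ i =>
        rw [Fin.cons_succ]
        exact Finset.mem_of_mem_erase (Finset.mem_filter.1 (hfA i)).1
    · intro i j hij
      induction i using Fin.cases with
      | zero =>
        induction j using Fin.cases with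
        | zero => exact absurd hij (lt_irrefl _)
        | succ j =>
          rw [Fin.cons_zero, Fin.cons_succ, Fin.cons_zero]
          exact (Finset.mem_filter.1 (hfA j)).2
      | succ i =>
        induction j using Fin.cases with
        | zero => exact absurd hij (Fin.not_lt_zero _)
        | succ j =>
          rw [Fin.cons_succ, Fin.cons_succ, Fin.cons_succ]
          exact hg i j (Fin.succ_lt_succ_iff.1 hij)

/-- Finite Ramsey theorem for pairs and at most `N` colours. -/
theorem ramsey_pairs (N m' : ℕ) : ∃ m : ℕ, ∀ (C : Type) (s : Finset C), s.card ≤ N →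
    ∀ col : Fin m → Fin m → C, (∀ i j, i < j → col i j ∈ s) →
    ∃ (f : Fin m' → Fin m) (c : C), StrictMono f ∧ ∀ i j, i < j → col (f i) (f j) = c := by
  classical
  obtain ⟨M, hM⟩ := ramsey_pre N (N * m' + 2)
  refine ⟨M, fun C s hs col hcol => ?_⟩
  obtain ⟨f, g, hf, -, hg⟩ := hM (Fin M) C s hs col Finset.univ (by simp)
    (fun i _ j _ hij => hcol i j hij)
  set T : Finset (Fin (N * m' + 2)) := Finset.univ.erase (Fin.last _) with hT
  have hTc : T.card = N * m' + 1 := by
    rw [hT, Finset.card_erase_of_mem (Finset.mem_univ _), Finset.card_univ, Fintype.card_fin]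
    omega
  have hmaps : ∀ i ∈ T, g i ∈ s := by
    intro i hi
    have h1 : i < Fin.last _ := Fin.lt_last_iff_ne_last.2 (Finset.ne_of_mem_erase hi)
    rw [← hg i _ h1]
    exact hcol _ _ (hf h1)
  have hTne : T.Nonempty := Finset.card_pos.1 (by omega)
  have hsne : s.Nonempty := ⟨_, hmaps _ hTne.choose_spec⟩
  obtain ⟨c, _, hc⟩ := Finset.exists_le_card_fiber_of_mul_le_card_of_maps_to hmaps hsne
    (n := m') (by
      calc s.card * m' ≤ N * m' := Nat.mul_le_mul_right m' hs
        _ ≤ _ := by omega)
  let h := Finset.orderEmbOfCardLe _ hc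
  refine ⟨fun i => f (h i), c, ?_, ?_⟩
  · intro i j hij
    exact hf (h.strictMono hij)
  · intro i j hij
    rw [hg _ _ (h.strictMono hij)]
    have h1 := Finset.orderEmbOfCardLe_mem _ hc i
    exact (Finset.mem_filter.1 h1).2

end Pool.Agent.Lib.MP_103b79_co
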