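import Mathlib
import Pool.Agent.Lib.MP_103b79_co.Cube

open Set Module

namespace Pool.Agent.Lib.MP_103b79_co

/-- Every 2-face of the cube is carried by a symmetry of `P` into the fixed k-face `F(∅, T0)`. -/
theorem CubeFace.shape {E : Type*} [NormedAddCommGroup E] [NormedSpace ℝ E] [FiniteDimensional ℝ E]
    {m k : ℕ} {P : Set E} {x : Finset (Fin m) → E} (hP : IsHull P) (h : CubeFace P x)
    (hk2 : 2 ≤ k) (hk : FaceTransitive k P) {T0 : Finset (Fin m)} (hT0 : T0.card = k)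
    {A : Finset (Fin m)} {i j : Fin m} (hij : i ≠ j) (hi : i ∉ A) (hj : j ∉ A) :
    ∃ (g : E ≃ᵢ E) (R1 R2 R3 R4 : Finset (Fin m)), g '' P = P ∧
      R1 ⊆ T0 ∧ R2 ⊆ T0 ∧ R3 ⊆ T0 ∧ R4 ⊆ T0 ∧
      g (x A) = x R1 ∧ g (x (insert i A)) = x R2 ∧ g (x (insert j A)) = x R3 ∧
      g (x (insert i (insert j A))) = x R4 := by
  have _ := hP
  have _ := hi
  have _ := hj
  obtain ⟨K, hK, hKcard⟩ := Finset.exists_superset_card_eq (s := ({i, j} : Finset (Fin m)))
    (n := k) (by rw [Finset.card_pair hij]; exact hk2) (by rw [← hT0]; exact Finset.card_le_univ T0)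
  have hiK : i ∈ K := hK (by simp)
  have hjK : j ∈ K := hK (by simp)
  have hST : A \ K ⊆ A ∪ K := Finset.sdiff_subset.trans Finset.subset_union_left
  have hKeq : (A ∪ K) \ (A \ K) = K := by
    ext a
    simp only [Finset.mem_sdiff, Finset.mem_union]
    tauto
  have hF := h.2 (A \ K) (A ∪ K) hST
  have hF0 := h.2 ∅ T0 (Finset.empty_subset T0)
  rw [hKeq, hKcard] at hF
  rw [Finset.sdiff_empty, hT0] at hF0
  obtain ⟨g, hg, hgF⟩ := hk _ _ hF.1 hF.2 hF0.1 hF0.2
  have key : ∀ R : Finset (Fin m), A \ K ⊆ R → R ⊆ A ∪ K → ∃ R' ⊆ T0, g (x R) = x R' := by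
    intro R hR1 hR2
    have h1 : IsFace P {g (x R)} := by
      have := (vertex_face (h.vertex R)).map hg
      rwa [image_singleton] at this
    have h2 : g (x R) ∈ P.extremePoints ℝ := h1.2.2.mem_extremePoints
    have h3 : g (x R) ∈ convexHull ℝ (x '' Icc ∅ T0) := by
      rw [← hgF]
      exact mem_image_of_mem g ((h.mem_iff hST).2 ⟨hR1, hR2⟩)
    have h4 : g (x R) ∈ (convexHull ℝ (x '' Icc ∅ T0)).extremePoints ℝ :=
      inter_extremePoints_subset_extremePoints_of_subset hF0.1.2.2.subset ⟨h3, h2⟩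
    obtain ⟨R', hR', heq⟩ := extremePoints_convexHull_subset h4
    exact ⟨R', hR'.2, heq.symm⟩
  have hA1 : A \ K ⊆ A := Finset.sdiff_subset
  have hA2 : A ⊆ A ∪ K := Finset.subset_union_left
  have hi2 : i ∈ A ∪ K := Finset.mem_union_right _ hiK
  have hj2 : j ∈ A ∪ K := Finset.mem_union_right _ hjK
  obtain ⟨R1, hR1, e1⟩ := key A hA1 hA2
  obtain ⟨R2, hR2, e2⟩ := key (insert i A) (hA1.trans (Finset.subset_insert _ _))
    (Finset.insert_subset hi2 hA2)
  obtain ⟨R3, hR3, e3⟩ := key (insert j A) (hA1.trans (Finset.subset_insert _ _))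
    (Finset.insert_subset hj2 hA2)
  obtain ⟨R4, hR4, e4⟩ := key (insert i (insert j A))
    (hA1.trans ((Finset.subset_insert _ _).trans (Finset.subset_insert _ _)))
    (Finset.insert_subset hi2 (Finset.insert_subset hj2 hA2))
  exact ⟨g, R1, R2, R3, R4, hg, hR1, hR2, hR3, hR4, e1, e2, e3, e4⟩

end Pool.Agent.Lib.MP_103b79_co
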