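import Mathlib
import Pool.Agent.Lib.MP_103b79_co.CubeCore
import Pool.Agent.Lib.MP_103b79_co.Ramsey
import Pool.Agent.Lib.MP_103b79_co.Shape

open Set Module

namespace Pool.Agent.Lib.MP_103b79_co

section Main

variable {E : Type*} [NormedAddCommGroup E] [NormedSpace ℝ E] {m : ℕ}
  {P : Set E} {x : Finset (Fin m) → E}

/-- The two-dimensional face at `A` in the directions `i`, `j` is carried by a symmetry of `P`
to the quadruple `c` of vertices. -/
def Sh (P : Set E) (x : Finset (Fin m) → E) (A : Finset (Fin m)) (i j : Fin m)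
    (c : Finset (Fin m) × Finset (Fin m) × Finset (Fin m) × Finset (Fin m)) : Prop :=
  ∃ g : E ≃ᵢ E, g '' P = P ∧ g (x A) = x c.1 ∧ g (x (insert i A)) = x c.2.1 ∧
    g (x (insert j A)) = x c.2.2.1 ∧ g (x (insert i (insert j A))) = x c.2.2.2

lemma Sh.len {A : Finset (Fin m)} {i j : Fin m}
    {c : Finset (Fin m) × Finset (Fin m) × Finset (Fin m) × Finset (Fin m)}
    (h : Sh P x A i j c) : ‖x (insert i A) - x A‖ = ‖x c.2.1 - x c.1‖ := by
  obtain ⟨g, -, h1, h2, -, -⟩ := h
  rw [← h1, ← h2, ← dist_eq_norm, ← dist_eq_norm, g.dist_eq]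

variable [FiniteDimensional ℝ E]

lemma Sh.cong (hP : IsHull P) (h : CubeFace P x) {A A' : Finset (Fin m)} {i j i' j' : Fin m}
    {c : Finset (Fin m) × Finset (Fin m) × Finset (Fin m) × Finset (Fin m)}
    (h1 : Sh P x A i j c) (h2 : Sh P x A' i' j' c) (hij : i' ≠ j') (hi : i' ∉ A') (hj : j' ∉ A')
    {α β α' β' : ℝ}
    (hq : x (insert i (insert j A)) - x A =
      α • (x (insert i A) - x A) + β • (x (insert j A) - x A))
    (hq' : x (insert i' (insert j' A')) - x A' =
      α' • (x (insert i' A') - x A') + β' • (x (insert j' A') - x A')) :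
    α = α' ∧ β = β' := by
  obtain ⟨g, -, e1, e2, e3, e4⟩ := h1
  obtain ⟨g', -, e1', e2', e3', e4'⟩ := h2
  refine h.cong hP hij hi hj (g := g.trans g'.symm) ?_ ?_ ?_ ?_ hq hq'
  · rw [IsometryEquiv.trans_apply, e1, ← e1', IsometryEquiv.symm_apply_apply]
  · rw [IsometryEquiv.trans_apply, e2, ← e2', IsometryEquiv.symm_apply_apply]
  · rw [IsometryEquiv.trans_apply, e3, ← e3', IsometryEquiv.symm_apply_apply]
  · rw [IsometryEquiv.trans_apply, e4, ← e4', IsometryEquiv.symm_apply_apply]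

/-- Pigeonhole along the chain. -/
lemma b_one (hP : IsHull P) (h : CubeFace P x) {N : ℕ}
    {s : Finset (Finset (Fin m) × Finset (Fin m) × Finset (Fin m) × Finset (Fin m))}
    (hs : s.card ≤ N)
    (hcol : ∀ (A : Finset (Fin m)) (i j : Fin m), i ≠ j → i ∉ A → j ∉ A →
      ∃ c ∈ s, Sh P x A i j c)
    {f : ℕ → Fin m} {a b ℓ : ℝ} (ha : 0 < a) (hb : 0 < b) (hab : a + b ≠ 1)
    (hf : Homog x (N + 3) f a b)
    (hlen : ∀ r, 1 ≤ r → r < N + 2 → ‖x (insert (f r) ∅) - x ∅‖ = ℓ) : b = 1 := by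
  classical
  have hne : ∀ n, n + 1 < N + 3 → f n ≠ f (n + 1) := by
    intro n hn heq
    have := hf.1 n (by omega) (n + 1) hn heq
    omega
  have hn1 : ∀ n, n + 1 < N + 3 → f n ∉ chainSet f n := fun n hn =>
    notMem_chainSet hf.1 (by omega) le_rfl
  have hn2 : ∀ n, n + 1 < N + 3 → f (n + 1) ∉ chainSet f n := fun n hn =>
    notMem_chainSet hf.1 hn (by omega)
  have hc : ∀ n, ∃ c, n + 1 < N + 3 → c ∈ s ∧ Sh P x (chainSet f n) (f n) (f (n + 1)) c := by
    intro n
    by_cases hn : n + 1 < N + 3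
    · obtain ⟨c, hc, hc'⟩ := hcol (chainSet f n) (f n) (f (n + 1)) (hne n hn) (hn1 n hn) (hn2 n hn)
      exact ⟨c, fun _ => ⟨hc, hc'⟩⟩
    · exact ⟨(∅, ∅, ∅, ∅), fun h => absurd h hn⟩
  choose col hcol' using hc
  have hmain : ∀ n n', 1 ≤ n → n < n' → n' < N + 2 → col n = col n' → b = 1 := by
    intro n n' h1 hlt h2 heq
    have s1 := (hcol' n (by omega)).2
    have s2 := (hcol' n' (by omega)).2
    rw [← heq] at s2
    obtain ⟨α, β, -, -, -, hq⟩ := h.quad hP (hne n (by omega)) (hn1 n (by omega))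
      (hn2 n (by omega))
    obtain ⟨α', β', -, -, -, hq'⟩ := h.quad hP (hne n' (by omega)) (hn1 n' (by omega))
      (hn2 n' (by omega))
    obtain ⟨rfl, rfl⟩ := Sh.cong hP h s1 s2 (hne n' (by omega)) (hn1 n' (by omega))
      (hn2 n' (by omega)) hq hq'
    refine homog_b hP h ha hb hab hf hlt (by omega) hq hq' ?_ ?_
    · rw [s1.len, s2.len]
    · rw [hlen n h1 (by omega), hlen n' (by omega) h2]
  have hcard : s.card < (Finset.Icc 1 (N + 1)).card := by
    rw [Nat.card_Icc]
    omega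
  obtain ⟨n, hn, n', hn', hnn, heq⟩ := Finset.exists_ne_map_eq_of_card_lt_of_maps_to hcard
    (f := col) (fun n hn => (hcol' n (by rw [Finset.mem_coe, Finset.mem_Icc] at hn; omega)).1)
  rw [Finset.mem_Icc] at hn hn'
  rcases lt_or_gt_of_ne hnn with hlt | hlt
  · exact hmain n n' (by omega) hlt (by omega) heq
  · exact hmain n' n (by omega) hlt (by omega) heq.symm

/-- A large cube face of a `k`-face-transitive polytope contains a `k`-face in vector form. -/
theorem cube_vec (k : ℕ) (hk2 : 2 ≤ k) : ∃ M : ℕ, k ≤ M ∧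
    ∀ (E : Type) [NormedAddCommGroup E] [NormedSpace ℝ E] [FiniteDimensional ℝ E] (m : ℕ)
      (P : Set E) (x : Finset (Fin m) → E), M ≤ m → IsHull P → CubeFace P x →
      FaceTransitive k P → ∃ f : Fin k → Fin m, Function.Injective f ∧
        ∀ S : Finset (Fin m), S ⊆ Finset.univ.image f → x S = x ∅ +
          ∑ r, (if f r ∈ S then (1 : ℝ) else 0) • (x (insert (f r) ∅) - x ∅) := by
  classical
  set N := (2 ^ k) ^ 4 with hN
  have hkN : k ≤ N := by
    have h1 : k < 2 ^ k := Nat.lt_two_pow_self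
    have h2 : 2 ^ k ≤ (2 ^ k) ^ 4 := Nat.le_self_pow (by norm_num) _
    omega
  obtain ⟨M, hM⟩ := ramsey_pairs N (N + 3)
  refine ⟨max M k, le_max_right _ _, ?_⟩
  intro E _ _ _ m P x hm hP h hk
  have hMm : M ≤ m := (le_max_left _ _).trans hm
  have hkm : k ≤ m := (le_max_right _ _).trans hm
  obtain ⟨T0, -, hT0⟩ := Finset.exists_subset_card_eq
    (s := (Finset.univ : Finset (Fin m))) (n := k) (by simpa using hkm)
  let s : Finset (Finset (Fin m) × Finset (Fin m) × Finset (Fin m) × Finset (Fin m)) :=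
    T0.powerset ×ˢ T0.powerset ×ˢ T0.powerset ×ˢ T0.powerset
  have hs : s.card ≤ N := by
    simp only [s, Finset.card_product, Finset.card_powerset, hT0, hN]
    apply le_of_eq
    ring
  have hcol : ∀ (A : Finset (Fin m)) (i j : Fin m), i ≠ j → i ∉ A → j ∉ A →
      ∃ c ∈ s, Sh P x A i j c := by
    intro A i j hij hi hj
    obtain ⟨g, R1, R2, R3, R4, hg, h1, h2, h3, h4, e1, e2, e3, e4⟩ :=
      h.shape hP hk2 hk hT0 hij hi hj
    refine ⟨(R1, R2, R3, R4), ?_, g, hg, e1, e2, e3, e4⟩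
    simp only [s, Finset.mem_product, Finset.mem_powerset]
    exact ⟨h1, h2, h3, h4⟩
  -- the colouring of pairs
  have hc : ∀ i j : Fin M, ∃ c, i < j → c ∈ s ∧
      Sh P x ∅ (Fin.castLE hMm i) (Fin.castLE hMm j) c := by
    intro i j
    by_cases hij : i < j
    · obtain ⟨c, hc, hc'⟩ := hcol ∅ (Fin.castLE hMm i) (Fin.castLE hMm j)
        (fun heq => hij.ne (Fin.castLE_injective hMm heq)) (Finset.notMem_empty _)
        (Finset.notMem_empty _)
      exact ⟨c, fun _ => ⟨hc, hc'⟩⟩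
    · exact ⟨(∅, ∅, ∅, ∅), fun h => absurd h hij⟩
  choose col hcol' using hc
  obtain ⟨f0, c, hf0, hfc⟩ := hM _ s hs col (fun i j hij => (hcol' i j hij).1)
  -- the homogeneous sequence
  let f : ℕ → Fin m := fun n =>
    if hn : n < N + 3 then Fin.castLE hMm (f0 ⟨n, hn⟩) else Fin.castLE hMm (f0 ⟨0, by omega⟩)
  have hfval : ∀ n (hn : n < N + 3), f n = Fin.castLE hMm (f0 ⟨n, hn⟩) := fun n hn => by
    simp only [f, dif_pos hn]
  have hinj : ∀ r < N + 3, ∀ t < N + 3, f r = f t → r = t := by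
    intro r hr t ht heq
    rw [hfval r hr, hfval t ht] at heq
    have h1 := hf0.injective (Fin.castLE_injective hMm heq)
    exact congrArg Fin.val h1
  have hsh : ∀ r t, r < t → t < N + 3 → Sh P x ∅ (f r) (f t) c := by
    intro r t hrt ht
    have hr : r < N + 3 := by omega
    have hlt : f0 ⟨r, hr⟩ < f0 ⟨t, ht⟩ := hf0 (by rw [Fin.mk_lt_mk]; exact hrt)
    have h1 := (hcol' _ _ hlt).2
    rw [hfc ⟨r, hr⟩ ⟨t, ht⟩ (by rw [Fin.mk_lt_mk]; exact hrt)] at h1
    rwa [hfval r hr, hfval t ht]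
  have hne : ∀ r t, r < t → t < N + 3 → f r ≠ f t := by
    intro r t hrt ht heq
    have := hinj r (by omega) t ht heq
    omega
  obtain ⟨a, b, ha, hb, hab, hq⟩ := h.quad hP (hne 0 1 one_pos (by omega))
    (Finset.notMem_empty _) (Finset.notMem_empty _)
  have hf : Homog x (N + 3) f a b := by
    refine ⟨hinj, ?_⟩
    intro r t hrt ht
    obtain ⟨a', b', -, -, -, hq'⟩ := h.quad hP (hne r t hrt ht)
      (Finset.notMem_empty _) (Finset.notMem_empty _)
    obtain ⟨rfl, rfl⟩ := Sh.cong hP h (hsh 0 1 one_pos (by omega)) (hsh r t hrt ht)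
      (hne r t hrt ht) (Finset.notMem_empty _) (Finset.notMem_empty _) hq hq'
    exact hq'
  have hlen : ∀ r, r < N + 2 → ‖x (insert (f r) ∅) - x ∅‖ = ‖x c.2.1 - x c.1‖ := by
    intro r hr
    exact (hsh r (r + 1) (by omega) (by omega)).len
  have hb1 : b = 1 := b_one hP h hs hcol ha hb hab hf (fun r _ hr => hlen r hr)
  have ha1 : a = 1 := by
    refine b_one hP h hs hcol hb ha (by rwa [add_comm]) hf.rev (fun r hr1 hr2 => hlen _ ?_)
    omega
  subst ha1
  subst hb1
  refine ⟨fun r : Fin k => f r, ?_, ?_⟩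
  · intro r t heq
    exact Fin.ext (hinj r (by omega) t (by omega) heq)
  · intro S hS
    have h1 : S ⊆ (Finset.range (N + 3)).image f := by
      intro j hj
      obtain ⟨r, -, rfl⟩ := Finset.mem_image.1 (hS hj)
      exact Finset.mem_image_of_mem f (Finset.mem_range.2 (by omega))
    have h2 := homog_vec hP h hf S h1
    conv_lhs => rw [h2]
    congr 1
    rw [← Finset.sum_range (fun r => (if f r ∈ S then (1 : ℝ) else 0) •
      (x (insert (f r) ∅) - x ∅))]
    symm
    apply Finset.sum_subset (Finset.range_subset_range.2 (by omega))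
    intro r hr hr'
    rw [Finset.mem_range] at hr hr'
    rw [if_neg, zero_smul]
    intro hmem
    obtain ⟨t, -, heq⟩ := Finset.mem_image.1 (hS hmem)
    have := hinj t (by omega) r hr heq
    omega

end Main

end Pool.Agent.Lib.MP_103b79_co
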