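import Mathlib
import Pool.Agent.Lib.MP_103b79_co.CubeMain

open Set Module

namespace Pool.Agent.Lib.MP_103b79_co

/-- A large cube face of a `k`-face-transitive polytope contains an `n`-dimensional cube in vector
form. -/
theorem cube_vec_n (k n : ℕ) (hk2 : 2 ≤ k) : ∃ M : ℕ,
    ∀ (E : Type) [NormedAddCommGroup E] [NormedSpace ℝ E] [FiniteDimensional ℝ E] (m : ℕ)
      (P : Set E) (x : Finset (Fin m) → E), M ≤ m → IsHull P → CubeFace P x →
      FaceTransitive k P → ∃ f : Fin n → Fin m, Function.Injective f ∧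
        ∀ S : Finset (Fin n), x (S.image f) = x ∅ + ∑ i ∈ S, (x (insert (f i) ∅) - x ∅) := by
  classical
  set N := (2 ^ k) ^ 4 + n with hN
  have hnN : n ≤ N := by omega
  obtain ⟨M, hM⟩ := ramsey_pairs N (N + 3)
  refine ⟨max M k, ?_⟩
  intro E _ _ _ m P x hm hP h hk
  have hMm : M ≤ m := (le_max_left _ _).trans hm
  have hkm : k ≤ m := (le_max_right _ _).trans hm
  obtain ⟨T0, -, hT0⟩ := Finset.exists_subset_card_eq
    (s := (Finset.univ : Finset (Fin m))) (n := k) (by simpa using hkm)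
  let s : Finset (Finset (Fin m) × Finset (Fin m) × Finset (Fin m) × Finset (Fin m)) :=
    T0.powerset ×ˢ T0.powerset ×ˢ T0.powerset ×ˢ T0.powerset
  have hs : s.card ≤ N := by
    simp only [s, Finset.card_product, Finset.card_powerset, hT0, hN]
    refine le_trans (le_of_eq ?_) (Nat.le_add_right _ _)
    ring
  have hcol : ∀ (A : Finset (Fin m)) (i j : Fin m), i ≠ j → i ∉ A → j ∉ A →
      ∃ c ∈ s, Sh P x A i j c := by
    intro A i j hij hi hj
    obtain ⟨g, R1, R2, R3, R4, hg, h1, h2, h3, h4, e1, e2, e3, e4⟩ :=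
      h.shape hP hk2 hk hT0 hij hi hj
    refine ⟨(R1, R2, R3, R4), ?_, g, hg, e1, e2, e3, e4⟩
    simp only [s, Finset.mem_product, Finset.mem_powerset]
    exact ⟨h1, h2, h3, h4⟩
  -- the colouring of pairs
  have hc : ∀ i j : Fin M, ∃ c, i < j → c ∈ s ∧
      Sh P x ∅ (Fin.castLE hMm i) (Fin.castLE hMm j) c := by
    intro i j
    by_cases hij : i < j
    · obtain ⟨c, hc, hc'⟩ := hcol ∅ (Fin.castLE hMm i) (Fin.castLE hMm j)
        (fun heq => hij.ne (Fin.castLE_injective hMm heq)) (Finset.notMem_empty _)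
        (Finset.notMem_empty _)
      exact ⟨c, fun _ => ⟨hc, hc'⟩⟩
    · exact ⟨(∅, ∅, ∅, ∅), fun h => absurd h hij⟩
  choose col hcol' using hc
  obtain ⟨f0, c, hf0, hfc⟩ := hM _ s hs col (fun i j hij => (hcol' i j hij).1)
  -- the homogeneous sequence
  let f : ℕ → Fin m := fun n =>
    if hn : n < N + 3 then Fin.castLE hMm (f0 ⟨n, hn⟩) else Fin.castLE hMm (f0 ⟨0, by omega⟩)
  have hfval : ∀ n (hn : n < N + 3), f n = Fin.castLE hMm (f0 ⟨n, hn⟩) := fun n hn => by
    simp only [f, dif_pos hn]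
  have hinj : ∀ r < N + 3, ∀ t < N + 3, f r = f t → r = t := by
    intro r hr t ht heq
    rw [hfval r hr, hfval t ht] at heq
    have h1 := hf0.injective (Fin.castLE_injective hMm heq)
    exact congrArg Fin.val h1
  have hsh : ∀ r t, r < t → t < N + 3 → Sh P x ∅ (f r) (f t) c := by
    intro r t hrt ht
    have hr : r < N + 3 := by omega
    have hlt : f0 ⟨r, hr⟩ < f0 ⟨t, ht⟩ := hf0 (by rw [Fin.mk_lt_mk]; exact hrt)
    have h1 := (hcol' _ _ hlt).2
    rw [hfc ⟨r, hr⟩ ⟨t, ht⟩ (by rw [Fin.mk_lt_mk]; exact hrt)] at h1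
    rwa [hfval r hr, hfval t ht]
  have hne : ∀ r t, r < t → t < N + 3 → f r ≠ f t := by
    intro r t hrt ht heq
    have := hinj r (by omega) t ht heq
    omega
  obtain ⟨a, b, ha, hb, hab, hq⟩ := h.quad hP (hne 0 1 one_pos (by omega))
    (Finset.notMem_empty _) (Finset.notMem_empty _)
  have hf : Homog x (N + 3) f a b := by
    refine ⟨hinj, ?_⟩
    intro r t hrt ht
    obtain ⟨a', b', -, -, -, hq'⟩ := h.quad hP (hne r t hrt ht)
      (Finset.notMem_empty _) (Finset.notMem_empty _)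
    obtain ⟨rfl, rfl⟩ := Sh.cong hP h (hsh 0 1 one_pos (by omega)) (hsh r t hrt ht)
      (hne r t hrt ht) (Finset.notMem_empty _) (Finset.notMem_empty _) hq hq'
    exact hq'
  have hlen : ∀ r, r < N + 2 → ‖x (insert (f r) ∅) - x ∅‖ = ‖x c.2.1 - x c.1‖ := by
    intro r hr
    exact (hsh r (r + 1) (by omega) (by omega)).len
  have hb1 : b = 1 := b_one hP h hs hcol ha hb hab hf (fun r _ hr => hlen r hr)
  have ha1 : a = 1 := by
    refine b_one hP h hs hcol hb ha (by rwa [add_comm]) hf.rev (fun r hr1 hr2 => hlen _ ?_)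
    omega
  subst ha1
  subst hb1
  refine ⟨fun r : Fin n => f r, ?_, ?_⟩
  · intro r t heq
    exact Fin.ext (hinj r (by omega) t (by omega) heq)
  · intro S
    have h1 : S.image (fun r : Fin n => f r) ⊆ (Finset.range (N + 3)).image f := by
      intro j hj
      obtain ⟨r, -, rfl⟩ := Finset.mem_image.1 hj
      exact Finset.mem_image_of_mem f (Finset.mem_range.2 (by omega))
    have h2 := homog_vec hP h hf (S.image (fun r : Fin n => f r)) h1
    conv_lhs => rw [h2]
    congr 1
    have h3 : ∑ i ∈ S, (x (insert (f i) ∅) - x ∅) =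
        ∑ s ∈ S.image (fun r : Fin n => (r : ℕ)), (x (insert (f s) ∅) - x ∅) := by
      rw [Finset.sum_image (fun a _ b _ hab => Fin.ext hab)]
    rw [h3]
    symm
    apply Finset.sum_subset_zero_on_sdiff
    · intro r hr
      obtain ⟨t, -, rfl⟩ := Finset.mem_image.1 hr
      exact Finset.mem_range.2 (by omega)
    · intro r hr
      rw [Finset.mem_sdiff, Finset.mem_range] at hr
      rw [if_neg, zero_smul]
      intro hmem
      obtain ⟨t, ht, heq⟩ := Finset.mem_image.1 hmem
      have := hinj t (by omega) r hr.1 heq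
      subst this
      exact hr.2 (Finset.mem_image_of_mem _ ht)
    · intro r hr
      obtain ⟨t, ht, rfl⟩ := Finset.mem_image.1 hr
      rw [if_pos (Finset.mem_image_of_mem _ ht), one_smul]

end Pool.Agent.Lib.MP_103b79_co
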