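import Mathlib

open Set Module
namespace Pool.Agent.Lib.MP_103b79_co

/-- Equal edge lengths from equal distances of the centres of the `k`-faces of an orthogonal box. -/
theorem equal_edges {d k : ℕ} {p : EuclideanSpace ℝ (Fin d)} {b : Fin d → EuclideanSpace ℝ (Fin d)}
    (hbo : ∀ i j, i ≠ j → inner ℝ (b i) (b j) = 0) (hk1 : 1 ≤ k) (hkd : k + 1 ≤ d)
    (c0 : EuclideanSpace ℝ (Fin d))
    (hc : ∀ A K A' K' : Finset (Fin d), Disjoint A K → K.card = k → Disjoint A' K' → K'.card = k →
      ‖(p + ∑ i ∈ A, b i) + (1 / 2 : ℝ) • ∑ i ∈ K, b i - c0‖ =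
      ‖(p + ∑ i ∈ A', b i) + (1 / 2 : ℝ) • ∑ i ∈ K', b i - c0‖) :
    ∀ i j, ‖b i‖ = ‖b j‖ := by
  have hsum : ∀ (K : Finset (Fin d)) (i : Fin d), i ∉ K →
      inner ℝ (p + (1 / 2 : ℝ) • ∑ j ∈ K, b j - c0) (b i) = inner ℝ (p - c0) (b i) := by
    intro K i hi
    have h0 : inner ℝ (∑ j ∈ K, b j) (b i) = 0 := by
      rw [sum_inner]
      refine Finset.sum_eq_zero fun j hj => hbo j i ?_
      rintro rfl
      exact hi hj
    have : p + (1 / 2 : ℝ) • ∑ j ∈ K, b j - c0 = (p - c0) + (1 / 2 : ℝ) • ∑ j ∈ K, b j := by abel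
    rw [this, inner_add_left, real_inner_smul_left, h0]
    ring
  have hy : ∀ i, 2 * inner ℝ (p - c0) (b i) + ‖b i‖ ^ 2 = 0 := by
    intro i
    obtain ⟨K, hK, hKc⟩ := Finset.exists_subset_card_eq
      (s := (Finset.univ : Finset (Fin d)).erase i) (n := k)
      (by rw [Finset.card_erase_of_mem (Finset.mem_univ i), Finset.card_univ, Fintype.card_fin]; omega)
    have hi : i ∉ K := fun h => by simpa using hK h
    have h := hc ∅ K {i} K (Finset.disjoint_empty_left _) hKc
      (Finset.disjoint_singleton_left.2 hi) hKc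
    simp only [Finset.sum_empty, add_zero, Finset.sum_singleton] at h
    have h2 : p + b i + (1 / 2 : ℝ) • ∑ j ∈ K, b j - c0 =
        (p + (1 / 2 : ℝ) • ∑ j ∈ K, b j - c0) + b i := by abel
    rw [h2] at h
    have h3 := congrArg (fun t => t ^ 2) h
    beta_reduce at h3
    rw [norm_add_sq_real, hsum K i hi] at h3
    linarith
  intro i j
  by_cases hij : i = j
  · rw [hij]
  obtain ⟨K, hK, hKc⟩ := Finset.exists_subset_card_eq
      (s := ((Finset.univ : Finset (Fin d)).erase i).erase j) (n := k - 1)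
      (by
        rw [Finset.card_erase_of_mem (Finset.mem_erase.2 ⟨Ne.symm hij, Finset.mem_univ j⟩),
          Finset.card_erase_of_mem (Finset.mem_univ i), Finset.card_univ, Fintype.card_fin]
        omega)
  have hi : i ∉ K := fun h => by simpa using hK h
  have hj : j ∉ K := fun h => by simpa using hK h
  have hci : (insert i K).card = k := by rw [Finset.card_insert_of_notMem hi]; omega
  have hcj : (insert j K).card = k := by rw [Finset.card_insert_of_notMem hj]; omega
  have h := hc ∅ (insert i K) ∅ (insert j K) (Finset.disjoint_empty_left _) hci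
      (Finset.disjoint_empty_left _) hcj
  rw [Finset.sum_insert hi, Finset.sum_insert hj] at h
  simp only [Finset.sum_empty, add_zero] at h
  have h2 : ∀ v : EuclideanSpace ℝ (Fin d), p + (1 / 2 : ℝ) • (v + ∑ j ∈ K, b j) - c0 =
      (p + (1 / 2 : ℝ) • ∑ j ∈ K, b j - c0) + (1 / 2 : ℝ) • v := by
    intro v
    rw [smul_add]; abel
  rw [h2, h2] at h
  have h3 := congrArg (fun t => t ^ 2) h
  beta_reduce at h3
  rw [norm_add_sq_real, norm_add_sq_real, real_inner_smul_right, real_inner_smul_right,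
    hsum K i hi, hsum K j hj, norm_smul, norm_smul] at h3
  have hyi := hy i
  have hyj := hy j
  have hn : ‖(1 / 2 : ℝ)‖ = 1 / 2 := by norm_num
  rw [hn] at h3
  have h4 : ‖b i‖ ^ 2 = ‖b j‖ ^ 2 := by nlinarith
  exact (pow_left_inj₀ (norm_nonneg _) (norm_nonneg _) (by norm_num)).1 h4

/-- Orthogonality of the edges of an `n`-parallelotope, `n = k + 2`, from the centres of its `k`-faces. -/
theorem orth_of_centers {d n k : ℕ} (hn : n = k + 2) {p : EuclideanSpace ℝ (Fin d)}
    {b : Fin n → EuclideanSpace ℝ (Fin d)} (c0 : EuclideanSpace ℝ (Fin d))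
    (hc : ∀ A K A' K' : Finset (Fin n), Disjoint A K → K.card = k → Disjoint A' K' → K'.card = k →
      ‖(p + ∑ i ∈ A, b i) + (1 / 2 : ℝ) • ∑ i ∈ K, b i - c0‖ =
      ‖(p + ∑ i ∈ A', b i) + (1 / 2 : ℝ) • ∑ i ∈ K', b i - c0‖) :
    ∀ i j, i ≠ j → inner ℝ (b i) (b j) = 0 := by
  intro i j hij
  set K : Finset (Fin n) := ((Finset.univ : Finset (Fin n)).erase i).erase j with hKdef
  have hKc : K.card = k := by
    rw [hKdef, Finset.card_erase_of_mem (Finset.mem_erase.2 ⟨Ne.symm hij, Finset.mem_univ j⟩),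
      Finset.card_erase_of_mem (Finset.mem_univ i), Finset.card_univ, Fintype.card_fin]
    omega
  have hi : i ∉ K := by simp [hKdef]
  have hj : j ∉ K := by simp [hKdef]
  have key : ∀ A : Finset (Fin n), Disjoint A K →
      ‖(p + (1 / 2 : ℝ) • ∑ i ∈ K, b i - c0) + ∑ i ∈ A, b i‖ ^ 2 =
        ‖p + (1 / 2 : ℝ) • ∑ i ∈ K, b i - c0‖ ^ 2 := by
    intro A hA
    have h := hc A K ∅ K hA hKc (Finset.disjoint_empty_left _) hKc
    simp only [Finset.sum_empty, add_zero] at h
    rw [← h]
    congr 2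
    abel
  have h1 := key {i} (Finset.disjoint_singleton_left.2 hi)
  have h2 := key {j} (Finset.disjoint_singleton_left.2 hj)
  have h3 := key {i, j} (by
    rw [Finset.disjoint_insert_left]
    exact ⟨hi, Finset.disjoint_singleton_left.2 hj⟩)
  rw [Finset.sum_singleton] at h1 h2
  rw [Finset.sum_pair hij] at h3
  rw [norm_add_sq_real] at h1 h2 h3
  rw [inner_add_right, norm_add_sq_real] at h3
  linarith

end Pool.Agent.Lib.MP_103b79_co
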