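import Mathlib
import Pool.Agent.Lib.MP_103b79_co.Ptope

/-!
Every edge of a parallelotope is parallel to one of its generators.
-/

open Set Module

namespace Pool.Agent.Lib.MP_103b79_co

section

variable {E : Type*} [NormedAddCommGroup E] [NormedSpace ℝ E] {k : ℕ}

private lemma pe_comb {h0 : E} {b : Fin k → E} {α β : ℝ} (h : α + β = 1) (t s : Fin k → ℝ) :
    α • ppt h0 b t + β • ppt h0 b s = ppt h0 b (fun i => α * t i + β * s i) := by
  unfold ppt
  simp only [smul_add, Finset.smul_sum, smul_smul, add_smul, Finset.sum_add_distrib]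
  have e : α • h0 + β • h0 = h0 := by rw [← add_smul, h, one_smul]
  calc α • h0 + ∑ i, (α * t i) • b i + (β • h0 + ∑ i, (β * s i) • b i)
      = (α • h0 + β • h0) + (∑ i, (α * t i) • b i + ∑ i, (β * s i) • b i) := by abel
    _ = _ := by rw [e]

private lemma pe_update {h0 : E} {b : Fin k → E} (t : Fin k → ℝ) (i : Fin k) (u : ℝ) :
    ppt h0 b (Function.update t i u) = ppt h0 b t + (u - t i) • b i := by
  unfold ppt
  have h1 : ∑ j, (Function.update t i u j - t j) • b j = (u - t i) • b i := by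
    rw [Finset.sum_eq_single i]
    · rw [Function.update_self]
    · intro j _ hj
      rw [Function.update_of_ne hj, sub_self, zero_smul]
    · intro h
      exact absurd (Finset.mem_univ i) h
  rw [← h1]
  simp only [sub_smul, Finset.sum_sub_distrib]
  abel

private lemma pe_box {t : Fin k → ℝ} (ht : ∀ i, 0 ≤ t i ∧ t i ≤ 1) (i : Fin k) {u : ℝ}
    (hu0 : 0 ≤ u) (hu1 : u ≤ 1) : ∀ j, 0 ≤ Function.update t i u j ∧ Function.update t i u j ≤ 1 := by
  intro j
  by_cases h : j = i
  · rw [h, Function.update_self]; exact ⟨hu0, hu1⟩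
  · rw [Function.update_of_ne h]; exact ht j

/-- A free coordinate of a point of an extreme subset may be moved to `0` and to `1`. -/
private lemma pe_move {h0 : E} {b : Fin k → E} {F : Set E} (hF : IsExtreme ℝ (ptope h0 b) F)
    {t : Fin k → ℝ} (ht : ∀ i, 0 ≤ t i ∧ t i ≤ 1) (hx : ppt h0 b t ∈ F) (i : Fin k)
    (h0i : 0 < t i) (h1i : t i < 1) :
    ppt h0 b (Function.update t i 0) ∈ F ∧ ppt h0 b (Function.update t i 1) ∈ F := by
  have m0 : ppt h0 b (Function.update t i 0) ∈ ptope h0 b :=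
    ⟨_, pe_box ht i le_rfl zero_le_one, rfl⟩
  have m1 : ppt h0 b (Function.update t i 1) ∈ ptope h0 b :=
    ⟨_, pe_box ht i zero_le_one le_rfl, rfl⟩
  have hcomb : (1 - t i) • ppt h0 b (Function.update t i 0) +
      t i • ppt h0 b (Function.update t i 1) = ppt h0 b t := by
    rw [pe_comb (by ring)]
    congr 1
    funext j
    by_cases h : j = i
    · rw [h, Function.update_self, Function.update_self]; ring
    · rw [Function.update_of_ne h, Function.update_of_ne h]; ring
  constructor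
  · exact hF.left_mem_of_mem_openSegment m0 m1 hx ⟨1 - t i, t i, by linarith, h0i, by ring, hcomb⟩
  · refine hF.left_mem_of_mem_openSegment m1 m0 hx ⟨t i, 1 - t i, h0i, by linarith, by ring, ?_⟩
    rw [add_comm]; exact hcomb

end

/-- An edge of a parallelotope is parallel to one of the generators. -/
theorem ptope_edge {E : Type*} [NormedAddCommGroup E] [NormedSpace ℝ E] [FiniteDimensional ℝ E]
    {k : ℕ} {h : E} {b : Fin k → E} (hb : LinearIndependent ℝ b) {z a : E} (ha : a ≠ 0)
    (he : IsFace (ptope h b) (segment ℝ z (z + a))) : ∃ (i : Fin k) (c : ℝ), a = c • b i := by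
  obtain ⟨_, hconv, hext⟩ := he
  have hz1 : z ∈ segment ℝ z (z + a) := left_mem_segment ℝ _ _
  have hz2 : z + a ∈ segment ℝ z (z + a) := right_mem_segment ℝ _ _
  obtain ⟨s, hs, hzs⟩ := hext.subset hz1
  obtain ⟨r, hr, hzr⟩ := hext.subset hz2
  -- some coordinate differs
  have hne : ∃ i, s i ≠ r i := by
    by_contra hcon
    push Not at hcon
    have : s = r := funext hcon
    rw [this] at hzs
    have h1 : z = z + a := hzs.trans hzr.symm
    exact ha (by simpa using h1.symm)
  obtain ⟨i, hi⟩ := hne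
  -- the midpoint
  have hm : ppt h b (fun j => (1 / 2 : ℝ) * s j + (1 / 2 : ℝ) * r j) ∈ segment ℝ z (z + a) := by
    rw [← pe_comb (by norm_num : (1 / 2 : ℝ) + 1 / 2 = 1)]
    have e1 : ppt h b s = z := hzs.symm
    have e2 : ppt h b r = z + a := hzr.symm
    rw [e1, e2]
    exact ⟨1 / 2, 1 / 2, by norm_num, by norm_num, by norm_num, rfl⟩
  have hbox : ∀ j, 0 ≤ (1 / 2 : ℝ) * s j + (1 / 2 : ℝ) * r j ∧
      (1 / 2 : ℝ) * s j + (1 / 2 : ℝ) * r j ≤ 1 := by
    intro j
    have h1 := hs j
    have h2 := hr j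
    constructor <;> linarith [h1.1, h1.2, h2.1, h2.2]
  have hlt : 0 < (1 / 2 : ℝ) * s i + (1 / 2 : ℝ) * r i ∧
      (1 / 2 : ℝ) * s i + (1 / 2 : ℝ) * r i < 1 := by
    have h1 := hs i
    have h2 := hr i
    rcases lt_or_gt_of_ne hi with h3 | h3
    · constructor <;> linarith [h1.1, h1.2, h2.1, h2.2]
    · constructor <;> linarith [h1.1, h1.2, h2.1, h2.2]
  obtain ⟨g0, g1⟩ := pe_move hext hbox hm i hlt.1 hlt.2
  rw [pe_update] at g0 g1
  rw [segment_eq_image'] at g0 g1
  obtain ⟨α, _, hα⟩ := g0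
  obtain ⟨β, _, hβ⟩ := g1
  simp only [add_sub_cancel_left] at hα hβ
  have hbi : b i = (β - α) • a := by
    have h1 : (β - α) • a = (z + β • a) - (z + α • a) := by module
    rw [h1, hα, hβ]
    module
  have hne0 : β - α ≠ 0 := by
    intro h0
    rw [h0, zero_smul] at hbi
    exact hb.ne_zero i hbi
  refine ⟨i, (β - α)⁻¹, ?_⟩
  rw [hbi, smul_smul, inv_mul_cancel₀ hne0, one_smul]

end Pool.Agent.Lib.MP_103b79_co
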