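import Mathlib
import Pool.Agent.Lib.MP_103b79_co.HullPtope

/-!
A face of a cube of points is a parallelotope.
-/

open Set Module
namespace Pool.Agent.Lib.MP_103b79_co

private theorem subcube_sum {E : Type*} [NormedAddCommGroup E] [NormedSpace ℝ E] {n k : ℕ}
    {b : Fin n → E} {K T : Finset (Fin n)} (hK : K.card = k) (hT : T ⊆ K) :
    ∑ r : Fin k, (if K.orderEmbOfFin hK r ∈ T then (1 : ℝ) else 0) • b (K.orderEmbOfFin hK r) =
      ∑ i ∈ T, b i := by
  classical
  have h1 : ∑ r : Fin k, (if K.orderEmbOfFin hK r ∈ T then (1 : ℝ) else 0) •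
      b (K.orderEmbOfFin hK r) =
      ∑ i ∈ Finset.univ.image (K.orderEmbOfFin hK), (if i ∈ T then (1 : ℝ) else 0) • b i := by
    rw [Finset.sum_image (fun r _ s _ h => (K.orderEmbOfFin hK).injective h)]
  have h2 : Finset.univ.image (K.orderEmbOfFin hK) = K := by
    apply Finset.coe_injective
    rw [Finset.coe_image, Finset.coe_univ, Set.image_univ, Finset.range_orderEmbOfFin]
  rw [h1, h2]
  simp only [ite_smul, one_smul, zero_smul]
  rw [Finset.sum_ite_mem, Finset.inter_eq_right.2 hT]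

theorem subcube_ptope {E : Type*} [NormedAddCommGroup E] [NormedSpace ℝ E] {n k : ℕ} {p : E}
    {b : Fin n → E} {A K : Finset (Fin n)} (hAK : Disjoint A K) (hK : K.card = k) :
    convexHull ℝ ((fun S : Finset (Fin n) => p + ∑ i ∈ S, b i) '' Icc A (A ∪ K)) =
      ptope (p + ∑ i ∈ A, b i) (fun j : Fin k => b (K.orderEmbOfFin hK j)) := by
  classical
  have h2 : Finset.univ.image (K.orderEmbOfFin hK) = K := by
    apply Finset.coe_injective
    rw [Finset.coe_image, Finset.coe_univ, Set.image_univ, Finset.range_orderEmbOfFin]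
  have h := hull_eq_ptope
    (fun S : Finset (Fin n) => (p + ∑ i ∈ A, b i) +
      ∑ r : Fin k, (if K.orderEmbOfFin hK r ∈ S then (1 : ℝ) else 0) • b (K.orderEmbOfFin hK r))
    (K.orderEmbOfFin hK) (K.orderEmbOfFin hK).injective (p + ∑ i ∈ A, b i)
    (fun j : Fin k => b (K.orderEmbOfFin hK j)) (fun S _ => rfl)
  rw [← h, h2]
  congr 1
  ext y
  constructor
  · rintro ⟨S, ⟨hS1, hS2⟩, rfl⟩
    have hT : S \ A ⊆ K := by
      intro i hi
      rw [Finset.mem_sdiff] at hi
      rcases Finset.mem_union.1 (hS2 hi.1) with h | h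
      · exact absurd h hi.2
      · exact h
    refine ⟨S \ A, ⟨Finset.empty_subset _, hT⟩, ?_⟩
    show (p + ∑ i ∈ A, b i) + ∑ r : Fin k, (if K.orderEmbOfFin hK r ∈ S \ A then (1 : ℝ) else 0) •
      b (K.orderEmbOfFin hK r) = p + ∑ i ∈ S, b i
    rw [subcube_sum hK hT, add_assoc, add_comm (∑ i ∈ A, b i), Finset.sum_sdiff hS1]
  · rintro ⟨T, ⟨-, hT⟩, rfl⟩
    refine ⟨A ∪ T, ⟨Finset.subset_union_left, Finset.union_subset_union_right hT⟩, ?_⟩
    show p + ∑ i ∈ A ∪ T, b i = (p + ∑ i ∈ A, b i) +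
      ∑ r : Fin k, (if K.orderEmbOfFin hK r ∈ T then (1 : ℝ) else 0) • b (K.orderEmbOfFin hK r)
    rw [subcube_sum hK hT, Finset.sum_union (Finset.disjoint_of_subset_right hT hAK), add_assoc]

end Pool.Agent.Lib.MP_103b79_co
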