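import Mathlib
import Pool.Agent.Lib.MP_103b79_co.PtopeFacet

open Set Module

namespace Pool.Agent.Lib.MP_103b79_co

/-- Zones: if a `k`-face is a parallelotope, every face cut out by a functional that vanishes on
an edge contains a translate of the edge. -/
theorem zprop_of_ptope {E : Type*} [NormedAddCommGroup E] [NormedSpace ℝ E]
    [FiniteDimensional ℝ E] {k : ℕ} {P : Set E} (hP : IsHull P)
    (hk2 : 2 ≤ k) (hkd : k ≤ dimOf P) (hk : FaceTransitive k P)
    {h0 : E} {b : Fin k → E} (hb : LinearIndependent ℝ b) (hH : IsFace P (ptope h0 b))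
    (hHk : dimOf (ptope h0 b) = k) :
    ∀ z a : E, a ≠ 0 → IsFace P (segment ℝ z (z + a)) → ∀ c : E →ₗ[ℝ] ℝ, c a = 0 →
      ∃ z', IsFace P (segment ℝ z' (z' + a)) ∧ ∀ x ∈ P, c x ≤ c z' := by
  intro z a ha0 hseg c hc
  have hSfin : {z' | IsFace P (segment ℝ z' (z' + a))}.Finite :=
    hP.finite_ext.subset (fun z' hz' => seg_left_extreme ha0 hz')
  obtain ⟨z', hz', hmax⟩ := exists_max_image {z' | IsFace P (segment ℝ z' (z' + a))} c hSfin
    ⟨z, hseg⟩
  have hz'F : IsFace P (segment ℝ z' (z' + a)) := hz'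
  refine ⟨z', hz'F, ?_⟩
  by_contra hcon
  push Not at hcon
  have hconst : ∀ x ∈ segment ℝ z' (z' + a), c x = c z' := by
    intro x hx
    rw [segment_eq_image'] at hx
    obtain ⟨θ, -, rfl⟩ := hx
    simp only [add_sub_cancel_left]
    rw [map_add, map_smul, hc, smul_zero, add_zero]
  obtain ⟨R, hR1, hR2, hR3, hR4⟩ := hP.improve hz'F c (c z') hconst hcon
  rw [dim_segment ha0] at hR3
  obtain ⟨H', hH'1, hH'2, hH'3⟩ := IsHull.exists_between k (dimOf P) hP hR1 (by omega) (by omega)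
    (by omega)
  obtain ⟨g, hgP, hgH⟩ := hk _ _ hH hHk hH'1 hH'3
  rw [ptope_image] at hgH
  have hb' : LinearIndependent ℝ
      (fun i => g.toRealAffineIsometryEquiv.linearIsometryEquiv (b i)) :=
    hb.map' g.toRealAffineIsometryEquiv.linearIsometryEquiv.toLinearEquiv.toLinearMap
      (LinearEquiv.ker _)
  obtain ⟨z'', hz''1, hz''2⟩ := ptope_step hP hb' (by rw [hgH]; exact hH'1) hR1
    (by rw [hgH]; exact hH'2) hR3 ha0 hz'F hR2 c hc hR4
  exact absurd (hmax z'' hz''1) (not_le.2 hz''2)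

end Pool.Agent.Lib.MP_103b79_co
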