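import Mathlib
import Pool.Agent.Lib.MP_103b79_co.CubeVec
import Pool.Agent.Lib.MP_103b79_co.ZProp
import Pool.Agent.Lib.MP_103b79_co.Center
import Pool.Agent.Lib.MP_103b79_co.PtopeEdge
import Pool.Agent.Lib.MP_103b79_co.CommonFace
import Pool.Agent.Lib.MP_103b79_co.Axes
import Pool.Agent.Lib.MP_103b79_co.BoxAxes
import Pool.Agent.Lib.MP_103b79_co.CubeOfPtope
import Pool.Agent.Lib.MP_103b79_co.EqualEdges
import Pool.Agent.Lib.MP_103b79_co.SubcubePtope
import Pool.Agent.Lib.MP_103b79_co.CubeComp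

open Set Module

namespace Pool.Agent.Lib.MP_103b79_co

/-- Orthogonal nonzero vectors are linearly independent. -/
lemma linIndep_of_orth {d n : ℕ} {b : Fin n → EuclideanSpace ℝ (Fin d)} (h0 : ∀ i, b i ≠ 0)
    (ho : ∀ i j, i ≠ j → inner ℝ (b i) (b j) = 0) : LinearIndependent ℝ b :=
  linearIndependent_of_ne_zero_of_inner_eq_zero h0 (fun i j hij => ho i j hij)

/-- The `k`-faces of a face of `P` that is a cube in vector form. -/
lemma vec_faces {d n k : ℕ} {P : Set (EuclideanSpace ℝ (Fin d))} {p : EuclideanSpace ℝ (Fin d)}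
    {b : Fin n → EuclideanSpace ℝ (Fin d)} (h : CubeFace P (fun S => p + ∑ i ∈ S, b i))
    {A K : Finset (Fin n)} (hAK : Disjoint A K) (hK : K.card = k) :
    IsFace P (ptope (p + ∑ i ∈ A, b i) (fun j : Fin k => b (K.orderEmbOfFin hK j))) ∧
      dimOf (ptope (p + ∑ i ∈ A, b i) (fun j : Fin k => b (K.orderEmbOfFin hK j))) = k := by
  have h1 := h.2 A (A ∪ K) Finset.subset_union_left
  rw [subcube_ptope hAK hK] at h1
  refine ⟨h1.1, ?_⟩
  rw [h1.2, Finset.union_sdiff_left, Finset.sdiff_eq_self_of_disjoint hAK.symm, hK]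

lemma sum_orderEmb {d n k : ℕ} (b : Fin n → EuclideanSpace ℝ (Fin d)) {K : Finset (Fin n)}
    (hK : K.card = k) : ∑ j : Fin k, b (K.orderEmbOfFin hK j) = ∑ i ∈ K, b i := by
  have h1 : K = Finset.univ.image (fun j : Fin k => K.orderEmbOfFin hK j) := by
    ext i
    have h2 := Finset.range_orderEmbOfFin K hK
    have h3 : i ∈ Set.range (K.orderEmbOfFin hK) ↔ i ∈ K := by rw [h2]; rfl
    rw [← h3]
    simp
  conv_rhs => rw [h1]
  rw [Finset.sum_image (fun a _ b _ hab => (K.orderEmbOfFin hK).injective hab)]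

/-- The centres of the `k`-faces of a cube in vector form. -/
lemma centers_eq {d n k : ℕ} {P : Set (EuclideanSpace ℝ (Fin d))} {p : EuclideanSpace ℝ (Fin d)}
    {b : Fin n → EuclideanSpace ℝ (Fin d)} (h : CubeFace P (fun S => p + ∑ i ∈ S, b i))
    {c0 : EuclideanSpace ℝ (Fin d)}
    (hc0 : ∀ (h0 h1 : EuclideanSpace ℝ (Fin d)) (b b' : Fin k → EuclideanSpace ℝ (Fin d)),
      IsFace P (ptope h0 b) → dimOf (ptope h0 b) = k →
      IsFace P (ptope h1 b') → dimOf (ptope h1 b') = k →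
      ‖h0 + (1 / 2 : ℝ) • ∑ i, b i - c0‖ = ‖h1 + (1 / 2 : ℝ) • ∑ i, b' i - c0‖) :
    ∀ A K A' K' : Finset (Fin n), Disjoint A K → K.card = k → Disjoint A' K' → K'.card = k →
      ‖(p + ∑ i ∈ A, b i) + (1 / 2 : ℝ) • ∑ i ∈ K, b i - c0‖ =
      ‖(p + ∑ i ∈ A', b i) + (1 / 2 : ℝ) • ∑ i ∈ K', b i - c0‖ := by
  intro A K A' K' hAK hK hAK' hK'
  have h1 := vec_faces h hAK hK
  have h2 := vec_faces h hAK' hK'
  have h3 := hc0 _ _ _ _ h1.1 h1.2 h2.1 h2.2
  rwa [sum_orderEmb b hK, sum_orderEmb b hK'] at h3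

/-- If the face `ptope p b` of the `k`-face-transitive polytope `P` is a `k`-dimensional box, any
two edges of `P` are orthogonal or parallel. -/
lemma edges_orth {d k : ℕ} {P : Set (EuclideanSpace ℝ (Fin d))} (hP : IsHull P)
    (hPd : dimOf P = d) (hk2 : 2 ≤ k) (hkd : k + 1 ≤ d) (hk : FaceTransitive k P)
    {p : EuclideanSpace ℝ (Fin d)} {b : Fin k → EuclideanSpace ℝ (Fin d)} (hb0 : ∀ i, b i ≠ 0)
    (hbo : ∀ i j, i ≠ j → inner ℝ (b i) (b j) = 0) (hH : IsFace P (ptope p b))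
    (hHk : dimOf (ptope p b) = k) :
    ∀ z a w a' : EuclideanSpace ℝ (Fin d), a ≠ 0 → IsFace P (segment ℝ z (z + a)) →
      a' ≠ 0 → IsFace P (segment ℝ w (w + a')) → inner ℝ a a' = 0 ∨ ∃ c : ℝ, a' = c • a := by
  intro z a w a' ha hza ha' hwa
  have hb := linIndep_of_orth hb0 hbo
  have hZ := zprop_of_ptope hP hk2 (by omega) hk hb hH hHk
  obtain ⟨T, z', w', hT, hTd, hz'1, hz'2, hw'1, hw'2⟩ := common_face hP hZ ha hza ha' hwa
  obtain ⟨H', hH'1, hH'2, hH'3⟩ := IsHull.exists_between k d hP hT (by omega) (by omega)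
    (by omega)
  obtain ⟨g, hgP, hgH⟩ := hk _ _ hH hHk hH'1 hH'3
  rw [ptope_image] at hgH
  set L := g.toRealAffineIsometryEquiv.linearIsometryEquiv with hL
  have hb' : LinearIndependent ℝ (fun i => L (b i)) :=
    hb.map' L.toLinearEquiv.toLinearMap (LinearEquiv.ker _)
  have e1 : IsFace (ptope (g p) (fun i => L (b i))) (segment ℝ z' (z' + a)) := by
    rw [hgH]
    exact hz'1.of_subset hH'1 (hz'2.trans hH'2)
  have e2 : IsFace (ptope (g p) (fun i => L (b i))) (segment ℝ w' (w' + a')) := by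
    rw [hgH]
    exact hw'1.of_subset hH'1 (hw'2.trans hH'2)
  obtain ⟨i, c, hc⟩ := ptope_edge hb' ha e1
  obtain ⟨j, c', hc'⟩ := ptope_edge hb' ha' e2
  by_cases hij : i = j
  · right
    subst hij
    have hc0 : c ≠ 0 := by
      rintro rfl
      exact ha (by rw [hc, zero_smul])
    refine ⟨c' / c, ?_⟩
    rw [hc', hc, smul_smul, div_mul_cancel₀ _ hc0]
  · left
    rw [hc, hc', inner_smul_left, inner_smul_right, L.inner_map_map, hbo i j hij]
    simp

/-- A `k`-face-transitive polytope with a combinatorial cube face of dimension at least `M(k)` is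
a cube. -/
theorem cube_class (k : ℕ) (hk2 : 2 ≤ k) : ∃ M : ℕ,
    ∀ (d m : ℕ) (P : Set (EuclideanSpace ℝ (Fin d)))
      (x : Finset (Fin m) → EuclideanSpace ℝ (Fin d)), M ≤ m → IsHull P →
      dimOf P = d → FaceTransitive k P → CubeFace P x →
      ∃ (p : EuclideanSpace ℝ (Fin d)) (b : Fin d → EuclideanSpace ℝ (Fin d)),
        (∀ i, b i ≠ 0) ∧ (∀ i j, i ≠ j → inner ℝ (b i) (b j) = 0) ∧ (∀ i j, ‖b i‖ = ‖b j‖) ∧
        P = ptope p b := by
  classical
  obtain ⟨M, hM⟩ := cube_vec_n k (k + 2) hk2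
  refine ⟨max M (k + 2), ?_⟩
  intro d m P x hMm hP hPd hk h
  have hne : P.Nonempty := ⟨_, (h.vertex ∅).1⟩
  have hkm : k + 2 ≤ m := (le_max_right _ _).trans hMm
  have hmd : m ≤ d := by
    have h1 := (h.2 ∅ Finset.univ (Finset.empty_subset _)).2
    rw [Finset.sdiff_empty, Finset.card_univ, Fintype.card_fin] at h1
    rw [← h1, dimOf]
    have h2 := Submodule.finrank_le (vectorSpan ℝ (convexHull ℝ (x '' Icc ∅ Finset.univ)))
    rwa [finrank_euclideanSpace_fin] at h2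
  have hkd : k + 1 ≤ d := by omega
  obtain ⟨f, hf, hx⟩ := hM _ m P x ((le_max_left _ _).trans hMm) hP h hk
  set p := x ∅ with hp
  set e : Fin (k + 2) → EuclideanSpace ℝ (Fin d) := fun i => x (insert (f i) ∅) - x ∅ with he
  have h' : CubeFace P (fun S : Finset (Fin (k + 2)) => p + ∑ i ∈ S, e i) := by
    have h1 := h.comp hf
    have h2 : (fun S : Finset (Fin (k + 2)) => x (S.image f)) = fun S => p + ∑ i ∈ S, e i :=
      funext hx
    rwa [h2] at h1
  obtain ⟨c0, hc0⟩ := center_dist hP hne hk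
  have heo := orth_of_centers rfl c0 (centers_eq h' hc0)
  have he0 : ∀ i, e i ≠ 0 := by
    intro i hi
    have h1 : x (insert (f i) ∅) = x ∅ := sub_eq_zero.1 hi
    have h2 := h.1 h1
    have h3 : f i ∈ (∅ : Finset (Fin m)) := by
      rw [← h2]
      exact Finset.mem_insert_self _ _
    exact absurd h3 (Finset.notMem_empty _)
  -- a `k`-face that is a box
  obtain ⟨K, -, hK⟩ := Finset.exists_subset_card_eq
    (s := (Finset.univ : Finset (Fin (k + 2)))) (n := k) (by simp)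
  have hbox := vec_faces h' (Finset.disjoint_empty_left K) hK
  have hort := edges_orth hP hPd hk2 hkd hk
    (fun i => he0 (K.orderEmbOfFin hK i))
    (fun i j hij => heo _ _ (fun h => hij ((K.orderEmbOfFin hK).injective h))) hbox.1 hbox.2
  obtain ⟨u, hu0, huo, hedge⟩ := axes_of_edges hP hPd hne hort
  obtain ⟨q, b, hb0, hbo, hPb⟩ := box_of_axes hP hPd hne hu0 huo hedge
  have hcf : CubeFace P (fun S => q + ∑ i ∈ S, b i) := by
    rw [hPb]
    exact cubeFace_ptope (linIndep_of_orth hb0 hbo)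
  have heq := equal_edges hbo (by omega) hkd c0 (centers_eq hcf hc0)
  exact ⟨q, b, hb0, hbo, heq, hPb⟩

end Pool.Agent.Lib.MP_103b79_co
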