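import Mathlib
import Pool.Agent.Lib.MP_103b79_co.Cube

open Set Module
namespace Pool.Agent.Lib.MP_103b79_co

theorem CubeFace.comp {E : Type*} [NormedAddCommGroup E] [NormedSpace ℝ E] {m n : ℕ} {P : Set E}
    {x : Finset (Fin m) → E} (h : CubeFace P x) {f : Fin n → Fin m} (hf : Function.Injective f) :
    CubeFace P (fun S : Finset (Fin n) => x (S.image f)) := by
  refine ⟨fun S T hST => Finset.image_injective hf (h.1 hST), fun S T hST => ?_⟩
  have h1 : (fun S : Finset (Fin n) => x (S.image f)) '' Icc S T =
      x '' Icc (S.image f) (T.image f) := by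
    ext y
    constructor
    · rintro ⟨R, ⟨hR1, hR2⟩, rfl⟩
      exact ⟨R.image f, ⟨Finset.image_subset_image hR1, Finset.image_subset_image hR2⟩, rfl⟩
    · rintro ⟨R, ⟨hR1, hR2⟩, rfl⟩
      have hR1' : S.image f ⊆ R := hR1
      have hR2' : R ⊆ T.image f := hR2
      have h2 : (Finset.univ.filter fun i => f i ∈ R).image f = R := by
        ext j
        simp only [Finset.mem_image, Finset.mem_filter, Finset.mem_univ, true_and]
        constructor
        · rintro ⟨i, hi, rfl⟩
          exact hi
        · intro hj
          obtain ⟨i, -, hi⟩ := Finset.mem_image.1 (hR2' hj)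
          exact ⟨i, hi ▸ hj, hi⟩
      refine ⟨Finset.univ.filter fun i => f i ∈ R, ⟨?_, ?_⟩, ?_⟩
      · intro i hi
        simp only [Finset.mem_filter, Finset.mem_univ, true_and]
        exact hR1' (Finset.mem_image_of_mem f hi)
      · intro i hi
        simp only [Finset.mem_filter, Finset.mem_univ, true_and] at hi
        obtain ⟨i', hi', heq⟩ := Finset.mem_image.1 (hR2' hi)
        exact hf heq ▸ hi'
      · simp only [h2]
  have h2 := h.2 (S.image f) (T.image f) (Finset.image_subset_image hST)
  rw [h1]
  refine ⟨h2.1, ?_⟩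
  rw [h2.2, ← Finset.image_sdiff _ _ hf, Finset.card_image_of_injective _ hf]

end Pool.Agent.Lib.MP_103b79_co
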