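import Mathlib
import Pool.Agent.Lib.MP_103b79_co.CubeMain
import Pool.Agent.Lib.MP_103b79_co.HullPtope
import Pool.Agent.Lib.MP_103b79_co.PtopeFacet

open Set Module

namespace Pool.Agent.Lib.MP_103b79_co

/-- The main theorem on cube faces. -/
theorem cube_main (k : ℕ) (hk2 : 2 ≤ k) : ∃ M : ℕ,
    ∀ (d m : ℕ) (P : Set (EuclideanSpace ℝ (Fin d)))
      (x : Finset (Fin m) → EuclideanSpace ℝ (Fin d)), k + 1 ≤ d → M ≤ m → IsHull P →
      dimOf P = d → FaceTransitive k P → CubeFace P x →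
      FaceTransitive (d - 1) P ∧ ∀ F : Set (EuclideanSpace ℝ (Fin d)), IsFace P F →
        dimOf F = k → ∃ (h0 : EuclideanSpace ℝ (Fin d)) (b : Fin k → EuclideanSpace ℝ (Fin d)),
          LinearIndependent ℝ b ∧ F = ptope h0 b := by
  classical
  obtain ⟨M, -, hM⟩ := cube_vec k hk2
  refine ⟨M, ?_⟩
  intro d m P x hkd hMm hP hPd hk h
  obtain ⟨f, hf, hx⟩ := hM _ m P x hMm hP h hk
  set b : Fin k → EuclideanSpace ℝ (Fin d) := fun r => x (insert (f r) ∅) - x ∅ with hb
  have hhull := hull_eq_ptope x f hf (x ∅) b hx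
  have hface := h.2 ∅ (Finset.univ.image f) (Finset.empty_subset _)
  rw [hhull] at hface
  have hcard : (Finset.univ.image f \ ∅ : Finset (Fin m)).card = k := by
    rw [Finset.sdiff_empty, Finset.card_image_of_injective _ hf, Finset.card_univ,
      Fintype.card_fin]
  rw [hcard] at hface
  have hbi : LinearIndependent ℝ b := by
    have h1 := h.linIndep hP ∅ (Finset.univ.image f) (Finset.disjoint_empty_left _)
    have h2 := LinearIndependent.comp h1
      (fun r : Fin k => ⟨f r, by simp⟩) (fun r s hrs => hf (congrArg Subtype.val hrs))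
    exact h2
  refine ⟨ptope_facet hP hPd hk2 hkd hk hbi hface.1 hface.2, ?_⟩
  intro F hF hFk
  obtain ⟨g, hg, hgF⟩ := hk _ _ hface.1 hface.2 hF hFk
  refine ⟨g (x ∅), fun i => g.toRealAffineIsometryEquiv.linearIsometryEquiv (b i), ?_, ?_⟩
  · exact hbi.map' g.toRealAffineIsometryEquiv.linearIsometryEquiv.toLinearEquiv.toLinearMap
      (LinearEquiv.ker _)
  · rw [← hgF, ptope_image]

end Pool.Agent.Lib.MP_103b79_co
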