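import Mathlib
import Pool.Agent.Lib.MP_103b79_co.Faces

open Set Module

namespace Pool.Agent.Lib.MP_103b79_co

section General

variable {E : Type*} [NormedAddCommGroup E] [NormedSpace ℝ E] [FiniteDimensional ℝ E]

omit [FiniteDimensional ℝ E] in
/-- Symmetries carry vertices to vertices. -/
lemma map_ext {P : Set E} {g : E ≃ᵢ E} (hg : g '' P = P) {v : E} (hv : v ∈ P.extremePoints ℝ) :
    g v ∈ P.extremePoints ℝ := by
  have h := (vertex_face hv).map hg
  rw [image_singleton] at h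
  exact h.2.2.mem_extremePoints

omit [FiniteDimensional ℝ E] in
lemma map_verts {P F F' : Set E} {g : E ≃ᵢ E} (hg : g '' P = P) (hF : g '' F = F') :
    g '' (P.extremePoints ℝ ∩ F) = P.extremePoints ℝ ∩ F' := by
  apply Subset.antisymm
  · rintro _ ⟨v, ⟨h1, h2⟩, rfl⟩
    exact ⟨map_ext hg h1, hF ▸ mem_image_of_mem g h2⟩
  · rintro v ⟨h1, h2⟩
    rw [← hF] at h2
    obtain ⟨w, hw, rfl⟩ := h2
    refine ⟨w, ⟨?_, hw⟩, rfl⟩
    have := map_ext (symm_image hg) h1
    simpa using this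

theorem vertex_main {k : ℕ} {P Q A : Set E} {v0 : E} (hP : IsHull P) (hk : FaceTransitive k P)
    (hQ : IsFace P Q) (hQk : k + 1 ≤ dimOf Q) (hA : IsFace P A) (hv0 : v0 ∈ P.extremePoints ℝ)
    (hv0Q : v0 ∈ Q) (hv0A : v0 ∉ A)
    (hrest : ∀ v ∈ P.extremePoints ℝ, v ∈ Q → v ≠ v0 → v ∈ A) : FaceTransitive 0 P := by
  classical
  have hv0f : IsFace P {v0} := vertex_face hv0
  have hQh : IsHull Q := hP.face hQ
  -- a face Q' of dimension k+1 with apex v0
  obtain ⟨Q', hQ'Q, hv0Q', hQ'd⟩ := hQh.exists_between (k + 1) (dimOf Q)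
    (hv0f.of_subset hQ (singleton_subset_iff.2 hv0Q)) (by rw [dim_singleton]; omega) hQk (by omega)
  have hQ' : IsFace P Q' := hQ.trans hQ'Q
  have hQ'h : IsHull Q' := hP.face hQ'
  have hv0Q'' : v0 ∈ Q' := hv0Q' rfl
  have hext : Q'.extremePoints ℝ = Q' ∩ P.extremePoints ℝ := hQ'.2.2.extremePoints_eq
  have hrest' : ∀ v ∈ P.extremePoints ℝ, v ∈ Q' → v ≠ v0 → v ∈ A ∩ Q' := fun v h1 h2 h3 =>
    ⟨hrest v h1 (hQ'Q.subset h2) h3, h2⟩
  -- a face containing all vertices of Q' is Q'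
  have hall : ∀ R, IsFace Q' R → (∀ v ∈ P.extremePoints ℝ, v ∈ Q' → v ∈ R) → R = Q' := by
    intro R hR h
    apply hR.subset.antisymm
    conv_lhs => rw [hQ'h.hull_ext]
    apply convexHull_min _ hR.2.1
    intro v hv
    rw [hext] at hv
    exact h v hv.2 hv.1
  -- there is another vertex
  obtain ⟨v1, hv1, hv1Q', hv1ne⟩ : ∃ v ∈ P.extremePoints ℝ, v ∈ Q' ∧ v ≠ v0 := by
    by_contra hcon
    push Not at hcon
    have h1 := hall {v0} (hv0f.of_subset hQ' hv0Q') (fun v h1 h2 => hcon v h1 h2)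
    rw [← h1, dim_singleton] at hQ'd
    omega
  have hB : IsFace P (A ∩ Q') := hA.inter hQ' ⟨v1, hrest' v1 hv1 hv1Q' hv1ne⟩
  have hBQ' : IsFace Q' (A ∩ Q') := hB.of_subset hQ' inter_subset_right
  have hQ'self : IsFace Q' Q' := hQ'h.self_face ⟨v0, hv0Q''⟩
  obtain ⟨R, hR, hBR, -, hRd⟩ := hQ'h.facet hBQ' hQ'self (fun h => hv0A (h hv0Q'').1)
  have hRk : dimOf R = k := by omega
  have hRP : IsFace P R := hQ'.trans hR
  have hv0R : v0 ∉ R := by
    intro h
    have h1 := hall R hR (fun v h1 h2 => by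
      by_cases h3 : v = v0
      · rw [h3]
        exact h
      · exact hBR (hrest' v h1 h2 h3))
    rw [h1] at hRd
    omega
  -- vertices of R
  have hXR : P.extremePoints ℝ ∩ R = (P.extremePoints ℝ ∩ Q') \ {v0} := by
    ext v
    constructor
    · rintro ⟨h1, h2⟩
      exact ⟨⟨h1, hR.subset h2⟩, fun h3 => hv0R (h3 ▸ h2)⟩
    · rintro ⟨⟨h1, h2⟩, h3⟩
      exact ⟨h1, hBR (hrest' v h1 h2 h3)⟩
  have hfin : (P.extremePoints ℝ ∩ Q').Finite := hP.finite_ext.subset inter_subset_left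
  have hv0mem : v0 ∈ P.extremePoints ℝ ∩ Q' := ⟨hv0, hv0Q''⟩
  -- every other vertex of Q' is in the orbit of v0
  have horb : ∀ v ∈ P.extremePoints ℝ, v ∈ Q' → SameOrbit P {v0} {v} := by
    intro v hv hvQ'
    by_cases hvv0 : v = v0
    · rw [hvv0]
      exact SameOrbit.refl P {v0}
    have hvf : IsFace Q' {v} := (vertex_face hv).of_subset hQ' (singleton_subset_iff.2 hvQ')
    obtain ⟨H, hH, hv0H, hvH, hHd⟩ := hQ'h.facet (hv0f.of_subset hQ' hv0Q') hvf
      (fun h => hvv0 (h rfl))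
    have hHk : dimOf H = k := by omega
    have hHP : IsFace P H := hQ'.trans hH
    have hvH' : v ∉ H := fun h => hvH (singleton_subset_iff.2 h)
    obtain ⟨g, hg, hgRH⟩ := hk R H hRP hRk hHP hHk
    have himg := map_verts hg hgRH
    have hsub : P.extremePoints ℝ ∩ H ⊆ (P.extremePoints ℝ ∩ Q') \ {v} := by
      rintro w ⟨h1, h2⟩
      exact ⟨⟨h1, hH.subset h2⟩, fun h3 => hvH' (h3 ▸ h2)⟩
    have hvmem : v ∈ P.extremePoints ℝ ∩ Q' := ⟨hv, hvQ'⟩
    have hcard : (P.extremePoints ℝ ∩ H).ncard = ((P.extremePoints ℝ ∩ Q') \ {v}).ncard := by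
      rw [← himg, ncard_image_of_injective _ g.injective, hXR,
        ncard_sdiff_singleton_of_mem hv0mem, ncard_sdiff_singleton_of_mem hvmem]
    have hXH : P.extremePoints ℝ ∩ H = (P.extremePoints ℝ ∩ Q') \ {v} :=
      eq_of_subset_of_ncard_le hsub hcard.ge (hfin.subset sdiff_subset)
    -- count the orbit of v0
    by_contra hnot
    set O : Set E := {w | SameOrbit P {v0} {w}} with hO
    have himgO : g '' ((P.extremePoints ℝ ∩ R) ∩ O) = (P.extremePoints ℝ ∩ H) ∩ O := by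
      apply Subset.antisymm
      · rintro _ ⟨w, ⟨h1, h2⟩, rfl⟩
        refine ⟨himg ▸ mem_image_of_mem g h1, ?_⟩
        exact SameOrbit.trans h2 ⟨g, hg, image_singleton⟩
      · rintro w ⟨h1, h2⟩
        rw [← himg] at h1
        obtain ⟨w', hw', rfl⟩ := h1
        refine ⟨w', ⟨hw', ?_⟩, rfl⟩
        exact SameOrbit.trans h2 (SameOrbit.symm ⟨g, hg, image_singleton⟩)
    have hc := congrArg Set.ncard himgO
    rw [ncard_image_of_injective _ g.injective, hXR, hXH] at hc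
    have h1 : ((P.extremePoints ℝ ∩ Q') \ {v}) ∩ O = (P.extremePoints ℝ ∩ Q') ∩ O := by
      ext w
      constructor
      · rintro ⟨⟨h2, h3⟩, h4⟩
        exact ⟨h2, h4⟩
      · rintro ⟨h2, h4⟩
        refine ⟨⟨h2, ?_⟩, h4⟩
        intro h5
        apply hnot
        have h6 : w = v := h5
        rw [← h6]
        exact h4
    have h2 : ((P.extremePoints ℝ ∩ Q') \ {v0}) ∩ O = ((P.extremePoints ℝ ∩ Q') ∩ O) \ {v0} := by
      ext w
      constructor
      · rintro ⟨⟨h2, h3⟩, h4⟩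
        exact ⟨⟨h2, h4⟩, h3⟩
      · rintro ⟨⟨h2, h4⟩, h3⟩
        exact ⟨⟨h2, h3⟩, h4⟩
    have hv0O : v0 ∈ (P.extremePoints ℝ ∩ Q') ∩ O := ⟨hv0mem, SameOrbit.refl P {v0}⟩
    rw [h1, h2] at hc
    have h3 := ncard_sdiff_singleton_lt_of_mem hv0O (hfin.subset inter_subset_left)
    omega
  -- every vertex is in the orbit of v0
  have hvert : ∀ t ∈ P.extremePoints ℝ, SameOrbit P {v0} {t} := by
    intro t ht
    have hPd : k ≤ dimOf P := by
      have := dim_mono hRP.subset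
      omega
    obtain ⟨F, hF, htF, hFk⟩ := hP.exists_between k (dimOf P) (vertex_face ht)
      (by rw [dim_singleton]; omega) hPd (by omega)
    obtain ⟨g, hg, hgF⟩ := hk F R hF hFk hRP hRk
    have h1 : g t ∈ R := hgF ▸ mem_image_of_mem g (htF rfl)
    have h2 := horb (g t) (map_ext hg ht) (hR.subset h1)
    exact h2.trans (SameOrbit.symm ⟨g, hg, image_singleton⟩)
  intro F F' hF hF0 hF' hF'0
  obtain ⟨t, ht, rfl⟩ := zero_face hF hF0
  obtain ⟨t', ht', rfl⟩ := zero_face hF' hF'0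
  exact (hvert t ht).symm.trans (hvert t' ht')

end General

end Pool.Agent.Lib.MP_103b79_co
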