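import Mathlib
import Pool.Agent.Lib.MP_103b79_co.Vertices

open Set Module
namespace Pool.Agent.Lib.MP_103b79_co

/-- A functional that takes the value one on all edge vectors of a simplex at a vertex. -/
lemma simplex_functional {E : Type*} [NormedAddCommGroup E] [NormedSpace ℝ E] {m : ℕ}
    {y : Fin (m + 1) → E} (hy : AffineIndependent ℝ y) :
    ∃ l : E →ₗ[ℝ] ℝ, ∀ i, i ≠ 0 → l (y i) = l (y 0) + 1 := by
  have h1 := (affineIndependent_iff_linearIndependent_vsub ℝ y 0).1 hy
  let b := Basis.span h1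
  obtain ⟨g, hg⟩ := LinearMap.exists_extend (b.constr ℝ (fun _ => (1 : ℝ)))
  refine ⟨g, fun i hi => ?_⟩
  have h2 : g (y i - y 0) = 1 := by
    have h3 : (b ⟨i, hi⟩ : E) = y i - y 0 := by
      rw [Basis.span_apply]
      rfl
    rw [← h3]
    have h4 := LinearMap.congr_fun hg (b ⟨i, hi⟩)
    rw [Basis.constr_basis] at h4
    exact h4
  rw [map_sub] at h2
  linarith

/-- A `k`-face-transitive polytope with a simplex face of dimension `≥ k + 1` is
vertex-transitive. -/
theorem simplex_face_vertex {E : Type*} [NormedAddCommGroup E] [NormedSpace ℝ E]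
    [FiniteDimensional ℝ E] {k m : ℕ} {P : Set E} (hP : IsHull P) (hk : FaceTransitive k P)
    (hkm : k + 1 ≤ m) {y : Fin (m + 1) → E} (hy : AffineIndependent ℝ y)
    (hQ : IsFace P (convexHull ℝ (range y))) : FaceTransitive 0 P := by
  obtain ⟨l, hl⟩ := simplex_functional hy
  have hdim : dimOf (convexHull ℝ (range y)) = m := by
    rw [dimOf, vectorSpan_hull]
    exact hy.finrank_vectorSpan (by rw [Fintype.card_fin])
  have h1 : (1 : Fin (m + 1)) ≠ 0 := by
    intro h
    have h2 := congrArg Fin.val h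
    rw [Fin.val_one', Fin.val_zero, Nat.mod_eq_of_lt (by omega)] at h2
    omega
  have hA : IsFace (convexHull ℝ (range y))
      (convexHull ℝ {w ∈ range y | l w = l (y 0) + 1}) := by
    apply exposed_face
    · rintro _ ⟨i, rfl⟩
      by_cases hi : i = 0
      · rw [hi]; linarith
      · rw [hl i hi]
    · exact ⟨y 1, ⟨1, rfl⟩, hl 1 h1⟩
  have hv : IsFace (convexHull ℝ (range y)) {y 0} := by
    have h2 := exposed_face (range y) (-l) (-(l (y 0))) (by
      rintro _ ⟨i, rfl⟩
      rw [LinearMap.neg_apply]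
      by_cases hi : i = 0
      · rw [hi]
      · rw [hl i hi]; linarith) ⟨y 0, ⟨0, rfl⟩, by rw [LinearMap.neg_apply]⟩
    have h3 : {w ∈ range y | (-l) w = -(l (y 0))} = {y 0} := by
      ext w
      constructor
      · rintro ⟨⟨i, rfl⟩, h4⟩
        rw [LinearMap.neg_apply] at h4
        by_cases hi : i = 0
        · rw [hi]; rfl
        · rw [hl i hi] at h4
          linarith
      · rintro rfl
        exact ⟨⟨0, rfl⟩, by rw [LinearMap.neg_apply]⟩
    rw [h3, convexHull_singleton] at h2
    exact h2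
  have hv0 : y 0 ∈ P.extremePoints ℝ := (hQ.trans hv).2.2.mem_extremePoints
  refine vertex_main (k := k) hP hk hQ (by rw [hdim]; exact hkm) (hQ.trans hA) hv0
    (subset_convexHull ℝ _ ⟨0, rfl⟩) ?_ ?_
  · intro h
    have h2 : convexHull ℝ {w ∈ range y | l w = l (y 0) + 1} ⊆ {x : E | l x = l (y 0) + 1} :=
      convexHull_min (fun w hw => hw.2) (convex_hyperplane l.isLinear _)
    have h3 : l (y 0) = l (y 0) + 1 := h2 h
    linarith
  · intro v hv hvQ hne
    have h2 : v ∈ (convexHull ℝ (range y)).extremePoints ℝ :=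
      inter_extremePoints_subset_extremePoints_of_subset hQ.2.2.subset ⟨hvQ, hv⟩
    obtain ⟨i, rfl⟩ := extremePoints_convexHull_subset h2
    apply subset_convexHull
    refine ⟨⟨i, rfl⟩, hl i ?_⟩
    rintro rfl
    exact hne rfl

end Pool.Agent.Lib.MP_103b79_co
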